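import Pool.Agent.TIW.Defs

/-!
# TIW: basic facts: hexagonal norm, frames, suffixes.
-/

set_option autoImplicit false

namespace HexObs

namespace TIW

open Finset TS SDN

/-! ### 1. The norm -/

lemma upd' : up ∈ dirs := by decide

lemma hn_nonneg (p : Pt) : 0 ≤ hn p := (abs_nonneg _).trans (le_max_left _ _)

lemma hn_neg (p : Pt) : hn (-p) = hn p := by
  unfold hn
  rw [ip_neg_left, ip_neg_left, ip_neg_left, abs_neg, abs_neg, abs_neg]

lemma hn_le {p : Pt} {c : ℤ} (h : ∀ d ∈ dirs, ip p d ≤ c) : hn p ≤ c := by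
  have h1 : ∀ d ∈ dirs, |ip p d| ≤ c := by
    intro d hd
    rw [abs_le]
    have h2 := h (-d) (neg_mem_dirs hd)
    rw [ip_neg_right] at h2
    exact ⟨by linarith, h d hd⟩
  exact max_le (h1 _ upd') (max_le (h1 _ (rotL_mem upd')) (h1 _ (rotR_mem upd')))

lemma ip_le_hn (p : Pt) {d : Pt} (hd : d ∈ dirs) : ip p d ≤ hn p := by
  have h0 : |ip p up| ≤ hn p := le_max_left _ _
  have h1 : |ip p (rotL up)| ≤ hn p := (le_max_left _ _).trans (le_max_right _ _)
  have h2 : |ip p (rotR up)| ≤ hn p := (le_max_right _ _).trans (le_max_right _ _)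
  rw [abs_le] at h0 h1 h2
  have key : d = up ∨ d = -up ∨ d = rotL up ∨ d = -(rotL up) ∨ d = rotR up ∨ d = -(rotR up) := by
    revert d
    decide
  rcases key with rfl | rfl | rfl | rfl | rfl | rfl
  · exact h0.2
  · rw [ip_neg_right]
    linarith [h0.1]
  · exact h1.2
  · rw [ip_neg_right]
    linarith [h1.1]
  · exact h2.2
  · rw [ip_neg_right]
    linarith [h2.1]

lemma neg_hn_le_ip (p : Pt) {d : Pt} (hd : d ∈ dirs) : -hn p ≤ ip p d := by
  have := ip_le_hn p (neg_mem_dirs hd)
  rw [ip_neg_right] at this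
  linarith

lemma hn_add (p q : Pt) : hn (p + q) ≤ hn p + hn q :=
  hn_le fun d hd => by
    rw [ip_add_left]
    exact add_le_add (ip_le_hn p hd) (ip_le_hn q hd)

lemma hn_sub (p q : Pt) : hn (p - q) ≤ hn p + hn q := by
  have := hn_add p (-q)
  rwa [hn_neg, ← sub_eq_add_neg] at this

lemma hn_sub_comm (p q : Pt) : hn (p - q) = hn (q - p) := by
  rw [← neg_sub, hn_neg]

/-- triangle inequality -/
lemma hn_tri (p q s : Pt) : hn (p - s) ≤ hn (p - q) + hn (q - s) := by
  have := hn_add (p - q) (q - s)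
  rwa [sub_add_sub_cancel] at this

lemma mulE_mem {u d : Pt} (hu : nrm u = 1) (hd : d ∈ dirs) : mulE u d ∈ dirs := by
  rw [mem_dirs] at hd ⊢
  have h : nrm (mulE u d) = nrm u * nrm d := by
    unfold nrm mulE
    ring
  rw [h, hu, hd]
  rfl

/-- rotations do not change the norm -/
lemma hn_mulE {u : Pt} (hu : nrm u = 1) (p : Pt) : hn (mulE u p) = hn p := by
  have key : ∀ (v : Pt), nrm v = 1 → ∀ q : Pt, hn q ≤ hn (mulE v q) := by
    intro v hv q
    refine hn_le fun d hd => ?_
    have h1 := ip_mulE v q d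
    rw [hv, one_mul] at h1
    rw [← h1]
    exact ip_le_hn _ (mulE_mem hv hd)
  refine le_antisymm ?_ (key u hu p)
  have hc : nrm (conjE u) = 1 := by
    rw [← hu]
    unfold nrm conjE
    ring
  have h2 := key (conjE u) hc (mulE u p)
  rwa [mulE_assoc, mulE_comm (conjE u) u, mulE_conjE, hu, mulE_one] at h2

/-- a point with a small hexagonal norm has a small norm -/
lemma nrm_le_hn (p : Pt) : nrm p ≤ hn p ^ 2 := by
  have k4 : ip p up ^ 2 - ip p up * ip p (rotL up) + ip p (rotL up) ^ 2 = 3 * nrm p * nrm up := by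
    unfold ip rotL nrm
    ring
  rw [mem_dirs.1 upd'] at k4
  have h0 := abs_le.1 (show |ip p up| ≤ hn p from le_max_left _ _)
  have h1 := abs_le.1 (show |ip p (rotL up)| ≤ hn p from (le_max_left _ _).trans (le_max_right _ _))
  have hh := hn_nonneg p
  nlinarith [mul_nonneg (sub_nonneg.2 h0.2) (by linarith [h0.1] : 0 ≤ ip p up + hn p),
    mul_nonneg (sub_nonneg.2 h1.2) (by linarith [h1.1] : 0 ≤ ip p (rotL up) + hn p),
    mul_nonneg (by linarith [h0.1] : 0 ≤ ip p up + hn p) (by linarith [h1.1] : 0 ≤ ip p (rotL up) + hn p),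
    mul_nonneg (sub_nonneg.2 h0.2) (sub_nonneg.2 h1.2)]

/-! ### 2. Frames -/

/-- the rotation of the frame at the end of the word -/
def rt (w : List Bool) : Pt := rotTo up (de w)

lemma de_mem (w : List Bool) : de w ∈ dirs := ds_mem upd' _

lemma nrm_rt (w : List Bool) : nrm (rt w) = 1 := nrm_rotTo upd' (de_mem w)

lemma rt_up (w : List Bool) : mulE (rt w) up = de w := rotTo_apply _ upd'

lemma vx_app (w r : List Bool) (i : ℕ) : vx oo up (w ++ r) (w.length + i) = en w + mulE (rt w) (vx oo up r i) := by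
  have h3 : vx oo up (w ++ r) (w.length + i) = vx (en w) (de w) r i := by
    have h4 : vx oo up (w ++ r) w.length = vx oo up w w.length := vx_append (by omega)
    have h5 : dx up (w ++ r) w.length = dx up w w.length := dx_append le_rfl
    unfold en de
    rw [← h4, ← h5]
    unfold vx dx
    rw [vs_shift]
    apply vs_congr
    intro k _
    exact tf_append_right k
  rw [h3]
  have h6 := vx_mulE (rt w) oo (en w) up r i
  have h7 : vx oo up r i - oo = vx oo up r i := sub_zero _
  rw [rt_up, h7] at h6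
  exact h6

lemma dx_app (w r : List Bool) (i : ℕ) : dx up (w ++ r) (w.length + i) = mulE (rt w) (dx up r i) := by
  have h3 : dx up (w ++ r) (w.length + i) = dx (de w) r i := by
    have h5 : dx up (w ++ r) w.length = dx up w w.length := dx_append le_rfl
    unfold de
    rw [← h5]
    unfold dx
    rw [ds_shift]
    apply ds_congr
    intro k _
    exact tf_append_right k
  rw [h3]
  have h6 := dx_mulE (rt w) up r i
  rw [rt_up] at h6
  exact h6

end TIW

end HexObs
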