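import Pool.Agent.TIW.Lit
import Pool.Agent.TIP.DefsN
import Pool.Agent.TIP.RevM
import Pool.Agent.NTA.RunX

/-!
# TIW: row N of the weights scheme from the row N of TIP (NEndA) and the mass of the ends (G6 without parity)
-/

set_option autoImplicit false

namespace HexObs

namespace TIW

open Finset TS SDN

open scoped ENNReal

/-- the part behind a cut is self avoiding -/
lemma drop_SA {A Y : List Bool} (h : A ++ Y ∈ SA) : Y ∈ SA := by
  refine ⟨fun i _ _ => Set.mem_univ _, fun i k hik hk he => ?_⟩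
  refine h.inj (A.length + i) (A.length + k) (by omega) (by rw [List.length_append]; omega) ?_
  rw [vx_app, vx_app, he]

/-- the box and the hexagonal norm -/
lemma hn_le_Bl {p : Pt} {D : ℕ} (h : p ∈ SIM.Bl oo D) : hn p ≤ 3 * D := by
  obtain ⟨h1, h2⟩ := h
  have e0 : (oo : Pt) = (0, 0) := rfl
  rw [e0] at h1 h2
  simp only [sub_zero] at h1 h2
  rw [abs_le] at h1 h2
  refine hn_le fun d hd => ?_
  have key : d = up ∨ d = -up ∨ d = rotL up ∨ d = -(rotL up) ∨ d = rotR up ∨ d = -(rotR up) := by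
    revert d
    decide
  unfold ip
  rcases key with rfl | rfl | rfl | rfl | rfl | rfl <;> simp [up, rotL, rotR] <;> omega

/-- free half boxes are free half balls -/
lemma Fe_of_FreeT {a : ℕ} {A : List Bool} (h : TIP.FreeT (2 ^ (a + 1)) A) : A ∈ Fe (2 ^ a) := by
  intro i hi h0
  have h1 := h i hi h0
  by_contra hc
  rw [not_le] at hc
  apply h1
  set p := vx oo up A i - en A with hp
  have h2 := nrm_le_hn p
  have h3 := hn_nonneg p
  have h4 : (hn p) ^ 2 < ((2 : ℤ) ^ a) ^ 2 := by
    have : hn p < (2 : ℤ) ^ a := by exact_mod_cast hc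
    nlinarith
  have h5 : nrm p < ((2 : ℤ) ^ a) ^ 2 := by linarith
  unfold nrm at h5
  have h6 : (0 : ℤ) ≤ (2 : ℤ) ^ a := by positivity
  have g1 : |p.1| ≤ ((2 ^ (a + 1) : ℕ) : ℤ) := by
    push_cast
    rw [pow_succ]
    apply abs_le_of_sq_le_sq _ (by positivity)
    nlinarith [sq_nonneg (p.1 + 2 * p.2)]
  have g2 : |p.2| ≤ ((2 ^ (a + 1) : ℕ) : ℤ) := by
    push_cast
    rw [pow_succ]
    apply abs_le_of_sq_le_sq _ (by positivity)
    nlinarith [sq_nonneg (2 * p.1 + p.2)]
  exact ⟨g1, g2⟩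

/-- **row N** of the weights scheme from row N of TIP -/
theorem niceSt_of (hN : TIP.NEndA) : NiceSt := by
  classical
  intro ε hε
  obtain ⟨η, κ, j, m, b0, hη, hκ, hj, hP⟩ := hN ε hε
  obtain ⟨C, hC, hM⟩ := TIP.ymassG η m hη
  obtain ⟨D, hD, hX⟩ := NTA.Xb_pow
  refine ⟨κ, C * 2 ^ (j + 11) * D ^ (j + 11), m + j + 13, b0, hκ, fun l hl => ?_⟩
  set b := l + (j + 11) with hb
  refine ⟨{Y | Y ∈ SA ∧ rev Y ∈ TIP.GT b η ∧ TIP.In (2 ^ (b + m)) Y}, ?_, ?_, ?_⟩
  · rintro Y ⟨h1, -, h3⟩
    refine ⟨h1, fun i hi => ?_⟩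
    have h4 := hn_le_Bl (h3 i hi)
    have h5 : (2 : ℤ) ^ (m + j + 13) * 2 ^ l = 4 * 2 ^ (b + m) := by
      rw [hb]
      ring
    rw [h5]
    push_cast at h4
    have : (0 : ℤ) < 2 ^ (b + m) := by positivity
    linarith
  · refine (hM b).trans ?_
    have h1 : Ub b ≤ 2 ^ (j + 11) * Ub l := by
      rw [hb]
      exact Ub_add l (j + 11)
    have h2 := hX l (j + 11)
    have h3 : (0 : ℝ) ≤ Ub l := (Ub_pos l).le
    calc ENNReal.ofReal (C * Ub b) * NTA.Xb b
        ≤ ENNReal.ofReal (C * (2 ^ (j + 11) * Ub l)) * (ENNReal.ofReal (D ^ (j + 11)) * NTA.Xb l) := by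
          gcongr
      _ = ENNReal.ofReal (C * 2 ^ (j + 11) * D ^ (j + 11) * Ub l) * NTA.Xb l := by
          rw [← mul_assoc, ← ENNReal.ofReal_mul (by positivity)]
          congr 2
          ring
  · obtain ⟨n0, hn0⟩ := hP b (by omega)
    refine ⟨n0, fun n hn => ?_⟩
    refine le_trans ?_ (hn0 n hn)
    unfold TOG.Pn
    refine div_le_div_of_nonneg_right ?_ (Nat.cast_nonneg _)
    rw [Nat.cast_le]
    refine Set.ncard_le_ncard ?_ ((sawN_fin n).subset fun t h => h.1)
    rintro t ⟨ht, hnc⟩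
    refine ⟨ht, ?_⟩
    by_contra hc
    apply hnc
    have hc' : κ * Ub b ≤ ((TIP.NCa b (b - j) (2 ^ (b + m)) η t).ncard : ℝ) := not_lt.1 hc
    have h1 : κ * UU (2 ^ l) ≤ κ * Ub b :=
      mul_le_mul_of_nonneg_left (UU_mono (Nat.pow_le_pow_right (by norm_num) (by omega))) hκ.le
    refine (h1.trans hc').trans ?_
    rw [Nat.cast_le, ← Set.ncard_coe_finset]
    refine Set.ncard_le_ncard_of_injOn (fun Y => t.length - Y.length) ?_ ?_ (Finset.finite_toSet _)
    · rintro Y ⟨h2, h3, A, rfl, h4⟩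
      have e1 : (A ++ Y).length - Y.length = A.length := by
        rw [List.length_append]
        omega
      simp only [Finset.mem_coe, mem_filter, e1]
      refine ⟨by rw [mem_range, List.length_append]; omega, ?_, ?_⟩
      · rw [List.take_left]
        have h5 : 1024 * 2 ^ l = 2 ^ (l + 10) := by ring
        rw [h5]
        apply Fe_of_FreeT
        have h6 : b - j = l + 10 + 1 := by omega
        rwa [← h6]
      · rw [List.drop_left]
        exact ⟨drop_SA (A := A) ht.2, h2, h3⟩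
    · rintro Y ⟨-, -, A, e1, -⟩ Y' ⟨-, -, A', e2, -⟩ h7
      have h7' : t.length - Y.length = t.length - Y'.length := h7
      have h8 : A.length = A'.length := by
        have g1 := congrArg List.length e1
        have g2 := congrArg List.length e2
        rw [List.length_append] at g1 g2
        omega
      rw [e1] at e2
      exact (List.append_inj e2 h8).2

end TIW

end HexObs
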