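import Pool.Agent.TIW.Lit
import Pool.Agent.TIP.OddV
import Pool.Agent.TPC.NaC

/-!
# TIW: masses of the half plane words and of the odd turns (helper85; rows W3m of nu34/SOFT_34L)

* **`hpUp`** : `HpUp`, **`hpLow`** : `HpLow`, **`turnSt`** : `TurnSt`.
-/

set_option autoImplicit false

namespace HexObs

namespace TIW

open Finset TS SDN SIM

open scoped ENNReal

/-! ### 1. The norm -/

/-- the hexagonal norm from the two levels -/
lemma hn_of_lvl {p : Pt} {a b : ℤ} (h1 : |lvl false p| ≤ a) (h2 : |lvl true p| ≤ b) : hn p ≤ a + b := by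
  have e3 := ip_rot_sum p up
  rw [TIP.lvl_false] at h1
  rw [TIP.lvl_true, abs_neg] at h2
  have ha : 0 ≤ a := (abs_nonneg _).trans h1
  have hb : 0 ≤ b := (abs_nonneg _).trans h2
  refine max_le (h1.trans (by linarith)) (max_le ?_ (h2.trans (by linarith)))
  rw [abs_le] at h1 h2 ⊢
  constructor <;> linarith [h1.1, h1.2, h2.1, h2.2]

/-- words of a box -/
lemma hn_WL {L : ℕ} {t : List Bool} (h : t ∈ WL L) {i : ℕ} (hi : i ≤ t.length) : hn (vx oo up t i) ≤ 6 * 2 ^ L + 4 := by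
  have key : ∀ dir, |lvl dir (vx oo up t i)| ≤ 3 * 2 ^ L + 2 := by
    intro dir
    have h1 := h.2 i hi dir
    unfold row at h1
    generalize lvl dir (vx oo up t i) = x at h1 ⊢
    generalize (2 : ℤ) ^ L = N at h1 ⊢
    rw [abs_le] at h1 ⊢
    omega
  have h2 := hn_of_lvl (key false) (key true)
  linarith

lemma Hp_SSt (l : ℕ) : Hp (2 ^ l) ⊆ SSt (2 ^ l) := by
  rintro E ⟨h1, h2⟩
  refine ⟨fun i hi hil => ?_, h1.inj⟩
  rw [mem_St]
  have h3 := h2 i hil
  have h4 : ip (vx oo up E i) up ≤ hn (vx oo up E i) := ip_le_hn _ upd'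
  have h5 : 0 < ip (vx oo up E i) up := h1.mem i hi hil
  have e : lev E i = ip (vx oo up E i) up := rfl
  have h6 : (0 : ℤ) < 2 ^ l := by positivity
  rw [e]
  push_cast at h3 ⊢
  generalize (2 : ℤ) ^ l = N at h3 h6 ⊢
  omega

/-! ### 2. The upper bound -/

/-- **upper bound of the half plane words** -/
theorem hpUp : HpUp := by
  refine ⟨1, one_pos, fun l => ?_⟩
  have hU : (0 : ℝ) < UU (2 ^ l) := Num2Aux.UU_pos _
  have h1 : gf (Hp (2 ^ l)) ≤ BAR.HH (2 ^ l) := gf_mono (Hp_SSt l)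
  have h2 : BAR.HH (2 ^ l) / ENNReal.ofReal (UU (2 ^ l)) ≤ NTA.Xb l :=
    le_iSup (fun i : Fin (l + 1) => BAR.HH (2 ^ i.1) / ENNReal.ofReal (UU (2 ^ i.1))) ⟨l, by omega⟩
  rw [ENNReal.div_le_iff (by simpa using hU) ENNReal.ofReal_ne_top] at h2
  refine h1.trans (h2.trans (le_of_eq ?_))
  rw [mul_comm, one_mul]
  rfl

/-! ### 3. The lower bound -/

/-- vertices of the tube -/
lemma tub_facts {ρ : ℕ} (hρ : 2 ≤ ρ) {B : List Bool} (hB : B ∈ Tub 0 (1 / 12) ρ) : ∃ t : ℕ, 2 * ρ ≤ t ∧ t ≤ 3 * ρ ∧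
    B ∈ Brd t ∧ ip (vx oo up B B.length) up = 3 * t ∧ ∀ i, i ≤ B.length → hn (vx oo up B i) ≤ 9 * ρ := by
  obtain ⟨t, h2, h3, h4, h5, h6, h7⟩ := hB
  obtain ⟨k1, -, -, k4⟩ := mem_Brd.1 h4
  refine ⟨t, h2, h3, h4, k4, fun i hi => ?_⟩
  obtain ⟨g1, g2⟩ := h7 i hi
  have ht : (t : ℝ) ≤ 3 * ρ := by exact_mod_cast h3
  have g3 : -(ρ : ℤ) ≤ 4 * lat B i := by
    have : ((-(ρ : ℤ) : ℤ) : ℝ) ≤ ((4 * lat B i : ℤ) : ℝ) := by
      push_cast
      linarith
    exact_mod_cast this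
  have g4 : 4 * lat B i ≤ 4 * latE B + ρ := by
    have : ((4 * lat B i : ℤ) : ℝ) ≤ ((4 * latE B + ρ : ℤ) : ℝ) := by
      push_cast
      linarith
    exact_mod_cast this
  have g5 : 0 ≤ ip (vx oo up B i) up ∧ ip (vx oo up B i) up ≤ 3 * t := by
    have e : ip (vx oo up B i) up = lev B i := rfl
    rw [e]
    rcases Nat.eq_zero_or_pos i with hz | hp
    · rw [hz, lev_zero]
      omega
    · have := k1 i hp hi
      omega
  have g6 := TIP.ip_R (vx oo up B i)
  have g7 := ip_rot_sum (vx oo up B i) up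
  rw [← TIP.lat_one] at g6
  push_cast at h6
  have h3' : (t : ℤ) ≤ 3 * ρ := by exact_mod_cast h3
  have hρ' : (2 : ℤ) ≤ ρ := by exact_mod_cast hρ
  refine max_le ?_ (max_le ?_ ?_)
  · rw [abs_le]
    constructor <;> linarith [g5.1, g5.2]
  · rw [abs_le]
    constructor <;> linarith [g5.1, g5.2]
  · rw [abs_le]
    constructor <;> linarith [g5.1, g5.2]

/-- **lower bound of the even half plane words with cutoff one** -/
theorem hpLow : HpLow := by
  obtain ⟨c, ρ0, hc, h0, hT⟩ := TIP.FreeA.tub_UU 0 (show (0 : ℝ) < 1 / 12 by norm_num)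
  obtain ⟨J, k0, hJ⟩ := TPC.na_half
  obtain ⟨D, hD, hX⟩ := NTA.Xb_pow
  have hD0 : (0 : ℝ) < D := by linarith
  refine ⟨c / (512 * D ^ (J + 9)), J + 9 + k0 + ρ0, by positivity, fun l hl => ?_⟩
  obtain ⟨r, rfl⟩ : ∃ r, l = r + (J + 9) := ⟨l - (J + 9), by omega⟩
  have hr : k0 ≤ r := by omega
  obtain ⟨ρ, hρ⟩ : ∃ ρ, ρ = 2 ^ (r + J + 4) := ⟨_, rfl⟩
  have hρ0 : ρ0 ≤ ρ := by
    have h1 : ρ0 ≤ r + J + 4 := by omega
    have h2 : r + J + 4 < 2 ^ (r + J + 4) := Nat.lt_two_pow_self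
    omega
  have hρ16 : 2 ≤ ρ := by
    have h1 : 2 ^ 4 ≤ 2 ^ (r + J + 4) := Nat.pow_le_pow_right (by norm_num) (by omega)
    omega
  have hρN : (ρ : ℤ) = 16 * 2 ^ (r + J) := by
    rw [hρ]
    push_cast
    rw [pow_add]
    ring
  have hN : (2 : ℤ) ^ (r + (J + 9)) = 512 * 2 ^ (r + J) := by
    rw [← add_assoc, pow_add]
    ring
  have hM : (1 : ℤ) ≤ 2 ^ (r + J) := one_le_pow₀ (by norm_num)
  have h1 : gf (Tub 0 (1 / 12) ρ) * gf {v | v ∈ TPF.NAb false (2 ^ r) ∧ v ∈ WL (r + J)} ≤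
      gf {E | E ∈ Hp (2 ^ (r + (J + 9))) ∧ E.length % 2 = 0 ∧ (2 : ℤ) ^ (r + (J + 9)) ≤ 16 * ip (en E) up ∧
        32 * hn (en E) ≤ 15 * 2 ^ (r + (J + 9))} := by
    refine mul_le_gf (fun B hB v hv => ?_) (fun B hB v hv B' hB' v' hv' he => ?_)
    · obtain ⟨t, ht1, ht2, hBt, hBe, hBn⟩ := tub_facts hρ16 hB
      obtain ⟨⟨hv1, hv2⟩, hv3⟩ := hv
      have hd := (mem_Brd.1 hBt).2.2.1
      have hS := BAR.SSt_cat hBt hv1.1
      have hvx : ∀ i, i ≤ (B ++ v).length → hn (vx oo up (B ++ v) i) ≤ 9 * ρ + (6 * 2 ^ (r + J) + 4) := by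
        intro i hi
        by_cases h : i ≤ B.length
        · rw [vx_append (by omega)]
          have := hBn i h
          have h2 : (0 : ℤ) < 2 ^ (r + J) := by positivity
          linarith
        · rw [List.length_append] at hi
          obtain ⟨j, rfl⟩ : ∃ j, i = B.length + j := ⟨i - B.length, by omega⟩
          rw [vx_cat hd]
          exact (hn_add _ _).trans (add_le_add (hBn _ le_rfl) (hn_WL hv3 (by omega)))
      have hen : en (B ++ v) = vx oo up B B.length + vx oo up v v.length := by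
        unfold en
        rw [List.length_append, vx_cat hd]
      have hlev : 0 ≤ ip (vx oo up v v.length) up := by
        have e : ip (vx oo up v v.length) up = lev v v.length := rfl
        rw [e]
        rcases Nat.eq_zero_or_pos v.length with hz | hp
        · rw [hz, lev_zero]
        · exact (mem_St.1 (hv1.1.mem _ hp le_rfl)).1.le
      refine ⟨⟨(TPF.SSt_HpN hS).2, fun i hi => ?_⟩, ?_, ?_, ?_⟩
      · have := hvx i hi
        push_cast
        rw [hN]
        rw [hρN] at this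
        linarith
      · have e1 := TIP.brd_even hBt
        rw [List.length_append, Nat.mod_two_of_bodd, Nat.bodd_add, e1, hv2]
        rfl
      · rw [hen, ip_add_left, hBe, hN]
        have : (2 * ρ : ℤ) ≤ t := by exact_mod_cast ht1
        rw [hρN] at this
        linarith
      · have := hvx (B ++ v).length le_rfl
        have e : vx oo up (B ++ v) (B ++ v).length = en (B ++ v) := rfl
        rw [e, hρN] at this
        rw [hN]
        linarith
    · obtain ⟨t, -, -, hBt, -⟩ := tub_facts hρ16 hB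
      obtain ⟨t', -, -, hBt', -⟩ := tub_facts hρ16 hB'
      exact (TPF.na_uniq hBt hBt' hv.1.1 hv'.1.1 he).1
  refine le_trans ?_ h1
  have h2 : NTA.Xb r ≤ 16 * gf {v | v ∈ TPF.NAb false (2 ^ r) ∧ v ∈ WL (r + J)} := by
    refine (TPC.Xb_le_NAb false le_rfl).trans ?_
    have h3 := hJ r (2 ^ r) (r + J) false hr le_rfl (Nat.pow_lt_pow_right (by norm_num) (by omega)) le_rfl
    calc 8 * gf (TPF.NAb false (2 ^ r)) ≤ 8 * (2 * gf {v | v ∈ TPF.NAb false (2 ^ r) ∧ v ∈ WL (r + J)}) :=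
          mul_le_mul' le_rfl h3
      _ = _ := by ring
  have h3 : Ub (r + (J + 9)) ≤ 32 * UU (3 * ρ) := by
    have h4 := TPC.Ub_pow (r + J + 4) 5
    have h5 : Ub (r + J + 4) ≤ UU (3 * ρ) := by
      show UU (2 ^ (r + J + 4)) ≤ _
      rw [← hρ]
      exact Num2Aux.UU_mono (by omega)
    have e : r + (J + 9) = r + J + 4 + 5 := by ring
    rw [e]
    refine h4.trans ?_
    norm_num
    exact h5
  have hU : 0 < UU (3 * ρ) := Num2Aux.UU_pos _
  calc ENNReal.ofReal (c / (512 * D ^ (J + 9)) * Ub (r + (J + 9))) * NTA.Xb (r + (J + 9))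
      ≤ ENNReal.ofReal (c / (512 * D ^ (J + 9)) * (32 * UU (3 * ρ))) * (ENNReal.ofReal (D ^ (J + 9)) *
        (16 * gf {v | v ∈ TPF.NAb false (2 ^ r) ∧ v ∈ WL (r + J)})) := by
        refine mul_le_mul' (ENNReal.ofReal_le_ofReal ?_) ((hX r (J + 9)).trans (mul_le_mul' le_rfl h2))
        exact mul_le_mul_of_nonneg_left h3 (by positivity)
    _ = ENNReal.ofReal (c * UU (3 * ρ)) * gf {v | v ∈ TPF.NAb false (2 ^ r) ∧ v ∈ WL (r + J)} := by
        rw [show (16 : ℝ≥0∞) = ENNReal.ofReal 16 by simp, ← mul_assoc, ← mul_assoc, ← ENNReal.ofReal_mul (by positivity),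
          ← ENNReal.ofReal_mul (by positivity)]
        congr 2
        field_simp
        ring
    _ ≤ _ := mul_le_mul' (hT ρ hρ0) le_rfl

/-! ### 4. The odd turns -/

/-- **the mass of the odd turns** -/
theorem turnSt : TurnSt := by
  obtain ⟨c, l0, hc, h⟩ := TIP.Vc_mass
  refine ⟨c, l0, hc, fun l hl => ⟨TIP.Vc l, ⟨fun V hV => ?_, fun V hV => ?_, fun V hV => TIP.Vc_dir hV, fun V hV => ?_,
    fun V hV i hi => ?_⟩, h l hl⟩⟩
  · refine ⟨(TPF.SSt_HpN (TIP.Vc_SSt hV)).2, fun i hi => ?_⟩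
    have h1 := TIP.Vc_box hV i hi
    have h2 := hn_of_lvl (h1 false) (h1 true)
    have hM : (1 : ℤ) ≤ 2 ^ l := one_le_pow₀ (by norm_num)
    push_cast at h2 ⊢
    rw [pow_add] at h2 ⊢
    linarith
  · rw [Nat.mod_two_of_bodd, TIP.Vc_odd hV]
    rfl
  · have h1 := TIP.Vc_hgt hV
    have e : lev V V.length = ip (en V) up := rfl
    have hM : (1 : ℤ) ≤ 2 ^ l := one_le_pow₀ (by norm_num)
    rw [e, pow_add] at h1
    rw [pow_add]
    linarith
  · have e : de V = rotR up := TIP.Vc_dir hV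
    rw [e]
    exact TIP.Vc_free hV i hi

end TIW

end HexObs
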