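import Pool.Agent.TOG.Defs

/-!
# TIW: the weights of the local limit (doc nu34/SOFT_34). Definitions.

The tip is the END of the word. A cut of the word `t` is an index `k`: `A = t.take k` is the far part, `E = t.drop k` the
part between the cut and the tip, seen in the frame of the cut (start at the origin, upwards).

* `hn` : hexagonal norm, invariant under the lattice rotations; every step has the norm 2, a row has the norm 3;
* `Fe r` : the half ball of radius `r` in front of the tip (above it, in the direction of exit) is free;
* `Hp r` : half plane words of size less than `r`;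
* `chi r E` : the Lipschitz cutoff of the position of the tip relative to the cut;
* `cu r t` : the cuts of the scale `r`: `t.take k` in `Fe (2 r)`, `t.drop k` in `Hp r`;
* `Nw r y t` : the weight of the scale `r`: sum of `chi r (t.drop k)` over the cuts with `|t.drop k|` of the parity `y`;
  `NP r t`: the number of all these cuts (both parities);
* `Dw r y a v t` : the discretised weight, unit `a`, offset `v`.
-/

set_option autoImplicit false

namespace HexObs

namespace TIW

open Finset TS SDN

/-- hexagonal norm -/
def hn (p : Pt) : ℤ := max |ip p up| (max |ip p (rotL up)| |ip p (rotR up)|)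

/-- the last vertex (the tip) -/
def en (t : List Bool) : Pt := vx oo up t t.length

/-- the direction of exit -/
def de (t : List Bool) : Pt := dx up t t.length

/-- the half ball of radius r in front of the tip is free -/
def Fe (r : ℕ) : Set (List Bool) :=
  {A | ∀ i, i ≤ A.length → 0 < ip (vx oo up A i - en A) (de A) → (r : ℤ) ≤ hn (vx oo up A i - en A)}

/-- half plane words of size less than r -/
def Hp (r : ℕ) : Set (List Bool) := {E | Saw HP oo up E ∧ ∀ i, i ≤ E.length → hn (vx oo up E i) < r}

/-- cut off to the unit interval -/
noncomputable def cl1 (x : ℝ) : ℝ := max 0 (min 1 x)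

/-- the cutoff: 0 unless the height of the tip is at least r / 32 and its distance at most r / 2; 1 if the height is at least
r / 16 and the distance at most 15 r / 32 -/
noncomputable def chi (r : ℕ) (E : List Bool) : ℝ :=
  min (cl1 (32 * (ip (en E) up : ℝ) / r - 1)) (cl1 (16 - 32 * (hn (en E) : ℝ) / r))

open Classical in
/-- the cuts of the scale r, both parities -/
noncomputable def cu (r : ℕ) (t : List Bool) : Finset ℕ :=
  (range (t.length + 1)).filter fun k => t.take k ∈ Fe (2 * r) ∧ t.drop k ∈ Hp r

/-- the weight of the scale r, parts E with the parity y -/
noncomputable def Nw (r y : ℕ) (t : List Bool) : ℝ :=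
  ∑ k ∈ (cu r t).filter (fun k => (t.drop k).length % 2 = y % 2), chi r (t.drop k)

/-- the number of the cuts of the scale r -/
noncomputable def NP (r : ℕ) (t : List Bool) : ℝ := ((cu r t).card : ℝ)

/-- the discretised weight: unit a, offset v -/
noncomputable def Dw (r y : ℕ) (a v : ℝ) (t : List Bool) : ℤ := ⌊Nw r y t / a + v⌋

end TIW

end HexObs
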