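import Pool.Agent.TIW.ZBu
import Pool.Agent.TOG.Place

/-!
# TIW: the free half balls and the weights do not change under a toggle far away from the tip (helper15)

* `feTog : FeTog`, `nwTog : NwTog`.
-/

set_option autoImplicit false

namespace HexObs

namespace TIW

open Finset TS SDN

open TOG (pS pL ctr)

/-- the hexagonal norm and the quadratic norm -/
lemma hn_sq_le (p : Pt) : hn p ^ 2 ≤ 4 * nrm p := by
  obtain ⟨a, b⟩ := p
  have h : ∀ d ∈ dirs, ip (a, b) d ^ 2 ≤ 4 * nrm (a, b) := by
    intro d hd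
    simp only [dirs, Finset.mem_insert, Finset.mem_singleton] at hd
    rcases hd with rfl | rfl | rfl | rfl | rfl | rfl <;> simp only [ip, nrm] <;>
      nlinarith [sq_nonneg a, sq_nonneg b, sq_nonneg (a + b), sq_nonneg (a - b)]
  have h1 := h up (by decide)
  have h2 := h (rotL up) (by decide)
  have h3 := h (rotR up) (by decide)
  unfold hn
  rcases max_cases |ip (a, b) up| (max |ip (a, b) (rotL up)| |ip (a, b) (rotR up)|) with ⟨e, _⟩ | ⟨e, _⟩
  · rw [e, sq_abs]
    exact h1
  · rcases max_cases |ip (a, b) (rotL up)| |ip (a, b) (rotR up)| with ⟨e', _⟩ | ⟨e', _⟩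
    · rw [e, e', sq_abs]
      exact h2
    · rw [e, e', sq_abs]
      exact h3

lemma hn_of_nrm {R : ℕ} {p : Pt} (h : (R : ℤ) ^ 2 < nrm p) : (R : ℤ) < hn p := by
  have h1 := nrm_le_hn p
  have h2 := hn_nonneg p
  by_contra hc
  rw [not_lt] at hc
  have : hn p ^ 2 ≤ (R : ℤ) ^ 2 := pow_le_pow_left₀ h2 hc 2
  linarith

lemma ctr_eq (X : List Bool) : ctr X = en X + mulE (rt X) (0, 2) := by
  unfold TOG.ctr
  rw [tip_eq]
  have h1 : dx up X X.length = mulE (rt X) up := (rt_up X).symm
  have h2 : mulE (rt X) (0, 2) = mulE (rt X) up + mulE (rt X) up := by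
    rw [← mulE_add]
    rfl
  rw [h1, h2]
  unfold en
  abel

/-- the vertices of the short form are on the face -/
lemma face_S (X Y : List Bool) {j : ℕ} (h1 : 1 ≤ j) (h2 : j ≤ 3) :
    hn (vx oo up (X ++ (pS ++ Y)) (X.length + j) - ctr X) = 2 := by
  rw [vx_app, ctr_eq]
  have e1 : vx oo up (pS ++ Y) j = vx oo up pS j := vx_append (by simp [pS]; omega)
  rw [e1, add_sub_add_left_eq_sub, ← mulE_sub, hn_mulE (nrm_rt X)]
  have : j = 1 ∨ j = 2 ∨ j = 3 := by omega
  rcases this with rfl | rfl | rfl <;> decide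

/-- the vertices of the long form are on the face -/
lemma face_L (X Y : List Bool) {j : ℕ} (h1 : 1 ≤ j) (h2 : j ≤ 5) :
    hn (vx oo up (X ++ (pL ++ Y)) (X.length + j) - ctr X) = 2 := by
  rw [vx_app, ctr_eq]
  have e1 : vx oo up (pL ++ Y) j = vx oo up pL j := vx_append (by simp [pL]; omega)
  rw [e1, add_sub_add_left_eq_sub, ← mulE_sub, hn_mulE (nrm_rt X)]
  have : j = 1 ∨ j = 2 ∨ j = 3 ∨ j = 4 ∨ j = 5 := by omega
  rcases this with rfl | rfl | rfl | rfl | rfl <;> decide

lemma len_S (X Y : List Bool) : (X ++ (pS ++ Y)).length = X.length + (3 + Y.length) := by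
  simp [pS]
  omega

lemma len_L (X Y : List Bool) : (X ++ (pL ++ Y)).length = X.length + (5 + Y.length) := by
  simp [pL]
  omega

lemma en_SL (X Y : List Bool) : en (X ++ (pS ++ Y)) = en (X ++ (pL ++ Y)) := by
  unfold en
  rw [len_S, len_L]
  exact (TOG.tog_vx X Y).2 Y.length

lemma de_pS : de pS = de pL := by decide

lemma de_SL (X Y : List Bool) : de (X ++ (pS ++ Y)) = de (X ++ (pL ++ Y)) := by
  have h : rt pS = rt pL := by
    unfold rt
    rw [de_pS]
  rw [de_app, de_app, de_app, de_app, h]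

/-- **the free half ball and a far toggle** -/
theorem fe_SL {r : ℕ} {X Y : List Bool} (h : (r : ℤ) + 2 ≤ hn (ctr X - en (X ++ (pS ++ Y)))) :
    X ++ (pS ++ Y) ∈ Fe r ↔ X ++ (pL ++ Y) ∈ Fe r := by
  have far : ∀ v : Pt, hn (v - ctr X) = 2 → (r : ℤ) ≤ hn (v - en (X ++ (pS ++ Y))) := by
    intro v hv
    have h1 := hn_tri (ctr X) v (en (X ++ (pS ++ Y)))
    rw [hn_sub_comm (ctr X) v, hv] at h1
    linarith
  obtain ⟨t1, t2⟩ := TOG.tog_vx X Y
  constructor
  · intro hF i hi hpos
    rw [len_L] at hi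
    rw [← en_SL] at hpos ⊢
    rw [← de_SL] at hpos
    rcases Nat.lt_or_ge (X.length + 1) i with h1 | h1
    · rcases Nat.lt_or_ge i (X.length + 5) with h2 | h2
      · obtain ⟨j, rfl⟩ : ∃ j, i = X.length + j := ⟨i - X.length, by omega⟩
        exact far _ (face_L X Y (by omega) (by omega))
      · obtain ⟨j, rfl⟩ : ∃ j, i = X.length + (5 + j) := ⟨i - X.length - 5, by omega⟩
        rw [← t2 j] at hpos ⊢
        exact hF _ (by rw [len_S]; omega) hpos
    · rw [← t1 i h1] at hpos ⊢
      exact hF _ (by rw [len_S]; omega) hpos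
  · intro hF i hi hpos
    rw [len_S] at hi
    rcases Nat.lt_or_ge (X.length + 1) i with h1 | h1
    · rcases Nat.lt_or_ge i (X.length + 3) with h2 | h2
      · obtain ⟨j, rfl⟩ : ∃ j, i = X.length + j := ⟨i - X.length, by omega⟩
        exact far _ (face_S X Y (by omega) (by omega))
      · obtain ⟨j, rfl⟩ : ∃ j, i = X.length + (3 + j) := ⟨i - X.length - 3, by omega⟩
        rw [t2 j, en_SL, de_SL] at hpos
        rw [t2 j, en_SL]
        exact hF _ (by rw [len_L]; omega) hpos
    · rw [t1 i h1, en_SL, de_SL] at hpos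
      rw [t1 i h1, en_SL]
      exact hF _ (by rw [len_L]; omega) hpos

/-- **W3t** -/
theorem feTog : FeTog := by
  intro r R0 hr X Y _ hR _ _
  have h1 := hn_of_nrm hR
  have h2 : X ++ (pS ++ Y) ∈ Fe r ↔ X ++ (pL ++ Y) ∈ Fe r := fe_SL (by
    have : (r : ℤ) + 2 ≤ R0 := by exact_mod_cast hr
    linarith)
  show TIP.ind (X ++ (pS ++ Y) ∈ Fe r) = TIP.ind (X ++ (pL ++ Y) ∈ Fe r)
  rw [propext h2]

/-- the vertices of the end seen from the tip -/
lemma drop_near {r : ℕ} {t : List Bool} {k i : ℕ} (h : t.drop k ∈ Hp r) (hk : k ≤ i) (hi : i ≤ t.length) :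
    hn (vx oo up t i - en t) < 2 * r := by
  have e1 : t = t.take k ++ t.drop k := (List.take_append_drop k t).symm
  have hkl : (t.take k).length = k := List.length_take_of_le (by omega)
  have e2 : vx oo up t i = en (t.take k) + mulE (rt (t.take k)) (vx oo up (t.drop k) (i - k)) := by
    have := vx_app (t.take k) (t.drop k) (i - k)
    rw [← e1, hkl, show k + (i - k) = i by omega] at this
    exact this
  have e3 : en t = en (t.take k) + mulE (rt (t.take k)) (en (t.drop k)) := by
    have := en_app (t.take k) (t.drop k)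
    rw [← e1] at this
    exact this
  rw [e2, e3, add_sub_add_left_eq_sub, ← mulE_sub, hn_mulE (nrm_rt _)]
  exact hn_lt_two h.2 (by rw [List.length_drop]; omega) le_rfl

/-- **the sums over the cuts and a far toggle** -/
theorem cu_SL (φ : List Bool → ℝ) {r : ℕ} {X Y : List Bool} (h : 8 * (r : ℤ) + 8 ≤ hn (ctr X - en (X ++ (pS ++ Y)))) :
    ∑ k ∈ cu r (X ++ (pS ++ Y)), φ ((X ++ (pS ++ Y)).drop k) = ∑ k ∈ cu r (X ++ (pL ++ Y)), φ ((X ++ (pL ++ Y)).drop k) := by
  classical
  have far : ∀ v : Pt, hn (v - ctr X) = 2 → 8 * (r : ℤ) + 6 ≤ hn (v - en (X ++ (pS ++ Y))) := by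
    intro v hv
    have h1 := hn_tri (ctr X) v (en (X ++ (pS ++ Y)))
    rw [hn_sub_comm (ctr X) v, hv] at h1
    linarith
  have dS : ∀ i, (X ++ (pS ++ Y)).drop (X.length + (3 + i)) = Y.drop i := by
    intro i
    rw [← List.drop_drop, List.drop_left, ← List.drop_drop]
    rfl
  have dL : ∀ i, (X ++ (pL ++ Y)).drop (X.length + (5 + i)) = Y.drop i := by
    intro i
    rw [← List.drop_drop, List.drop_left, ← List.drop_drop]
    rfl
  have tS : ∀ i, (X ++ (pS ++ Y)).take (X.length + (3 + i)) = X ++ (pS ++ Y.take i) := by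
    intro i
    rw [List.take_append, List.take_of_length_le (by omega), show X.length + (3 + i) - X.length = 3 + i by omega,
      List.take_append, List.take_of_length_le (by simp [pS])]
    congr 3
    simp [pS]
  have tL : ∀ i, (X ++ (pL ++ Y)).take (X.length + (5 + i)) = X ++ (pL ++ Y.take i) := by
    intro i
    rw [List.take_append, List.take_of_length_le (by omega), show X.length + (5 + i) - X.length = 5 + i by omega,
      List.take_append, List.take_of_length_le (by simp [pL])]
    congr 3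
    simp [pL]
  -- the cuts are behind the face
  have bS : ∀ k ∈ cu r (X ++ (pS ++ Y)), ∃ i, k = X.length + (3 + i) ∧ i ≤ Y.length := by
    intro k hk
    unfold cu at hk
    rw [Finset.mem_filter, Finset.mem_range, len_S] at hk
    refine ⟨k - X.length - 3, ?_, by omega⟩
    by_contra hc
    have h1 := drop_near hk.2.2 (i := X.length + 3) (by omega) (by rw [len_S]; omega)
    have h2 := far _ (face_S X Y (j := 3) (by omega) le_rfl)
    linarith
  have bL : ∀ k ∈ cu r (X ++ (pL ++ Y)), ∃ i, k = X.length + (5 + i) ∧ i ≤ Y.length := by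
    intro k hk
    unfold cu at hk
    rw [Finset.mem_filter, Finset.mem_range, len_L] at hk
    refine ⟨k - X.length - 5, ?_, by omega⟩
    by_contra hc
    have h1 := drop_near hk.2.2 (i := X.length + 5) (by omega) (by rw [len_L]; omega)
    have h2 := far _ (face_L X Y (j := 5) (by omega) le_rfl)
    rw [en_SL] at h2
    linarith
  have key : ∀ i, i ≤ Y.length → (X.length + (3 + i) ∈ cu r (X ++ (pS ++ Y)) ↔ X.length + (5 + i) ∈ cu r (X ++ (pL ++ Y))) := by
    intro i hi
    unfold cu
    rw [Finset.mem_filter, Finset.mem_filter, Finset.mem_range, Finset.mem_range, len_S, len_L, dS, dL, tS, tL]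
    by_cases hp : Y.drop i ∈ Hp r
    · have h1 : hn (ctr X - en (X ++ (pS ++ Y.take i))) + 2 * r > 8 * (r : ℤ) + 8 - 1 := by
        have h2 := drop_near (t := X ++ (pS ++ Y)) (k := X.length + (3 + i)) (i := X.length + (3 + i)) (by
          rw [dS]
          exact hp) le_rfl (by rw [len_S]; omega)
        have e1 : vx oo up (X ++ (pS ++ Y)) (X.length + (3 + i)) = en (X ++ (pS ++ Y.take i)) := by
          rw [← tS i]
          unfold en
          rw [List.length_take_of_le (by rw [len_S]; omega)]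
          nth_rw 1 [← List.take_append_drop (X.length + (3 + i)) (X ++ (pS ++ Y))]
          exact vx_append (by rw [List.length_take_of_le (by rw [len_S]; omega)]; omega)
        rw [e1] at h2
        have h3 := hn_tri (ctr X) (en (X ++ (pS ++ Y.take i))) (en (X ++ (pS ++ Y)))
        linarith
      have h2 : X ++ (pS ++ Y.take i) ∈ Fe (2 * r) ↔ X ++ (pL ++ Y.take i) ∈ Fe (2 * r) := fe_SL (by
        push_cast
        linarith [Int.natCast_nonneg r])
      rw [h2]
      constructor
      · rintro ⟨-, a, b⟩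
        exact ⟨by omega, a, b⟩
      · rintro ⟨-, a, b⟩
        exact ⟨by omega, a, b⟩
    · constructor
      · rintro ⟨-, -, b⟩
        exact absurd b hp
      · rintro ⟨-, -, b⟩
        exact absurd b hp
  refine Finset.sum_bij' (fun k _ => k + 2) (fun k _ => k - 2) ?_ ?_ ?_ ?_ ?_
  · intro k hk
    obtain ⟨i, rfl, hi⟩ := bS k hk
    have := (key i hi).1 hk
    rwa [show X.length + (3 + i) + 2 = X.length + (5 + i) by omega]
  · intro k hk
    obtain ⟨i, rfl, hi⟩ := bL k hk
    have := (key i hi).2 hk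
    rwa [show X.length + (5 + i) - 2 = X.length + (3 + i) by omega]
  · intro k _
    omega
  · intro k hk
    obtain ⟨i, rfl, hi⟩ := bL k hk
    omega
  · intro k hk
    obtain ⟨i, rfl, hi⟩ := bS k hk
    rw [dS, show X.length + (3 + i) + 2 = X.length + (5 + i) by omega, dL]

/-- **W3t** -/
theorem nwTog : NwTog := by
  classical
  intro r y R0 hr
  have far : ∀ X Y : List Bool, (R0 : ℤ) ^ 2 < nrm (ctr X - en (X ++ (pS ++ Y))) →
      8 * (r : ℤ) + 8 ≤ hn (ctr X - en (X ++ (pS ++ Y))) := by
    intro X Y h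
    have h1 := hn_of_nrm h
    have h2 : 8 * (r : ℤ) + 8 ≤ R0 := by exact_mod_cast hr
    linarith
  refine ⟨fun X Y _ hR _ _ => ?_, fun X Y _ hR _ _ => ?_, fun X Y _ hR _ _ => ?_⟩
  · have h := cu_SL (fun E => if E.length % 2 = y % 2 then chi r E else 0) (far X Y hR)
    unfold Nw
    rw [Finset.sum_filter, Finset.sum_filter]
    exact h
  · have h := cu_SL (fun _ => 1) (far X Y hR)
    unfold NP
    rw [Finset.sum_const, Finset.sum_const, nsmul_eq_mul, nsmul_eq_mul, mul_one, mul_one] at h
    exact h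
  · have h := cu_SL (fun E => if (r : ℤ) ≤ 64 * ip (en E) up ∧ 4 * hn (en E) ≤ 3 * r then (1 : ℝ) else 0) (far X Y hR)
    unfold NM
    rw [Finset.card_filter, Finset.card_filter]
    push_cast
    exact h

end TIW

end HexObs
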