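import Pool.Agent.TIW.InnF

/-!
# TIW: events at the tip that are functions of the end (helper83)

`inside_suf`: the walk ends with a given word; `inside_ah`: the vertex ahead of the tip is free.
-/

set_option autoImplicit false

namespace HexObs

namespace TIW

open Finset TS SDN

lemma cl1_zero' {x : ℝ} (h : x ≤ 0) : cl1 x = 0 := by
  unfold cl1
  rw [min_eq_right (by linarith), max_eq_left h]

/-- if the cutoff is not zero, the tip is high above the cut -/
lemma chi_high {r : ℕ} {E : List Bool} (hr : 1 ≤ r) (h : chi r E ≠ 0) : (r : ℤ) < 32 * ip (en E) up := by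
  by_contra h1
  push Not at h1
  apply h
  have hr0 : (0 : ℝ) < r := by exact_mod_cast hr
  have h2 : cl1 (32 * (ip (en E) up : ℝ) / r - 1) = 0 := by
    apply cl1_zero'
    have h3 : (32 * (ip (en E) up : ℝ)) ≤ r := by exact_mod_cast h1
    rw [sub_nonpos, div_le_one hr0]
    exact h3
  unfold chi
  rw [h2]
  exact min_eq_left (cl1_nonneg _)

lemma ip_dir_le {d : Pt} (hd : d ∈ dirs) : ip d up ≤ 2 ∧ -2 ≤ ip d up := by
  revert d
  decide

lemma hn_dir {d : Pt} (hd : d ∈ dirs) : hn d = 2 := by
  revert d
  decide

lemma ip_vx_le (E : List Bool) (i : ℕ) : ip (vx oo up E i) up ≤ 2 * i := by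
  induction i with
  | zero =>
    have : vx oo up E 0 = oo := rfl
    rw [this]
    decide
  | succ i ih =>
    rw [vx_succ, ip_add_left]
    have := (ip_dir_le (dx_mem upd' E i)).1
    push_cast
    linarith

/-- the part behind the cut is long -/
lemma chi_long {r : ℕ} {E : List Bool} (hr : 1 ≤ r) (h : chi r E ≠ 0) : r < 64 * E.length := by
  have h1 := chi_high hr h
  have h2 : ip (en E) up ≤ 2 * E.length := ip_vx_le E E.length
  have h3 : (r : ℤ) < 64 * E.length := by linarith
  exact_mod_cast h3

/-- the walk ends with the word E0 -/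
theorem inside_suf {E0 : List Bool} {r : ℕ} (hr : 1 ≤ r) (h : 64 * E0.length ≤ r) : Inside r {t | E0 <:+ t} := by
  intro A E _ _ _ h3
  have h4 := chi_long hr h3
  have h5 : E0.length ≤ E.length := by omega
  constructor
  · intro h6
    exact List.suffix_of_suffix_length_le h6 (List.suffix_append A E) h5
  · intro h6
    exact h6.trans (List.suffix_append A E)

/-- the vertex ahead of the tip is free -/
theorem inside_ah {r : ℕ} (hr : 64 ≤ r) : Inside r {t | t ++ [true] ∈ SA} := by
  intro A E hA hE hAE h3
  have h4 := chi_high (by omega) h3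
  have e1 : ∀ t : List Bool, t ++ [true] ∈ SA ↔ Saw Set.univ oo up t ∧ tip oo up t ∈ (Set.univ : Set Pt) ∧
      ∀ i, i ≤ t.length → vx oo up t i ≠ tip oo up t := fun t => saw_append_one
  have e2 : tip oo up (A ++ E) = en A + mulE (rt A) (tip oo up E) := by
    unfold tip
    rw [List.length_append, add_assoc, vxa]
  have hEs : E ∈ SA := ⟨fun _ _ _ => Set.mem_univ _, hE.1.inj⟩
  show A ++ E ++ [true] ∈ SA ↔ E ++ [true] ∈ SA
  rw [e1, e1]
  constructor
  · rintro ⟨-, -, h5⟩
    refine ⟨hEs, Set.mem_univ _, fun i hi h6 => ?_⟩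
    apply h5 (A.length + i) (by rw [List.length_append]; omega)
    rw [vxa, e2, h6]
  · rintro ⟨-, -, h5⟩
    refine ⟨hAE, Set.mem_univ _, fun i hi h6 => ?_⟩
    rw [List.length_append] at hi
    rw [e2] at h6
    rcases le_or_gt i A.length with h7 | h7
    · rw [vx_append (by omega)] at h6
      have h8 : vx oo up A i - en A = mulE (rt A) (tip oo up E) := by
        rw [h6]
        abel
      have h9 : ip (vx oo up A i - en A) (de A) = ip (tip oo up E) up := by
        rw [h8, ← rt_up, ip_mulE, nrm_rt, one_mul]
      have e3 : tip oo up E = en E + dx up E E.length := by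
        unfold tip
        rw [vx_succ]
        rfl
      have h10 : 0 < ip (tip oo up E) up := by
        rw [e3, ip_add_left]
        have h11 := (ip_dir_le (dx_mem upd' E E.length)).2
        have h12 : (64 : ℤ) ≤ r := by exact_mod_cast hr
        omega
      have h13 := hA i h7 (by rw [h9]; exact h10)
      rw [h8, hn_mulE (nrm_rt A), e3] at h13
      have h14 := hn_add (en E) (dx up E E.length)
      rw [hn_dir (dx_mem upd' E E.length)] at h14
      have h15 : hn (en E) < r := hE.2 E.length le_rfl
      have h16 : ((2 * r : ℕ) : ℤ) = 2 * r := by push_cast; ring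
      have h17 : (64 : ℤ) ≤ r := by exact_mod_cast hr
      omega
    · obtain ⟨j, rfl⟩ := Nat.exists_eq_add_of_le h7.le
      rw [vxa] at h6
      have h8 : mulE (rt A) (vx oo up E j) = mulE (rt A) (tip oo up E) := add_left_cancel h6
      have h9 := congrArg (mulE (conjE (rt A))) h8
      rw [mulE_assoc, mulE_assoc, mulE_comm (conjE (rt A)) (rt A), mulE_conjE, nrm_rt, mulE_one, mulE_one] at h9
      exact h5 j (by omega) h9

end TIW

end HexObs
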