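import Pool.Agent.TIW.Lit
import Pool.Agent.TOG.WtE
import Pool.Agent.TOG.Main
import Pool.Agent.NTS.MergeW

/-!
# TIW: the admissible ensembles (helper83)

`ensF`: for a function `F` of the words with values in `[0, 1]` that changes little when a long word is changed in a
bounded part (`OneS.Rob`), the weighted ensemble `F t / c n` satisfies the product formula for the ends (`Ens`);
`ens_one`: the uniform one. No hypothesis.
-/

set_option autoImplicit false

namespace HexObs

namespace TIW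

open Finset TS SDN TOG Filter Topology

namespace EF

lemma sawF_eq (n : ℕ) : sawF n = wdN n := by
  ext t
  rw [mem_sawF, mem_wdN]

lemma cp (n : ℕ) : (0 : ℝ) < cS n := by exact_mod_cast cS_pos n

lemma ratio_two : Tendsto (fun n : ℕ => (cS n : ℝ) / cS (n + 2)) atTop (𝓝 (xc ^ 2)) := by
  have h := ratio2_M.inv₀ (by have := xc_pos; positivity)
  rw [one_div, inv_inv] at h
  exact h.congr fun n => inv_div _ _

/-- the ratio over an even number of letters -/
lemma ratio_even (j : ℕ) : Tendsto (fun n : ℕ => (cS (n - 2 * j) : ℝ) / cS n) atTop (𝓝 (xc ^ (2 * j))) := by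
  induction j with
  | zero =>
    rw [Nat.mul_zero, pow_zero]
    exact tendsto_const_nhds.congr fun n => (div_self (cp n).ne').symm
  | succ j ih =>
    have h1 := (ratio_two.comp (tendsto_sub_atTop_nat (2 * (j + 1)))).mul ih
    have e : xc ^ 2 * xc ^ (2 * j) = xc ^ (2 * (j + 1)) := by
      rw [← pow_add]
      congr 1
      ring
    rw [e] at h1
    refine h1.congr' ?_
    filter_upwards [eventually_ge_atTop (2 * (j + 1))] with n hn
    have e2 : n - 2 * (j + 1) + 2 = n - 2 * j := by omega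
    simp only [Function.comp_apply, e2]
    rw [div_mul_div_comm, mul_comm (cS (n - 2 * j) : ℝ), mul_div_mul_right _ _ (cp _).ne']

lemma cS_succ (n : ℕ) : (cS (n + 1) : ℝ) ≤ 2 * cS n := by
  have h := OneS.ratio_eq cS_pos n
  have h1 := OneS.Ef_le_one cS_pos (F := fun t => TIP.ind (t ∈ OneS.Ah) * 1)
    (fun t => by rw [mul_one]; exact ⟨TIP.ind_nonneg _, TIP.ind_le_one _⟩) n
  rw [div_eq_iff (cp n).ne'] at h
  rw [h]
  exact mul_le_mul_of_nonneg_right (by linarith) (cp n).le

/-- one letter less -/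
lemma ratio_pred : ∃ n0 : ℕ, ∀ n, n0 ≤ n → (cS (n - 1) : ℝ) / cS n ≤ 4 := by
  have h := ratio_two
  have hx : xc ^ 2 ≤ 1 := pow_le_one₀ xc_pos.le B2b_xc_le_one
  obtain ⟨n0, h0⟩ := eventually_atTop.1 (h.eventually (gt_mem_nhds (show xc ^ 2 < 2 by linarith)))
  refine ⟨n0 + 1, fun n hn => ?_⟩
  obtain ⟨m, rfl⟩ : ∃ m, n = m + 1 := ⟨n - 1, by omega⟩
  have h1 := h0 m (by omega)
  have h2 := cS_succ (m + 1)
  have e : m + 1 - 1 = m := by omega
  rw [e, div_le_iff₀ (cp _)]
  rw [div_lt_iff₀ (cp _)] at h1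
  have e2 : m + 1 + 1 = m + 2 := by omega
  rw [e2] at h2
  linarith

/-- any number of letters less -/
lemma ratio_bd (L : ℕ) : ∃ n0 : ℕ, ∀ n, n0 ≤ n → (cS (n - L) : ℝ) / cS n ≤ 8 := by
  obtain ⟨n1, h1⟩ := ratio_pred
  have hx : xc ^ (2 * (L / 2)) < 2 := lt_of_le_of_lt (pow_le_one₀ xc_pos.le B2b_xc_le_one) (by norm_num)
  obtain ⟨n2, h2⟩ := eventually_atTop.1 ((ratio_even (L / 2)).eventually (gt_mem_nhds hx))
  refine ⟨max (n1 + 1) (n2 + 1), fun n hn => ?_⟩
  have hn1 := le_of_max_le_left hn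
  have hn2 := le_of_max_le_right hn
  rcases Nat.mod_two_eq_zero_or_one L with hL | hL
  · have e : n - 2 * (L / 2) = n - L := by omega
    have h3 := h2 n (by omega)
    rw [e] at h3
    linarith
  · have e : n - 1 - 2 * (L / 2) = n - L := by omega
    have h3 := h2 (n - 1) (by omega)
    have h4 := h1 n (by omega)
    rw [e] at h3
    have e2 : (cS (n - L) : ℝ) / cS n = (cS (n - L) : ℝ) / cS (n - 1) * (cS (n - 1) / cS n) := by
      have := (cp (n - 1)).ne'
      have := (cp n).ne'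
      field_simp
    rw [e2]
    calc (cS (n - L) : ℝ) / cS (n - 1) * (cS (n - 1) / cS n) ≤ 2 * 4 :=
          mul_le_mul h3.le h4 (div_nonneg (cp _).le (cp _).le) (by norm_num)
      _ = 8 := by norm_num

lemma tgF_FE {R0 : ℕ} {g : List Bool → ℝ} (hg : TgF R0 g) {X Y : List Bool}
    (h : Gen.FE R0 (fv oo up (X ++ (pS ++ Y))) (ctr X)) (h1 : X ++ (pS ++ Y) ∈ SA) (h2 : X ++ (pL ++ Y) ∈ SA) :
    g (X ++ (pS ++ Y)) = g (X ++ (pL ++ Y)) := by
  refine hg X Y h.1 ?_ h1 h2
  have h3 := h.2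
  rw [fv_eq] at h3
  exact h3

lemma fg_le {F g : List Bool → ℝ} (hF : OneS.Rob F) (hg : ∀ t, |g t| ≤ 1) (t : List Bool) : |F t * g t| ≤ 1 := by
  rw [abs_mul, abs_of_nonneg (hF.nn t).1]
  calc F t * |g t| ≤ 1 * 1 := mul_le_mul (hF.nn t).2 (hg t) (abs_nonneg _) zero_le_one
    _ = 1 := mul_one 1

/-- the weighted means over an even number of letters -/
lemma shift_even (R0 j : ℕ) {F : List Bool → ℝ} (hF : OneS.Rob F) : ∀ e : ℝ, 0 < e → ∃ n0 : ℕ, ∀ n, n0 ≤ n →
    ∀ g : List Bool → ℝ, (∀ t, |g t| ≤ 1) → TgF R0 g →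
    |Ef (n - 2 * j) (fun t => F t * g t) - Ef n (fun t => F t * g t)| ≤ e := by
  induction j with
  | zero =>
    intro e he
    refine ⟨0, fun n _ g _ _ => ?_⟩
    rw [Nat.mul_zero, Nat.sub_zero, sub_self, abs_zero]
    exact he.le
  | succ j ih =>
    intro e he
    obtain ⟨n1, h1⟩ := ih (e / 2) (by positivity)
    obtain ⟨n2, h2⟩ := Gen.togE_of R0 (e := e / 2) (by positivity)
    obtain ⟨n3, h3⟩ := hF.tog (e / 2 / 3) (by positivity)
    refine ⟨n1 + n2 + n3 + 3 + 2 * (j + 1), fun n hn g hg hT => ?_⟩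
    have h4 := h1 n (by omega) g hg hT
    have h5 := h2 (n - 2 * (j + 1)) (by omega) (fun t => F t * g t) (fg_le hF hg) (fun X Y hl a b c => by
      rw [← tgF_FE hT a b c, ← sub_mul, abs_mul]
      have h6 := h3 X Y (by omega)
      calc |F (X ++ (pS ++ Y)) - F (X ++ (pL ++ Y))| * |g (X ++ (pS ++ Y))| ≤ e / 2 / 3 * 1 :=
            mul_le_mul h6 (hg _) (abs_nonneg _) (by positivity)
        _ = e / 2 / 3 := mul_one _)
    have e2 : n - 2 * (j + 1) + 2 = n - 2 * j := by omega
    rw [e2] at h5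
    rw [abs_le] at h4 h5 ⊢
    constructor <;> linarith

/-- **the product formula without the end** -/
lemma core {F : List Bool → ℝ} (hF : OneS.Rob F) (R0 L : ℕ) {e : ℝ} (he : 0 < e) : ∃ n0 : ℕ, ∀ n, n0 ≤ n →
    ∀ g : List Bool → ℝ, (∀ t, |g t| ≤ 1) → TgF R0 g →
    |(∑ A ∈ sawF (n - L), F A * g A) / cS n - xc ^ L * (if L % 2 = 0 then ∑ t ∈ sawF n, F t / cS n * g t
      else ∑ t ∈ sawF (n - 1), F t / (cS n * xc) * g t)| ≤ e := by
  obtain ⟨n1, h1⟩ := ratio_pred
  obtain ⟨n2, h2⟩ := Metric.tendsto_atTop.1 (ratio_even (L / 2)) (e / 8) (by positivity)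
  obtain ⟨n3, h3⟩ := shift_even R0 (L / 2) hF (e / 8) (by positivity)
  refine ⟨n1 + n2 + n3 + L + 1, fun n hn g hg hT => ?_⟩
  have hxc := xc_pos
  obtain ⟨m, hm⟩ : ∃ m, m = n - L % 2 := ⟨_, rfl⟩
  have hmod : L % 2 < 2 := Nat.mod_lt _ (by norm_num)
  have e1 : m - 2 * (L / 2) = n - L := by omega
  have h4 := h2 m (by omega)
  have h5 := h3 m (by omega) g hg hT
  rw [Real.dist_eq, e1] at h4
  rw [e1] at h5
  -- the two sides
  obtain ⟨K, hK⟩ : ∃ K : ℝ, K = (cS m : ℝ) / cS n := ⟨_, rfl⟩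
  have hK0 : 0 ≤ K := by
    rw [hK]
    exact div_nonneg (cp _).le (cp _).le
  have hK4 : K ≤ 4 := by
    rw [hK]
    rcases Nat.mod_two_eq_zero_or_one L with hL | hL
    · have : m = n := by omega
      rw [this, div_self (cp n).ne']
      norm_num
    · have : m = n - 1 := by omega
      rw [this]
      exact h1 n (by omega)
  have a1 : (∑ A ∈ sawF (n - L), F A * g A) / cS n =
      K * ((cS (n - L) : ℝ) / cS m * Ef (n - L) (fun t => F t * g t)) := by
    rw [hK]
    unfold Ef
    rw [sawF_eq]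
    have := (cp (n - L)).ne'
    have := (cp m).ne'
    have := (cp n).ne'
    field_simp
  have a2 : xc ^ L * (if L % 2 = 0 then ∑ t ∈ sawF n, F t / cS n * g t
      else ∑ t ∈ sawF (n - 1), F t / (cS n * xc) * g t) = K * (xc ^ (2 * (L / 2)) * Ef m (fun t => F t * g t)) := by
    rw [hK]
    unfold Ef
    have hcm := (cp m).ne'
    have hcn := (cp n).ne'
    rcases Nat.mod_two_eq_zero_or_one L with hL | hL
    · have hmn : m = n := by omega
      have hLL : 2 * (L / 2) = L := by omega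
      rw [if_pos hL, hLL, hmn, sawF_eq]
      have e2 : ∑ t ∈ wdN n, F t / cS n * g t = (∑ t ∈ wdN n, F t * g t) / cS n := by
        rw [sum_div]
        exact sum_congr rfl fun t _ => by ring
      rw [e2]
      field_simp
    · have hmn : m = n - 1 := by omega
      have hLL : L = 2 * (L / 2) + 1 := by omega
      rw [if_neg (by omega), hmn, sawF_eq]
      rw [hmn] at hcm
      have e2 : ∑ t ∈ wdN (n - 1), F t / (cS n * xc) * g t = (∑ t ∈ wdN (n - 1), F t * g t) / (cS n * xc) := by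
        rw [sum_div]
        exact sum_congr rfl fun t _ => by ring
      have e3 : xc ^ L = xc ^ (2 * (L / 2)) * xc := by
        rw [← pow_succ, ← hLL]
      rw [e2, e3]
      field_simp
  rw [a1, a2, ← mul_sub, abs_mul, abs_of_nonneg hK0]
  have b1 : |Ef (n - L) (fun t => F t * g t)| ≤ 1 := by
    unfold Ef
    rw [abs_div, abs_of_pos (cp _), div_le_one (cp _)]
    refine (abs_sum_le_sum_abs _ _).trans ((sum_le_sum fun t _ => fg_le hF hg t).trans (le_of_eq ?_))
    rw [sum_const, card_wdN, nsmul_eq_mul, mul_one]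
  have b2 : (cS (n - L) : ℝ) / cS m * Ef (n - L) (fun t => F t * g t) - xc ^ (2 * (L / 2)) * Ef m (fun t => F t * g t) =
      ((cS (n - L) : ℝ) / cS m - xc ^ (2 * (L / 2))) * Ef (n - L) (fun t => F t * g t) +
      xc ^ (2 * (L / 2)) * (Ef (n - L) (fun t => F t * g t) - Ef m (fun t => F t * g t)) := by ring
  have b3 : |(cS (n - L) : ℝ) / cS m * Ef (n - L) (fun t => F t * g t) - xc ^ (2 * (L / 2)) * Ef m (fun t => F t * g t)| ≤
      e / 8 + e / 8 := by
    rw [b2]
    refine (abs_add_le _ _).trans (add_le_add ?_ ?_)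
    · rw [abs_mul]
      calc |(cS (n - L) : ℝ) / cS m - xc ^ (2 * (L / 2))| * |Ef (n - L) (fun t => F t * g t)| ≤ e / 8 * 1 :=
            mul_le_mul h4.le b1 (abs_nonneg _) (by positivity)
        _ = e / 8 := mul_one _
    · rw [abs_mul, abs_of_nonneg (pow_nonneg hxc.le _)]
      calc xc ^ (2 * (L / 2)) * |Ef (n - L) (fun t => F t * g t) - Ef m (fun t => F t * g t)| ≤ 1 * (e / 8) :=
            mul_le_mul (pow_le_one₀ hxc.le B2b_xc_le_one) h5 (abs_nonneg _) zero_le_one
        _ = e / 8 := one_mul _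
  calc K * _ ≤ 4 * (e / 8 + e / 8) := mul_le_mul hK4 b3 (abs_nonneg _) (by norm_num)
    _ = e := by ring

/-- the words that end with E -/
lemma sum_suf (E : List Bool) {n : ℕ} (hn : E.length ≤ n) (G : List Bool → ℝ) :
    ∑ t ∈ sawF n, TIP.ind (E <:+ t) * G t = ∑ A ∈ sawF (n - E.length), TIP.ind (A ++ E ∈ SA) * G (A ++ E) := by
  classical
  have h1 : ∀ (S : Finset (List Bool)) (P : List Bool → Prop) [DecidablePred P] (H : List Bool → ℝ),
      ∑ t ∈ S, TIP.ind (P t) * H t = ∑ t ∈ S.filter P, H t := by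
    intro S P _ H
    rw [sum_filter]
    refine sum_congr rfl fun t _ => ?_
    by_cases h : P t
    · rw [TIP.ind_pos h, if_pos h, one_mul]
    · rw [TIP.ind_neg h, if_neg h, zero_mul]
  rw [h1, h1 (sawF (n - E.length)) (fun A => A ++ E ∈ SA) (fun A => G (A ++ E))]
  symm
  refine sum_bij (fun A _ => A ++ E) ?_ ?_ ?_ ?_
  · intro A hA
    rw [mem_filter, mem_sawF] at hA
    rw [mem_filter, mem_sawF]
    refine ⟨⟨?_, hA.2⟩, List.suffix_append A E⟩
    rw [List.length_append, hA.1.1]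
    omega
  · intro A _ B _ h
    exact List.append_cancel_right h
  · intro t ht
    rw [mem_filter, mem_sawF] at ht
    obtain ⟨⟨hl, hs⟩, A, rfl⟩ := ht
    refine ⟨A, ?_, rfl⟩
    rw [mem_filter, mem_sawF]
    rw [List.length_append] at hl
    refine ⟨⟨by omega, ?_⟩, hs⟩
    have h2 := SA_take hs A.length
    rwa [List.take_left] at h2
  · intro A _
    rfl

end EF

open EF

/-- **the weighted ensembles are admissible** -/
theorem ensF {F : List Bool → ℝ} (hF : OneS.Rob F) :
    Ens (fun n t => F t / cS n) (fun n t => F t / (cS n * xc)) := by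
  have hxc := xc_pos
  -- the sums over the words that end with E
  have key : ∀ (E : List Bool) (n : ℕ), E.length ≤ n → ∀ g : List Bool → ℝ,
      ∑ t ∈ sawF n, F t / cS n * (TIP.ind (E <:+ t) * g (t.take (t.length - E.length))) =
      ∑ A ∈ sawF (n - E.length), TIP.ind (A ++ E ∈ SA) * (F (A ++ E) / cS n * g A) := by
    intro E n hn g
    have h1 := sum_suf E hn fun t => F t / cS n * g (t.take (t.length - E.length))
    have e1 : ∀ t ∈ sawF n, F t / cS n * (TIP.ind (E <:+ t) * g (t.take (t.length - E.length))) =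
        TIP.ind (E <:+ t) * (F t / cS n * g (t.take (t.length - E.length))) := fun t _ => by ring
    rw [sum_congr rfl e1, h1]
    refine sum_congr rfl fun A _ => ?_
    have e2 : (A ++ E).length - E.length = A.length := by
      rw [List.length_append]
      omega
    rw [e2, List.take_left]
  -- without the end
  have app : ∀ (R0 : ℕ) (E : List Bool) (e : ℝ), 0 < e → ∃ n0 : ℕ, ∀ n, n0 ≤ n → E.length ≤ n ∧
      ∀ g : List Bool → ℝ, (∀ t, |g t| ≤ 1) → TgF R0 g →
      |∑ A ∈ sawF (n - E.length), F (A ++ E) / cS n * g A - xc ^ E.length * (if E.length % 2 = 0 then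
        ∑ t ∈ sawF n, F t / cS n * g t else ∑ t ∈ sawF (n - 1), F t / (cS n * xc) * g t)| ≤ e := by
    intro R0 E e he
    obtain ⟨n1, h1⟩ := core hF R0 E.length (e := e / 2) (by positivity)
    obtain ⟨n2, h2⟩ := hF.fin E.length (e / 16) (by positivity)
    obtain ⟨n3, h3⟩ := ratio_bd E.length
    refine ⟨n1 + n2 + n3 + E.length, fun n hn => ⟨by omega, fun g hg hT => ?_⟩⟩
    have h4 := h1 n (by omega) g hg hT
    have h5 : |∑ A ∈ sawF (n - E.length), F (A ++ E) / cS n * g A -
        (∑ A ∈ sawF (n - E.length), F A * g A) / cS n| ≤ e / 2 := by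
      rw [sum_div, ← sum_sub_distrib]
      refine (abs_sum_le_sum_abs _ _).trans (le_trans (sum_le_sum fun A hA => ?_)
        (b := ∑ _A ∈ sawF (n - E.length), e / 16 / cS n) ?_)
      · rw [mem_sawF] at hA
        have h6 := h2 A E (by rw [hA.1]; omega) le_rfl
        have e1 : F (A ++ E) / cS n * g A - F A * g A / cS n = (F (A ++ E) - F A) * g A / cS n := by ring
        rw [e1, abs_div, abs_of_pos (cp n), abs_mul]
        refine div_le_div_of_nonneg_right ?_ (cp n).le
        calc |F (A ++ E) - F A| * |g A| ≤ e / 16 * 1 := mul_le_mul h6 (hg A) (abs_nonneg _) (by positivity)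
          _ = e / 16 := mul_one _
      · have h7 := h3 n (by omega)
        rw [sum_const, sawF_eq, card_wdN, nsmul_eq_mul]
        have e2 : (cS (n - E.length) : ℝ) * (e / 16 / cS n) = e / 16 * (cS (n - E.length) / cS n) := by ring
        rw [e2]
        calc e / 16 * ((cS (n - E.length) : ℝ) / cS n) ≤ e / 16 * 8 := mul_le_mul_of_nonneg_left h7 (by positivity)
          _ = e / 2 := by ring
    rw [abs_le] at h4 h5 ⊢
    constructor <;> linarith
  refine ⟨fun n t => div_nonneg (hF.nn t).1 (cp n).le, fun n => ?_, fun n t =>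
    div_nonneg (hF.nn t).1 (mul_nonneg (cp n).le hxc.le), fun R0 E e he => ?_, fun R0 E e he => ?_⟩
  · rw [← sum_div, div_le_one (cp n), sawF_eq, ← card_wdN n]
    calc ∑ t ∈ wdN n, F t ≤ ∑ _t ∈ wdN n, (1 : ℝ) := sum_le_sum fun t _ => (hF.nn t).2
      _ = _ := by rw [sum_const, nsmul_eq_mul, mul_one]
  · obtain ⟨n0, h0⟩ := app R0 E e he
    refine ⟨n0, fun n hn g hg hT hfit => ?_⟩
    obtain ⟨hl, h1⟩ := h0 n hn
    rw [key E n hl g]
    have e1 : ∑ A ∈ sawF (n - E.length), TIP.ind (A ++ E ∈ SA) * (F (A ++ E) / cS n * g A) =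
        ∑ A ∈ sawF (n - E.length), F (A ++ E) / cS n * g A := by
      refine sum_congr rfl fun A hA => ?_
      rw [mem_sawF] at hA
      by_cases h2 : g A = 0
      · rw [h2]
        ring
      · rw [TIP.ind_pos (hfit A h2 hA.2), one_mul]
    rw [e1]
    exact h1 g hg hT
  · obtain ⟨n0, h0⟩ := app R0 E e he
    refine ⟨n0, fun n hn g hg hT => ?_⟩
    obtain ⟨hl, h1⟩ := h0 n hn
    rw [key E n hl g]
    have h2 := h1 g (fun t => by rw [abs_of_nonneg (hg t).1]; exact (hg t).2) hT
    have h3 : ∑ A ∈ sawF (n - E.length), TIP.ind (A ++ E ∈ SA) * (F (A ++ E) / cS n * g A) ≤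
        ∑ A ∈ sawF (n - E.length), F (A ++ E) / cS n * g A := by
      refine sum_le_sum fun A _ => ?_
      have h4 : 0 ≤ F (A ++ E) / cS n * g A := mul_nonneg (div_nonneg (hF.nn _).1 (cp n).le) (hg A).1
      calc TIP.ind (A ++ E ∈ SA) * (F (A ++ E) / cS n * g A) ≤ 1 * (F (A ++ E) / cS n * g A) :=
            mul_le_mul_of_nonneg_right (TIP.ind_le_one _) h4
        _ = _ := one_mul _
    rw [abs_le] at h2
    linarith [h2.2]

/-- **the uniform ensemble is admissible** -/
theorem ens_one : Ens (fun n _ => 1 / cS n) (fun n _ => 1 / (cS n * xc)) := ensF OneS.rob_one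

end TIW

end HexObs
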