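import Pool.Agent.TIW.Lim
import Pool.Agent.IW.Final
import Pool.Agent.TOG.Main

/-!
# TIW: the infinite self-avoiding walk from the rows (helper10)

`iw_of`: the conclusions of `IW.final` from `FeTog`, `NwTog`, `NiceSt` and the product formula of the uniform ensemble.
-/

set_option autoImplicit false

namespace HexObs

namespace TIW

open Finset TS SDN Filter MeasureTheory Topology

open scoped Classical

/-- the laws of the end converge -/
theorem tipEnd_of (hFe : FeTog) (hNw : NwTog) (hNi : NiceSt) {q0 : ℕ → List Bool → ℝ}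
    (hE0 : Ens (fun n _ => 1 / cS n) q0) : Pool.Agent.IW.TipEnd := fun η =>
  pn_lim hFe hNw hNi TOG.cS_pos hE0 ⟨64 * η.length + 1, fun r hr => inside_suf (by omega) (by omega)⟩

/-- the probability of a free vertex ahead converges -/
theorem tipFree_of (hFe : FeTog) (hNw : NwTog) (hNi : NiceSt) {q0 : ℕ → List Bool → ℝ}
    (hE0 : Ens (fun n _ => 1 / cS n) q0) : Pool.Agent.IW.TipFree := by
  obtain ⟨L, hL⟩ := pn_lim hFe hNw hNi TOG.cS_pos hE0 ⟨64, fun r hr => inside_ah hr⟩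
  refine ⟨L, hL.congr fun n => ?_⟩
  have e : {t | t ∈ SawN n ∧ t ∈ {t | t ++ [true] ∈ SA}} =
      {t | t ∈ SawN n ∧ t ∈ {t | Pool.Agent.IW.FrontFree t}} := by
    ext t
    constructor
    · rintro ⟨h1, h2⟩
      exact ⟨h1, (HexObs.saw_append_one.1 h2).2.2⟩
    · rintro ⟨h1, h2⟩
      exact ⟨h1, HexObs.saw_append_one.2 ⟨h1.2, Set.mem_univ _, h2⟩⟩
  unfold TOG.Pn
  rw [e]

/-- **the infinite self-avoiding walk** -/
theorem iw_of (hFe : FeTog) (hNw : NwTog) (hNi : NiceSt) {q0 : ℕ → List Bool → ℝ}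
    (hE0 : Ens (fun n _ => 1 / cS n) q0) :
    (∃ P : Measure (ℕ → Fin 3), IsProbabilityMeasure P ∧ (∀ᵐ w ∂P, Function.Injective (Pool.Agent.IW.Res.ipos w)) ∧
      ∀ (η : ℕ → Fin 3) (m : ℕ), Tendsto (fun n => Pool.Agent.IW.Res.begins n m η) atTop (𝓝 (P.real {w | ∀ i, i < m → w i = η i}))) ∧
    Tendsto (fun n => ((Pool.Agent.IW.Res.saw (n + 1)).card : ℝ) / ((Pool.Agent.IW.Res.saw n).card : ℝ)) atTop
      (𝓝 (Real.sqrt (2 + Real.sqrt 2))) :=
  Pool.Agent.IW.final_end (tipEnd_of hFe hNw hNi hE0) (tipFree_of hFe hNw hNi hE0) TOG.ratio2_M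

end TIW

end HexObs
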