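import Pool.Agent.TIW.Nice
import Pool.Agent.TIW.LimIW
import Pool.Agent.TIW.Tog
import Pool.Agent.TIW.EnsF
import Pool.Agent.TIP.NEnd

/-!
TIW: the infinite self-avoiding walk, no hypothesis.
-/

set_option autoImplicit false

namespace HexObs

namespace TIW

open Filter Topology MeasureTheory

/-- niceness of the ends at every fixed scale -/
theorem niceSt : NiceSt := niceSt_of TIP.nEndA

/-- **the infinite self-avoiding walk and the ratio of the numbers of walks** -/
theorem iw :
    (∃ P : Measure (ℕ → Fin 3), IsProbabilityMeasure P ∧ (∀ᵐ w ∂P, Function.Injective (Pool.Agent.IW.Res.ipos w)) ∧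
      ∀ (η : ℕ → Fin 3) (m : ℕ), Tendsto (fun n => Pool.Agent.IW.Res.begins n m η) atTop (𝓝 (P.real {w | ∀ i, i < m → w i = η i}))) ∧
    Tendsto (fun n => ((Pool.Agent.IW.Res.saw (n + 1)).card : ℝ) / ((Pool.Agent.IW.Res.saw n).card : ℝ)) atTop
      (𝓝 (Real.sqrt (2 + Real.sqrt 2))) :=
  iw_of feTog nwTog niceSt ens_one

end TIW

end HexObs
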