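import Pool.Agent.TIW.Lit

/-!
# TIW: two cuts with the same direction differ by a bridge; gluing behind a free half ball (helper15)

* `zbu : ZBu`;
* `fe_app`: a word with a free half ball of radius `2 r` followed by a half plane word of size less than `r` is self-avoiding.
-/

set_option autoImplicit false

namespace HexObs

namespace TIW

open Finset TS SDN

lemma en_app (A Z : List Bool) : en (A ++ Z) = en A + mulE (rt A) (en Z) := by
  have h := vx_app A Z Z.length
  unfold en at h ⊢
  rw [List.length_append]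
  exact h

lemma de_app (A Z : List Bool) : de (A ++ Z) = mulE (rt A) (de Z) := by
  have h := dx_app A Z Z.length
  unfold de at h ⊢
  rw [List.length_append]
  exact h

lemma hn_lt_two {r : ℕ} {E : List Bool} (h : ∀ i, i ≤ E.length → hn (vx oo up E i) < r) {i j : ℕ} (hi : i ≤ E.length)
    (hj : j ≤ E.length) : hn (vx oo up E i - vx oo up E j) < 2 * r := by
  have h1 := hn_sub (vx oo up E i) (vx oo up E j)
  have h2 := h i hi
  have h3 := h j hj
  linarith

/-- the prefixes of a half plane word -/
lemma Hp_pre {r : ℕ} {Z E : List Bool} (h : Z ++ E ∈ Hp r) : Z ∈ Hp r := by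
  obtain ⟨h1, h2⟩ := h
  have e : ∀ i, i ≤ Z.length → vx oo up (Z ++ E) i = vx oo up Z i := fun i hi => vx_append (by omega)
  refine ⟨⟨fun i h3 h4 => ?_, fun i k h3 h4 => ?_⟩, fun i hi => ?_⟩
  · rw [← e i h4]
    exact h1.mem i h3 (by rw [List.length_append]; omega)
  · rw [← e i (by omega), ← e k h4]
    exact h1.inj i k h3 (by rw [List.length_append]; omega)
  · rw [← e i hi]
    exact h2 i (by rw [List.length_append]; omega)

/-- **W2a**: two cuts with the same direction differ by a bridge -/
theorem zbu : ZBu := by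
  intro r A Z E hF hE hd
  have hZ := Hp_pre hE
  obtain ⟨hS, hn1⟩ := hZ
  have hdir : dx up Z Z.length = up := by
    rw [de_app, ← rt_up A] at hd
    exact mulE_inj (nrm_rt A) hd
  have hup : ∀ i, i ≤ Z.length → lev Z i ≤ lev Z Z.length := by
    intro i hi
    by_contra hc
    have h1 := hF (A.length + i) (by rw [List.length_append]; omega)
    have e1 : vx oo up (A ++ Z) (A.length + i) - en (A ++ Z) = mulE (rt A) (vx oo up Z i - en Z) := by
      rw [vx_app, en_app, mulE_sub]
      abel
    have e2 : de (A ++ Z) = mulE (rt A) up := by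
      rw [hd, rt_up]
    rw [e1, e2, ip_mulE, nrm_rt, one_mul, hn_mulE (nrm_rt A)] at h1
    have h2 : 0 < ip (vx oo up Z i - en Z) up := by
      rw [ip_sub_left]
      unfold lev at hc
      unfold en
      linarith
    have h3 := h1 h2
    have h4 := hn_lt_two hn1 hi (le_refl Z.length)
    push_cast at h3
    unfold en at h3
    linarith
  have hpos : ∀ i, 1 ≤ i → i ≤ Z.length → 0 < lev Z i := fun i h1 h2 => hS.mem i h1 h2
  have h0 : 0 ≤ lev Z Z.length := by
    have := hup 0 (Nat.zero_le _)
    rw [lev_zero] at this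
    exact this
  have hev : Even Z.length := by
    by_contra hodd
    have h1 := cl_dx up Z Z.length
    rw [if_neg hodd, hdir] at h1
    have : cl up = 2 ∨ cl up = -1 := by decide
    revert h1
    decide
  have hmod := lev_mod Z Z.length
  rw [if_pos hev, sub_zero] at hmod
  obtain ⟨k, hk⟩ := hmod
  obtain ⟨T, rfl⟩ := Int.eq_ofNat_of_zero_le (show 0 ≤ k by omega)
  have hB : Z ∈ Brd T := mem_Brd.2 ⟨fun i h1 h2 => ⟨hpos i h1 h2, by rw [← hk]; exact hup i h2⟩, hS.inj, hdir, hk⟩
  refine ⟨⟨T, hB⟩, ?_⟩
  rw [hgt_eq hB]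
  have h5 := ip_le_hn (en Z) upd'
  have h6 := hn1 Z.length le_rfl
  have h7 : ip (en Z) up = 3 * (T : ℤ) := hk
  unfold en at h5 h7
  linarith

/-- **gluing behind a free half ball** -/
theorem fe_app {r : ℕ} {A E : List Bool} (hA : A ∈ SA) (hF : A ∈ Fe (2 * r)) (hE : E ∈ Hp r) : A ++ E ∈ SA := by
  obtain ⟨hS, hn1⟩ := hE
  have e : ∀ i, i ≤ A.length → vx oo up (A ++ E) i = vx oo up A i := fun i hi => vx_append (by omega)
  refine ⟨fun _ _ _ => Set.mem_univ _, fun i k hik hk he => ?_⟩
  rw [List.length_append] at hk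
  rcases Nat.lt_or_ge A.length k with h1 | h1
  · obtain ⟨k', rfl⟩ : ∃ k', k = A.length + k' := ⟨k - A.length, by omega⟩
    rcases Nat.lt_or_ge A.length i with h2 | h2
    · obtain ⟨i', rfl⟩ : ∃ i', i = A.length + i' := ⟨i - A.length, by omega⟩
      rw [vx_app, vx_app] at he
      exact hS.inj i' k' (by omega) (by omega) (mulE_inj (nrm_rt A) (add_left_cancel he))
    · rw [e i h2, vx_app] at he
      have h3 := hF i h2
      have e1 : vx oo up A i - en A = mulE (rt A) (vx oo up E k') := by
        rw [he]
        abel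
      rw [e1, ← rt_up, ip_mulE, nrm_rt, one_mul, hn_mulE (nrm_rt A)] at h3
      have h4 := h3 (hS.mem k' (by omega) (by omega))
      have h5 := hn1 k' (by omega)
      push_cast at h4
      have h6 := hn_nonneg (vx oo up E k')
      linarith
  · rw [e i (by omega), e k h1] at he
    exact hA.inj i k hik h1 he

end TIW

end HexObs
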