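import Pool.Agent.TIW.Base
import Pool.Agent.TIP.SoftW
import Pool.Agent.NTA.TailDefs

/-!
# TIW: the literals of the rows (doc nu34/SOFT_34L)
-/

set_option autoImplicit false

namespace HexObs

namespace TIW

open Finset TS SDN

lemma sawN_fin (n : ℕ) : (SawN n).Finite := (List.finite_length_eq Bool n).subset fun _ h => h.1

/-- the words with n letters, finite set -/
noncomputable def sawF (n : ℕ) : Finset (List Bool) := (sawN_fin n).toFinset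

lemma mem_sawF {n : ℕ} {t : List Bool} : t ∈ sawF n ↔ t ∈ SawN n := by
  unfold sawF
  rw [Set.Finite.mem_toFinset]

/-- functions that do not change under a toggle at a face of the colour class at distance more than R0 from the tip -/
def TgF (R0 : ℕ) (g : List Bool → ℝ) : Prop := ∀ X Y, (3 : ℤ) ∣ (TOG.ctr X).1 →
  (R0 : ℤ) ^ 2 < nrm (TOG.ctr X - en (X ++ (TOG.pS ++ Y))) → X ++ (TOG.pS ++ Y) ∈ SA → X ++ (TOG.pL ++ Y) ∈ SA →
  g (X ++ (TOG.pS ++ Y)) = g (X ++ (TOG.pL ++ Y))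

/-- admissible sequences of weighted ensembles: `p n` on the words with `n` letters, `q n` on the words with `n - 1` letters
(far parts in front of an odd end); `pf` = the product formula for one end `E`, uniform in the function of the far part;
`pu` = its upper half, for ends that need not fit -/
structure Ens (p q : ℕ → List Bool → ℝ) : Prop where
  p0 : ∀ n t, 0 ≤ p n t
  p1 : ∀ n, ∑ t ∈ sawF n, p n t ≤ 1
  q0 : ∀ n t, 0 ≤ q n t
  pf : ∀ (R0 : ℕ) (E : List Bool) (e : ℝ), 0 < e → ∃ n0 : ℕ, ∀ n, n0 ≤ n → ∀ g : List Bool → ℝ, (∀ t, |g t| ≤ 1) →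
    TgF R0 g → (∀ A, g A ≠ 0 → A ∈ SA → A ++ E ∈ SA) →
    |(∑ t ∈ sawF n, p n t * (TIP.ind (E <:+ t) * g (t.take (t.length - E.length)))) -
      xc ^ E.length * (if E.length % 2 = 0 then ∑ t ∈ sawF n, p n t * g t else ∑ t ∈ sawF (n - 1), q n t * g t)| ≤ e
  pu : ∀ (R0 : ℕ) (E : List Bool) (e : ℝ), 0 < e → ∃ n0 : ℕ, ∀ n, n0 ≤ n → ∀ g : List Bool → ℝ,
    (∀ t, 0 ≤ g t ∧ g t ≤ 1) → TgF R0 g →
    ∑ t ∈ sawF n, p n t * (TIP.ind (E <:+ t) * g (t.take (t.length - E.length))) ≤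
      xc ^ E.length * (if E.length % 2 = 0 then ∑ t ∈ sawF n, p n t * g t else ∑ t ∈ sawF (n - 1), q n t * g t) + e

/-! ### rows without ensembles -/

/-- W3t: the free half balls are events near the tip -/
def FeTog : Prop := ∀ r R0 : ℕ, r + 2 ≤ R0 → TgF R0 (fun t => TIP.ind (t ∈ Fe r))

/-- the number of the cuts of the scale R with the tip well inside the half ball -/
noncomputable def NM (R : ℕ) (A : List Bool) : ℝ := by
  classical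
  exact (((cu R A).filter fun k => (R : ℤ) ≤ 64 * ip (en (A.drop k)) up ∧ 4 * hn (en (A.drop k)) ≤ 3 * R).card : ℝ)

/-- W3t: the weights do not change under a far toggle -/
def NwTog : Prop := ∀ r y R0 : ℕ, 8 * r + 8 ≤ R0 → TgF R0 (Nw r y) ∧ TgF R0 (NP r) ∧ TgF R0 (NM r)

/-- W1: an end of size less than rho changes the weight little -/
def Osc : Prop := ∀ (R rho y : ℕ) (A Y : List Bool), 128 * rho ≤ R → 1 ≤ rho → A ++ Y ∈ SA →
  (∀ i, i ≤ Y.length → hn (vx oo up Y i) < rho) →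
  |Nw R y (A ++ Y) - Nw R (y + Y.length) A| ≤ 32 * rho / R * NM R A ∧ NM R A ≤ NP R (A ++ Y)

/-- W2a: two cuts with the same direction differ by a bridge -/
def ZBu : Prop := ∀ (r : ℕ) (A Z E : List Bool), A ++ Z ∈ Fe (2 * r) → Z ++ E ∈ Hp r → de (A ++ Z) = de A →
  Z ∈ BU ∧ 3 * (hgt Z : ℤ) < r

/-- W3m: upper bound of the half plane words -/
def HpUp : Prop := ∃ C : ℝ, 0 < C ∧ ∀ l : ℕ, gf (Hp (2 ^ l)) ≤ ENNReal.ofReal (C * Ub l) * NTA.Xb l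

/-- W3m: lower bound of the even half plane words with cutoff one -/
def HpLow : Prop := ∃ (c : ℝ) (l0 : ℕ), 0 < c ∧ ∀ l : ℕ, l0 ≤ l → ENNReal.ofReal (c * Ub l) * NTA.Xb l ≤
  gf {E | E ∈ Hp (2 ^ l) ∧ E.length % 2 = 0 ∧ (2 : ℤ) ^ l ≤ 16 * ip (en E) up ∧ 32 * hn (en E) ≤ 15 * 2 ^ l}

/-- the odd turns of the scale l -/
structure Turn (l : ℕ) (V : Set (List Bool)) : Prop where
  hp : V ⊆ Hp (2 ^ (l + 9))
  odd : ∀ v ∈ V, v.length % 2 = 1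
  dir : ∀ v ∈ V, de v = rotR up
  hgt : ∀ v ∈ V, (2 : ℤ) ^ (l + 1) < ip (en v) up
  front : ∀ v ∈ V, ∀ i, i ≤ v.length → ip (vx oo up v i - en v) (de v) ≤ 0

/-- W3m: their mass (85's TIP/OddV) -/
def TurnSt : Prop := ∃ (c : ℝ) (l0 : ℕ), 0 < c ∧ ∀ l : ℕ, l0 ≤ l → ∃ V, Turn l V ∧ ENNReal.ofReal (c * Ub l) ≤ gf V

/-- W3o: the choice of the offset: finitely many numbers x with tolerances h and weights w -/
def Offs : Prop := ∀ (ι : Type) (s : Finset ι) (w x h : ι → ℝ) (K : ℕ), 1 ≤ K → (∀ i ∈ s, 0 ≤ w i) → (∀ i ∈ s, 0 ≤ h i) →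
  ∃ j : ℕ, j < K ∧ ∑ i ∈ s, w i * TIP.ind (∃ m : ℤ, |x i + j / K - m| ≤ h i) ≤ ∑ i ∈ s, w i * (2 * h i + 2 / K)

/-- words of size less than D -/
def Sz (D : ℤ) (YY : Set (List Bool)) : Prop := ∀ Y ∈ YY, Y ∈ SA ∧ ∀ i, i ≤ Y.length → hn (vx oo up Y i) < D

/-- the nice words of the scale r: at least κ U(r) cuts with a free half ball of radius 1024 r and the end in YY -/
noncomputable def Nc (r : ℕ) (κ : ℝ) (YY : Set (List Bool)) : Set (List Bool) := by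
  classical
  exact {t | κ * UU r ≤ (((range (t.length + 1)).filter fun k =>
    t.take k ∈ Fe (1024 * r) ∧ t.drop k ∈ YY).card : ℝ)}

/-! ### rows with ensembles -/

/-- W2b: second moment of the number of the cuts -/
def Mom2 : Prop := ∃ C : ℝ, 0 < C ∧ ∀ p q : ℕ → List Bool → ℝ, Ens p q → ∀ r : ℕ, 1 ≤ r →
  ∃ n0 : ℕ, ∀ n, n0 ≤ n → ∑ t ∈ sawF n, p n t * (NP r t) ^ 2 ≤ (C * UU r) ^ 2

/-- the law inside -/
noncomputable def nuW (r : ℕ) (Q : Set (List Bool)) : ℝ :=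
  (∑' E : {E | E ∈ Hp r ∧ E.length % 2 = 0}, chi r E.1 * xc ^ E.1.length * TIP.ind (E.1 ∈ Q)) /
    ∑' E : {E | E ∈ Hp r ∧ E.length % 2 = 0}, chi r E.1 * xc ^ E.1.length

/-- events that are functions of the end at the scale r -/
def Inside (r : ℕ) (Q : Set (List Bool)) : Prop := ∀ A E, A ∈ Fe (2 * r) → E ∈ Hp r → A ++ E ∈ SA → chi r E ≠ 0 →
  (A ++ E ∈ Q ↔ E ∈ Q)

/-- a family of functions of the far pattern: `g y` for the ends of the parity y; `Un` the unstable words -/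
structure Pat (rho R0 : ℕ) (g : ℕ → List Bool → ℝ) (Un : Set (List Bool)) : Prop where
  bd : ∀ y t, |g y t| ≤ 1
  per : ∀ y, g (y + 2) = g y
  tog : ∀ y, TgF R0 (g y)
  togU : TgF R0 (fun t => TIP.ind (t ∈ Un))
  loc : ∀ y A Y, A ++ Y ∈ SA → (∀ i, i ≤ Y.length → hn (vx oo up Y i) < rho) →
    |g y (A ++ Y) - g (y + Y.length) A| ≤ 2 * TIP.ind (A ∈ Un)

/-- mass of the cuts with an unstable far part -/
noncomputable def unM (p : ℕ → List Bool → ℝ) (n r : ℕ) (Un : Set (List Bool)) : ℝ :=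
  ∑ t ∈ sawF n, p n t * ∑ k ∈ cu r t, TIP.ind (t.take k ∈ Un)

/-- (c) -/
def InnSt : Prop := ∀ p q : ℕ → List Bool → ℝ, Ens p q → ∀ (r R0 : ℕ) (Q : Set (List Bool)) (e : ℝ), 1 ≤ r → 0 < e →
  Inside r Q → ∃ n0 : ℕ, ∀ n, n0 ≤ n → ∀ (rho : ℕ) (g : ℕ → List Bool → ℝ) (Un : Set (List Bool)), r ≤ rho →
  Pat rho R0 g Un →
  |∑ t ∈ sawF n, p n t * (Nw r 0 t * ((TIP.ind (t ∈ Q) - nuW r Q) * g 0 t))| ≤ 2 * unM p n r Un + e

/-- (d): YY = any set of ends of size less than 2 ^ m r and mass at most CY U X (nothing else is asked of the ends) -/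
def LowSt : Prop := ∀ (m : ℕ) (κ CY : ℝ), 0 < κ → ∃ (C : ℝ) (l1 : ℕ), 0 < C ∧ ∀ p q : ℕ → List Bool → ℝ, Ens p q →
  ∀ (l R0 : ℕ) (YY : Set (List Bool)) (e : ℝ), l1 ≤ l → 0 < e → Sz (2 ^ m * 2 ^ l) YY →
  gf YY ≤ ENNReal.ofReal (CY * Ub l) * NTA.Xb l → ∃ n0 : ℕ, ∀ n, n0 ≤ n →
  ∀ (rho : ℕ) (g : ℕ → List Bool → ℝ) (Un : Set (List Bool)), 2 ^ (m + 9) * 2 ^ l ≤ rho → (∀ y t, 0 ≤ g y t) →
  Pat rho R0 g Un →
  Ub l * ∑ t ∈ sawF n, p n t * (TIP.ind (t ∈ Nc (2 ^ l) κ YY) * g 0 t) ≤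
    C * (∑ t ∈ sawF n, p n t * (Nw (2 ^ l) 0 t * g 0 t)) + C * unM p n (2 ^ l) Un + e

/-- N: near the tip many free cuts (from 84's NEndA: TIW/Nice) -/
def NiceSt : Prop := ∀ ε : ℝ, 0 < ε → ∃ (κ CY : ℝ) (m l0 : ℕ), 0 < κ ∧ ∀ l, l0 ≤ l → ∃ YY : Set (List Bool),
  Sz (2 ^ m * 2 ^ l) YY ∧ gf YY ≤ ENNReal.ofReal (CY * Ub l) * NTA.Xb l ∧ ∃ n0 : ℕ, ∀ n, n0 ≤ n →
  TOG.Pn n {t | t ∉ Nc (2 ^ l) κ YY} ≤ ε

end TIW

end HexObs
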