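import Pool.Agent.TIW.Lit

/-!
# TIW, row (c): the law inside (helper83). `innSt : FeTog → InnSt`.
-/

set_option autoImplicit false

namespace HexObs

namespace TIW

open Finset TS SDN

/-! ### 1. Gluing a half plane word to a word with a free tip -/

lemma vxa (A E : List Bool) (i : ℕ) : vx oo up (A ++ E) (A.length + i) = en A + mulE (rt A) (vx oo up E i) := vx_app A E i

lemma take_SA {A E : List Bool} (h : A ++ E ∈ SA) : A ∈ SA := by
  refine ⟨fun i _ _ => Set.mem_univ _, fun i k hik hk => ?_⟩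
  have h1 := h.inj i k hik (by rw [List.length_append]; omega)
  rwa [vx_append (by omega), vx_append (by omega)] at h1

/-- the part behind the cut stays away from the far part -/
lemma glue_SA {A E : List Bool} {r s : ℕ} (hrs : r ≤ s) (hA : A ∈ SA) (hF : A ∈ Fe s) (hE : E ∈ Hp r) : A ++ E ∈ SA := by
  refine ⟨fun i _ _ => Set.mem_univ _, fun i k hik hk => ?_⟩
  rw [List.length_append] at hk
  rcases le_or_gt k A.length with h1 | h1
  · rw [vx_append (by omega), vx_append (by omega)]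
    exact hA.inj i k hik h1
  · obtain ⟨k', rfl⟩ := Nat.exists_eq_add_of_le h1.le
    rcases le_or_gt i A.length with h2 | h2
    · rw [vx_append (by omega), vxa]
      intro h3
      have h4 : vx oo up A i - en A = mulE (rt A) (vx oo up E k') := by
        rw [h3]
        abel
      have h5 : ip (vx oo up A i - en A) (de A) = ip (vx oo up E k') up := by
        rw [h4, ← rt_up, ip_mulE, nrm_rt, one_mul]
      have h6 : 0 < ip (vx oo up E k') up := hE.1.mem k' (by omega) (by omega)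
      have h7 := hF i h2 (by rw [h5]; exact h6)
      rw [h4, hn_mulE (nrm_rt A)] at h7
      have h8 := hE.2 k' (by omega)
      have h9 : (r : ℤ) ≤ s := by exact_mod_cast hrs
      linarith
    · obtain ⟨i', rfl⟩ := Nat.exists_eq_add_of_le h2.le
      rw [vxa, vxa]
      intro h3
      have h4 : mulE (rt A) (vx oo up E i') = mulE (rt A) (vx oo up E k') := add_left_cancel h3
      have h5 : vx oo up E i' = vx oo up E k' := by
        have h6 := congrArg (mulE (conjE (rt A))) h4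
        rwa [mulE_assoc, mulE_assoc, mulE_comm (conjE (rt A)) (rt A), mulE_conjE, nrm_rt, mulE_one, mulE_one] at h6
      exact hE.1.inj i' k' (by omega) (by omega) h5

/-- half plane words of bounded size: finitely many -/
lemma Hp_finite (r : ℕ) : (Hp r).Finite := by
  have key : ∀ (p : Pt), hn p < r → |p.1| ≤ 2 * r ∧ |p.2| ≤ 2 * r := by
    intro p hp
    have h0 := hn_nonneg p
    have h1 := nrm_le_hn p
    have h2 : nrm p ≤ (r : ℤ) ^ 2 := by nlinarith
    unfold nrm at h2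
    constructor
    · refine abs_le_of_sq_le_sq ?_ (by positivity)
      nlinarith [sq_nonneg (p.1 + 2 * p.2)]
    · refine abs_le_of_sq_le_sq ?_ (by positivity)
      nlinarith [sq_nonneg (2 * p.1 + p.2)]
  refine (arr_finite (Icc (-(2 * r : ℤ)) (2 * r) ×ˢ Icc (-(2 * r : ℤ)) (2 * r)) oo up).subset fun E hE => ⟨fun i _ hi => ?_, hE.1.inj⟩
  obtain ⟨h1, h2⟩ := key _ (hE.2 i hi)
  rw [mem_product, mem_Icc, mem_Icc]
  exact ⟨abs_le.1 h1, abs_le.1 h2⟩

/-! ### 2. The law inside -/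

lemma cl1_nonneg (x : ℝ) : 0 ≤ cl1 x := le_max_left _ _

lemma cl1_le (x : ℝ) : cl1 x ≤ 1 := max_le zero_le_one (min_le_left _ _)

lemma chi_nonneg (r : ℕ) (E : List Bool) : 0 ≤ chi r E := le_min (cl1_nonneg _) (cl1_nonneg _)

lemma chi_le (r : ℕ) (E : List Bool) : chi r E ≤ 1 := (min_le_left _ _).trans (cl1_le _)

/-- the even half plane words -/
noncomputable def FE (r : ℕ) : Finset (List Bool) :=
  ((Hp_finite r).subset (t := {E | E ∈ Hp r ∧ E.length % 2 = 0}) fun _ h => h.1).toFinset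

lemma mem_FE {r : ℕ} {E : List Bool} : E ∈ FE r ↔ E ∈ Hp r ∧ E.length % 2 = 0 := by
  unfold FE
  rw [Set.Finite.mem_toFinset]
  exact Iff.rfl

lemma tsum_FE (r : ℕ) (f : List Bool → ℝ) : ∑' E : {E | E ∈ Hp r ∧ E.length % 2 = 0}, f E.1 = ∑ E ∈ FE r, f E := by
  have h : ({E | E ∈ Hp r ∧ E.length % 2 = 0} : Set (List Bool)) = (FE r : Set (List Bool)) := by
    ext E
    rw [Finset.mem_coe, mem_FE]
    exact Iff.rfl
  rw [h]
  exact Finset.tsum_subtype (FE r) f

lemma nuW_eq (r : ℕ) (Q : Set (List Bool)) : nuW r Q = (∑ E ∈ FE r, chi r E * xc ^ E.length * TIP.ind (E ∈ Q)) /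
    ∑ E ∈ FE r, chi r E * xc ^ E.length := by
  unfold nuW
  rw [tsum_FE r fun E => chi r E * xc ^ E.length * TIP.ind (E ∈ Q), tsum_FE r fun E => chi r E * xc ^ E.length]

lemma wt_nonneg (r : ℕ) (E : List Bool) : 0 ≤ chi r E * xc ^ E.length := mul_nonneg (chi_nonneg r E) (pow_nonneg xc_pos.le _)

lemma nuW_nonneg (r : ℕ) (Q : Set (List Bool)) : 0 ≤ nuW r Q := by
  rw [nuW_eq]
  exact div_nonneg (sum_nonneg fun E _ => mul_nonneg (wt_nonneg r E) (TIP.ind_nonneg _)) (sum_nonneg fun E _ => wt_nonneg r E)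

lemma nuW_le (r : ℕ) (Q : Set (List Bool)) : nuW r Q ≤ 1 := by
  rw [nuW_eq]
  refine div_le_one_of_le₀ (sum_le_sum fun E _ => ?_) (sum_nonneg fun E _ => wt_nonneg r E)
  exact mul_le_of_le_one_right (wt_nonneg r E) (TIP.ind_le_one _)

/-- the defining property -/
lemma nuW_sum (r : ℕ) (Q : Set (List Bool)) :
    ∑ E ∈ FE r, chi r E * (TIP.ind (E ∈ Q) - nuW r Q) * xc ^ E.length = 0 := by
  have h1 : ∑ E ∈ FE r, chi r E * (TIP.ind (E ∈ Q) - nuW r Q) * xc ^ E.length =
      ∑ E ∈ FE r, chi r E * xc ^ E.length * TIP.ind (E ∈ Q) - nuW r Q * ∑ E ∈ FE r, chi r E * xc ^ E.length := by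
    rw [mul_sum, ← sum_sub_distrib]
    exact sum_congr rfl fun E _ => by ring
  rw [h1, nuW_eq]
  rcases eq_or_ne (∑ E ∈ FE r, chi r E * xc ^ E.length) 0 with h2 | h2
  · have h3 : ∑ E ∈ FE r, chi r E * xc ^ E.length * TIP.ind (E ∈ Q) = 0 := by
      refine sum_eq_zero fun E hE => ?_
      rw [(sum_eq_zero_iff_of_nonneg fun E _ => wt_nonneg r E).1 h2 E hE, zero_mul]
    rw [h2, h3]
    ring
  · rw [div_mul_cancel₀ _ h2, sub_self]

/-! ### 3. The sum over the cuts -/

lemma TgF.mono {R0 R1 : ℕ} (h : R0 ≤ R1) {g : List Bool → ℝ} (hg : TgF R0 g) : TgF R1 g := by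
  intro X Y h1 h2
  refine hg X Y h1 (lt_of_le_of_lt ?_ h2)
  have : (R0 : ℤ) ≤ R1 := by exact_mod_cast h
  nlinarith [(Nat.cast_nonneg R0 : (0 : ℤ) ≤ (R0 : ℤ))]

lemma TgF.mul {R0 : ℕ} {g h : List Bool → ℝ} (hg : TgF R0 g) (hh : TgF R0 h) : TgF R0 (fun t => g t * h t) := by
  intro X Y h1 h2 h3 h4
  show g _ * h _ = g _ * h _
  rw [hg X Y h1 h2 h3 h4, hh X Y h1 h2 h3 h4]

/-- the sum over the even cuts as a sum over the ends -/
lemma sum_cuts (r : ℕ) (t : List Bool) (φ : List Bool → ℝ) (ψ : List Bool → ℝ) :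
    ∑ k ∈ (cu r t).filter (fun k => (t.drop k).length % 2 = 0 % 2), φ (t.drop k) * ψ (t.take k) =
      ∑ E ∈ FE r, φ E * (TIP.ind (E <:+ t) * (TIP.ind (t.take (t.length - E.length) ∈ Fe (2 * r)) *
        ψ (t.take (t.length - E.length)))) := by
  classical
  have h1 : ∑ E ∈ FE r, φ E * (TIP.ind (E <:+ t) * (TIP.ind (t.take (t.length - E.length) ∈ Fe (2 * r)) *
        ψ (t.take (t.length - E.length)))) =
      ∑ E ∈ (FE r).filter (fun E => E <:+ t ∧ t.take (t.length - E.length) ∈ Fe (2 * r)),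
        φ E * ψ (t.take (t.length - E.length)) := by
    rw [sum_filter]
    refine sum_congr rfl fun E _ => ?_
    by_cases h2 : E <:+ t
    · by_cases h3 : t.take (t.length - E.length) ∈ Fe (2 * r)
      · rw [TIP.ind_pos h2, TIP.ind_pos h3, if_pos ⟨h2, h3⟩, one_mul, one_mul]
      · rw [TIP.ind_neg h3, if_neg fun h => h3 h.2, zero_mul, mul_zero, mul_zero]
    · rw [TIP.ind_neg h2, if_neg fun h => h2 h.1, zero_mul, mul_zero]
  rw [h1]
  have hle : ∀ k ∈ (cu r t).filter (fun k => (t.drop k).length % 2 = 0 % 2), k ≤ t.length := by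
    intro k hk
    rw [mem_filter, cu, mem_filter, mem_range] at hk
    omega
  refine sum_bij' (fun k _ => t.drop k) (fun E _ => t.length - E.length) ?_ ?_ ?_ ?_ ?_
  · intro k hk
    have hkl := hle k hk
    rw [mem_filter, cu, mem_filter, mem_range] at hk
    rw [mem_filter, mem_FE]
    refine ⟨⟨hk.1.2.2, by simpa using hk.2⟩, List.drop_suffix _ _, ?_⟩
    rw [List.length_drop, Nat.sub_sub_self hkl]
    exact hk.1.2.1
  · intro E hE
    rw [mem_filter, mem_FE] at hE
    obtain ⟨⟨h2, h3⟩, h4, h5⟩ := hE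
    have h6 : t.drop (t.length - E.length) = E := (List.suffix_iff_eq_drop.1 h4).symm
    rw [mem_filter, cu, mem_filter, mem_range, h6]
    exact ⟨⟨by omega, h5, h2⟩, by simpa using h3⟩
  · intro k hk
    have hkl := hle k hk
    show t.length - (t.drop k).length = k
    rw [List.length_drop, Nat.sub_sub_self hkl]
  · intro E hE
    rw [mem_filter] at hE
    exact (List.suffix_iff_eq_drop.1 hE.2.1).symm
  · intro k hk
    have hkl := hle k hk
    show _ = φ (t.drop k) * ψ (t.take (t.length - (t.drop k).length))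
    rw [List.length_drop, Nat.sub_sub_self hkl]

/-- **(c): the law inside** -/
theorem innSt (hFe : FeTog) : InnSt := by
  classical
  intro p q hp r R0 Q e hr he hQ
  obtain ⟨R1, hR1⟩ : ∃ R1 : ℕ, R1 = max R0 (2 * r + 2) := ⟨_, rfl⟩
  obtain ⟨e1, he1⟩ : ∃ e1 : ℝ, e1 = e / ((FE r).card + 1) := ⟨_, rfl⟩
  have hc0 : (0 : ℝ) < (FE r).card + 1 := by positivity
  have he1p : 0 < e1 := he1 ▸ div_pos he hc0
  choose N hN using fun E : List Bool => hp.pf R1 E e1 he1p
  refine ⟨(FE r).sup N, fun n hn rho g Un hrho hg => ?_⟩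
  have hν0 := nuW_nonneg r Q
  have hν1 := nuW_le r Q
  obtain ⟨ν, hν⟩ : ∃ ν : ℝ, ν = nuW r Q := ⟨_, rfl⟩
  rw [← hν] at hν0 hν1
  have hind : ∀ A : Prop, |TIP.ind A - ν| ≤ 1 := by
    intro A
    have h1 := TIP.ind_nonneg A
    have h2 := TIP.ind_le_one A
    rw [abs_le]
    constructor <;> linarith
  obtain ⟨g', hg'⟩ : ∃ g' : List Bool → ℝ, g' = fun t => TIP.ind (t ∈ Fe (2 * r)) * g 0 t := ⟨_, rfl⟩
  have hg'1 : ∀ t, |g' t| ≤ 1 := by
    intro t
    rw [hg', abs_mul, abs_of_nonneg (TIP.ind_nonneg _)]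
    exact mul_le_one₀ (TIP.ind_le_one _) (abs_nonneg _) (hg.bd 0 t)
  have hgT : TgF R1 g' := by
    rw [hg', hR1]
    exact (TgF.mono (le_max_right _ _) (hFe (2 * r) (2 * r + 2) le_rfl)).mul (TgF.mono (le_max_left _ _) (hg.tog 0))
  -- the main part
  obtain ⟨φ, hφ⟩ : ∃ φ : List Bool → ℝ, φ = fun E => chi r E * (TIP.ind (E ∈ Q) - ν) := ⟨_, rfl⟩
  have hφ1 : ∀ E, |φ E| ≤ 1 := by
    intro E
    rw [hφ, abs_mul, abs_of_nonneg (chi_nonneg r E)]
    exact mul_le_one₀ (chi_le r E) (abs_nonneg _) (hind _)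
  have main : |∑ E ∈ FE r, φ E * ∑ t ∈ sawF n, p n t * (TIP.ind (E <:+ t) * g' (t.take (t.length - E.length)))| ≤ e := by
    obtain ⟨G, hG⟩ : ∃ G : ℝ, G = ∑ t ∈ sawF n, p n t * g' t := ⟨_, rfl⟩
    have h1 : ∀ E ∈ FE r, |(∑ t ∈ sawF n, p n t * (TIP.ind (E <:+ t) * g' (t.take (t.length - E.length)))) -
        xc ^ E.length * G| ≤ e1 := by
      intro E hE
      have h2 := hN E n ((Finset.le_sup hE).trans hn) g' hg'1 hgT (fun A h3 h4 => ?_)
      · rw [if_pos (mem_FE.1 hE).2, ← hG] at h2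
        exact h2
      · refine glue_SA (by omega : r ≤ 2 * r) h4 ?_ (mem_FE.1 hE).1
        by_contra h5
        apply h3
        rw [hg']
        show TIP.ind (A ∈ Fe (2 * r)) * g 0 A = 0
        rw [TIP.ind_neg h5, zero_mul]
    have h2 : ∑ E ∈ FE r, φ E * (xc ^ E.length * G) = 0 := by
      have h3 := nuW_sum r Q
      rw [← hν] at h3
      have h4 : ∑ E ∈ FE r, φ E * (xc ^ E.length * G) =
          (∑ E ∈ FE r, chi r E * (TIP.ind (E ∈ Q) - ν) * xc ^ E.length) * G := by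
        rw [sum_mul, hφ]
        exact sum_congr rfl fun E _ => by ring
      rw [h4, h3, zero_mul]
    have h3 : ∑ E ∈ FE r, φ E * ∑ t ∈ sawF n, p n t * (TIP.ind (E <:+ t) * g' (t.take (t.length - E.length))) =
        ∑ E ∈ FE r, φ E * ((∑ t ∈ sawF n, p n t * (TIP.ind (E <:+ t) * g' (t.take (t.length - E.length)))) -
          xc ^ E.length * G) := by
      rw [← sub_eq_zero, ← sum_sub_distrib, ← h2]
      exact sum_congr rfl fun E _ => by ring
    rw [h3]
    calc |∑ E ∈ FE r, φ E * ((∑ t ∈ sawF n, p n t * (TIP.ind (E <:+ t) * g' (t.take (t.length - E.length)))) -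
          xc ^ E.length * G)| ≤ ∑ _E ∈ FE r, e1 := by
          refine (abs_sum_le_sum_abs _ _).trans (sum_le_sum fun E hE => ?_)
          rw [abs_mul]
          exact (mul_le_of_le_one_left (abs_nonneg _) (hφ1 E)).trans (h1 E hE)
      _ = (FE r).card * e1 := by rw [sum_const, nsmul_eq_mul]
      _ ≤ e := by
          rw [he1, ← mul_div_assoc, div_le_iff₀ hc0]
          nlinarith
  -- one word
  have word : ∀ t ∈ sawF n, |Nw r 0 t * ((TIP.ind (t ∈ Q) - ν) * g 0 t) -
      ∑ E ∈ FE r, φ E * (TIP.ind (E <:+ t) * g' (t.take (t.length - E.length)))| ≤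
        2 * ∑ k ∈ cu r t, TIP.ind (t.take k ∈ Un) := by
    intro t ht
    have hts : t ∈ SA := (mem_sawF.1 ht).2
    have h1 := sum_cuts r t φ (g 0)
    have h2 : ∑ E ∈ FE r, φ E * (TIP.ind (E <:+ t) * g' (t.take (t.length - E.length))) =
        ∑ k ∈ (cu r t).filter (fun k => (t.drop k).length % 2 = 0 % 2), φ (t.drop k) * g 0 (t.take k) := by
      rw [h1, hg']
    rw [h2]
    unfold Nw
    rw [sum_mul, ← sum_sub_distrib, mul_sum]
    refine (abs_sum_le_sum_abs _ _).trans ?_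
    refine (sum_le_sum (g := fun k => 2 * TIP.ind (t.take k ∈ Un)) fun k hk => ?_).trans
      (sum_le_sum_of_subset_of_nonneg (filter_subset _ _) fun k _ _ => mul_nonneg (by norm_num) (TIP.ind_nonneg _))
    rw [mem_filter, cu, mem_filter, mem_range] at hk
    obtain ⟨⟨hk1, hk2, hk3⟩, hk4⟩ := hk
    have hAE : t.take k ++ t.drop k = t := List.take_append_drop k t
    have hloc := hg.loc 0 (t.take k) (t.drop k) (by rw [hAE]; exact hts) (fun i hi => lt_of_lt_of_le (hk3.2 i hi) (by exact_mod_cast hrho))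
    have hper : g (0 + (t.drop k).length) = g 0 := by
      have h5 : ∀ j : ℕ, g (2 * j) = g 0 := by
        intro j
        induction j with
        | zero => rfl
        | succ j ih => rw [show 2 * (j + 1) = 2 * j + 2 by ring, hg.per, ih]
      obtain ⟨j, hj⟩ : ∃ j, (t.drop k).length = 2 * j := ⟨(t.drop k).length / 2, by omega⟩
      rw [zero_add, hj, h5]
    rw [hAE, hper] at hloc
    have h6 : chi r (t.drop k) * ((TIP.ind (t ∈ Q) - ν) * g 0 t) - φ (t.drop k) * g 0 (t.take k) =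
        φ (t.drop k) * (g 0 t - g 0 (t.take k)) := by
      by_cases h7 : chi r (t.drop k) = 0
      · rw [hφ]
        show chi r (t.drop k) * ((TIP.ind (t ∈ Q) - ν) * g 0 t) -
          chi r (t.drop k) * (TIP.ind (t.drop k ∈ Q) - ν) * g 0 (t.take k) =
          chi r (t.drop k) * (TIP.ind (t.drop k ∈ Q) - ν) * (g 0 t - g 0 (t.take k))
        rw [h7]
        ring
      · have h8 := hQ (t.take k) (t.drop k) hk2 hk3 (by rw [hAE]; exact hts) h7
        rw [hAE] at h8
        have h9 : TIP.ind (t ∈ Q) = TIP.ind (t.drop k ∈ Q) := by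
          by_cases h10 : t ∈ Q
          · rw [TIP.ind_pos h10, TIP.ind_pos (h8.1 h10)]
          · rw [TIP.ind_neg h10, TIP.ind_neg fun h => h10 (h8.2 h)]
        rw [hφ]
        show chi r (t.drop k) * ((TIP.ind (t ∈ Q) - ν) * g 0 t) -
          chi r (t.drop k) * (TIP.ind (t.drop k ∈ Q) - ν) * g 0 (t.take k) =
          chi r (t.drop k) * (TIP.ind (t.drop k ∈ Q) - ν) * (g 0 t - g 0 (t.take k))
        rw [h9]
        ring
    rw [h6, abs_mul]
    exact (mul_le_of_le_one_left (abs_nonneg _) (hφ1 _)).trans hloc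
  -- the sum
  have h1 : ∑ t ∈ sawF n, p n t * (Nw r 0 t * ((TIP.ind (t ∈ Q) - ν) * g 0 t)) =
      (∑ E ∈ FE r, φ E * ∑ t ∈ sawF n, p n t * (TIP.ind (E <:+ t) * g' (t.take (t.length - E.length)))) +
      ∑ t ∈ sawF n, p n t * (Nw r 0 t * ((TIP.ind (t ∈ Q) - ν) * g 0 t) -
        ∑ E ∈ FE r, φ E * (TIP.ind (E <:+ t) * g' (t.take (t.length - E.length)))) := by
    have h2 : ∑ E ∈ FE r, φ E * ∑ t ∈ sawF n, p n t * (TIP.ind (E <:+ t) * g' (t.take (t.length - E.length))) =
        ∑ t ∈ sawF n, p n t * ∑ E ∈ FE r, φ E * (TIP.ind (E <:+ t) * g' (t.take (t.length - E.length))) := by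
      simp_rw [mul_sum]
      rw [sum_comm]
      exact sum_congr rfl fun t _ => sum_congr rfl fun E _ => by ring
    rw [h2, ← sum_add_distrib]
    exact sum_congr rfl fun t _ => by ring
  rw [← hν, h1]
  refine (abs_add_le _ _).trans ?_
  have h3 : |∑ t ∈ sawF n, p n t * (Nw r 0 t * ((TIP.ind (t ∈ Q) - ν) * g 0 t) -
        ∑ E ∈ FE r, φ E * (TIP.ind (E <:+ t) * g' (t.take (t.length - E.length))))| ≤ 2 * unM p n r Un := by
    unfold unM
    rw [mul_sum]
    refine (abs_sum_le_sum_abs _ _).trans (sum_le_sum fun t ht => ?_)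
    rw [abs_mul, abs_of_nonneg (hp.p0 n t)]
    calc p n t * |Nw r 0 t * ((TIP.ind (t ∈ Q) - ν) * g 0 t) -
        ∑ E ∈ FE r, φ E * (TIP.ind (E <:+ t) * g' (t.take (t.length - E.length)))| ≤
        p n t * (2 * ∑ k ∈ cu r t, TIP.ind (t.take k ∈ Un)) := mul_le_mul_of_nonneg_left (word t ht) (hp.p0 n t)
      _ = _ := by ring
  linarith

end TIW

end HexObs
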