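import Pool.Agent.TIW.Lit

/-!
# TIW, W1 (helper69): an end of small size changes the weight little
-/

set_option autoImplicit false

namespace HexObs

namespace TIW

open Finset TS SDN

namespace OscA

lemma en_app (Z Y : List Bool) : en (Z ++ Y) = en Z + mulE (rt Z) (en Y) := by
  have h := vx_app Z Y Y.length
  rw [← List.length_append] at h
  exact h

lemma hn_rot (Z : List Bool) (p : Pt) : hn (mulE (rt Z) p) = hn p := hn_mulE (nrm_rt Z) p

lemma ip_abs (p : Pt) {d : Pt} (hd : d ∈ dirs) : |ip p d| ≤ hn p :=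
  abs_le.2 ⟨neg_hn_le_ip p hd, ip_le_hn p hd⟩

lemma cl1_lip (x y : ℝ) : |cl1 x - cl1 y| ≤ |x - y| := by
  unfold cl1
  refine (abs_max_sub_max_le_max _ _ _ _).trans (max_le (by simp) ?_)
  refine (abs_min_sub_min_le_max _ _ _ _).trans (max_le (by simp) le_rfl)

lemma cl1_zero {x : ℝ} (h : x ≤ 0) : cl1 x = 0 := by
  unfold cl1
  exact max_eq_left ((min_le_right _ _).trans h)

lemma cl1_nonneg (x : ℝ) : 0 ≤ cl1 x := le_max_left _ _

lemma chi_lip {r rho : ℕ} {E E' : List Bool} (hr : 0 < r) (h1 : |ip (en E) up - ip (en E') up| ≤ rho)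
    (h2 : |hn (en E) - hn (en E')| ≤ rho) : |chi r E - chi r E'| ≤ 32 * rho / r := by
  have hr0 : (0 : ℝ) < r := by exact_mod_cast hr
  have h1' : |(ip (en E) up : ℝ) - ip (en E') up| ≤ rho := by exact_mod_cast h1
  have h2' : |(hn (en E) : ℝ) - hn (en E')| ≤ rho := by exact_mod_cast h2
  unfold chi
  refine (abs_min_sub_min_le_max _ _ _ _).trans (max_le ((cl1_lip _ _).trans ?_) ((cl1_lip _ _).trans ?_))
  · have e : 32 * (ip (en E) up : ℝ) / r - 1 - (32 * (ip (en E') up : ℝ) / r - 1) =
        32 * ((ip (en E) up : ℝ) - ip (en E') up) / r := by ring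
    rw [e, abs_div, abs_mul, abs_of_pos hr0, abs_of_pos (show (0 : ℝ) < 32 by norm_num)]
    gcongr
  · have e : 16 - 32 * (hn (en E) : ℝ) / r - (16 - 32 * (hn (en E') : ℝ) / r) =
        -(32 * ((hn (en E) : ℝ) - hn (en E')) / r) := by ring
    rw [e, abs_neg, abs_div, abs_mul, abs_of_pos hr0, abs_of_pos (show (0 : ℝ) < 32 by norm_num)]
    gcongr

lemma chi_low {r : ℕ} {E : List Bool} (hr : 0 < r) (h : 32 * ip (en E) up ≤ r) : chi r E = 0 := by
  have hr0 : (0 : ℝ) < r := by exact_mod_cast hr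
  have h' : 32 * (ip (en E) up : ℝ) ≤ r := by exact_mod_cast h
  unfold chi
  rw [cl1_zero (show 32 * (ip (en E) up : ℝ) / r - 1 ≤ 0 by
    rw [sub_nonpos, div_le_one hr0]
    exact h')]
  exact min_eq_left (cl1_nonneg _)

lemma chi_far {r : ℕ} {E : List Bool} (hr : 0 < r) (h : (r : ℤ) ≤ 2 * hn (en E)) : chi r E = 0 := by
  have hr0 : (0 : ℝ) < r := by exact_mod_cast hr
  have h' : (r : ℝ) ≤ 2 * (hn (en E) : ℝ) := by exact_mod_cast h
  unfold chi
  rw [cl1_zero (show 16 - 32 * (hn (en E) : ℝ) / r ≤ 0 by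
    rw [sub_nonpos, le_div_iff₀ hr0]
    linarith)]
  exact min_eq_right (cl1_nonneg _)

/-- suffixes of self-avoiding words -/
lemma suf_inj {A Z : List Bool} (h : A ++ Z ∈ SA) {i k : ℕ} (hik : i < k) (hk : k ≤ Z.length) :
    vx oo up Z i ≠ vx oo up Z k := by
  intro he
  refine h.inj (A.length + i) (A.length + k) (by omega) (by rw [List.length_append]; omega) ?_
  rw [vx_app, vx_app, he]

lemma Hp_pre {r : ℕ} {Z Y : List Bool} (h : Z ++ Y ∈ Hp r) : Z ∈ Hp r := by
  obtain ⟨h1, h2⟩ := h
  have e : ∀ i, i ≤ Z.length → vx oo up (Z ++ Y) i = vx oo up Z i := fun i hi => vx_append (by omega)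
  refine ⟨⟨fun i hi1 hi2 => ?_, fun i k hik hk => ?_⟩, fun i hi => ?_⟩
  · rw [← e i hi2]
    exact h1.mem i hi1 (by rw [List.length_append]; omega)
  · rw [← e i (by omega), ← e k hk]
    exact h1.inj i k hik (by rw [List.length_append]; omega)
  · rw [← e i hi]
    exact h2 i (by rw [List.length_append]; omega)

/-- the end well inside: the extension is a half plane word -/
lemma Hp_ext {R rho : ℕ} {B Z Y : List Bool} (hR : 128 * rho ≤ R) (hrho : 1 ≤ rho) (hS : B ++ (Z ++ Y) ∈ SA)
    (hY : ∀ i, i ≤ Y.length → hn (vx oo up Y i) < rho) (hZ : Z ∈ Hp R) (h1 : (R : ℤ) ≤ 64 * ip (en Z) up)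
    (h2 : 4 * hn (en Z) ≤ 3 * R) : Z ++ Y ∈ Hp R := by
  have hv : ∀ i, i ≤ (Z ++ Y).length → i ≤ Z.length ∨ ∃ j, j ≤ Y.length ∧ i = Z.length + j := by
    intro i hi
    rw [List.length_append] at hi
    rcases le_or_gt i Z.length with h | h
    · exact Or.inl h
    · exact Or.inr ⟨i - Z.length, by omega, by omega⟩
  have hRz : (128 : ℤ) * rho ≤ R := by exact_mod_cast hR
  have hrz : (1 : ℤ) ≤ rho := by exact_mod_cast hrho
  refine ⟨⟨fun i hi1 hi2 => ?_, fun i k hik hk => suf_inj hS hik hk⟩, fun i hi => ?_⟩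
  · rcases hv i hi2 with h | ⟨j, hj, rfl⟩
    · rw [vx_append (by omega)]
      exact hZ.1.mem i hi1 h
    · rw [vx_app]
      show 0 < ip (en Z + mulE (rt Z) (vx oo up Y j)) up
      rw [ip_add_left]
      have h3 := neg_hn_le_ip (mulE (rt Z) (vx oo up Y j)) upd'
      rw [hn_rot] at h3
      have h4 := hY j hj
      linarith
  · rcases hv i hi with h | ⟨j, hj, rfl⟩
    · rw [vx_append (by omega)]
      exact hZ.2 i h
    · rw [vx_app]
      have h3 := hn_add (en Z) (mulE (rt Z) (vx oo up Y j))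
      rw [hn_rot] at h3
      have h4 := hY j hj
      linarith

end OscA

open OscA

open Classical in
/-- **W1** -/
theorem osc : Osc := by
  intro R rho y A Y hR hrho hS hY
  have hR0 : 0 < R := by omega
  have hRz : (128 : ℤ) * rho ≤ R := by exact_mod_cast hR
  have hrz : (1 : ℤ) ≤ rho := by exact_mod_cast hrho
  have hRr : (0 : ℝ) < R := by exact_mod_cast hR0
  have hY0 : hn (en Y) < rho := hY Y.length le_rfl
  obtain ⟨Mc, hMc⟩ : ∃ Mc : ℕ → Prop, Mc = fun k => (A.take k ∈ Fe (2 * R) ∧ A.drop k ∈ Hp R) ∧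
    ((R : ℤ) ≤ 64 * ip (en (A.drop k)) up ∧ 4 * hn (en (A.drop k)) ≤ 3 * R) := ⟨_, rfl⟩
  have htk : ∀ k, k ≤ A.length → (A ++ Y).take k = A.take k := fun k hk => List.take_append_of_le_length hk
  have hdk : ∀ k, k ≤ A.length → (A ++ Y).drop k = A.drop k ++ Y := fun k hk => List.drop_append_of_le_length hk
  have hsplit : ∀ k, A.take k ++ (A.drop k ++ Y) ∈ SA := by
    intro k
    rw [← List.append_assoc, List.take_append_drop]
    exact hS
  -- the end of Z ++ Y
  have hend : ∀ Z : List Bool, |ip (en (Z ++ Y)) up - ip (en Z) up| ≤ rho ∧ |hn (en (Z ++ Y)) - hn (en Z)| ≤ rho := by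
    intro Z
    rw [en_app]
    have h1 := hn_rot Z (en Y)
    have h2 := ip_abs (mulE (rt Z) (en Y)) upd'
    rw [h1] at h2
    refine ⟨?_, ?_⟩
    · rw [ip_add_left, add_sub_cancel_left]
      linarith
    · have h3 := hn_add (en Z) (mulE (rt Z) (en Y))
      have h4 := hn_sub (en Z + mulE (rt Z) (en Y)) (mulE (rt Z) (en Y))
      rw [add_sub_cancel_right] at h4
      rw [h1] at h3 h4
      rw [abs_le]
      constructor <;> linarith
  -- the cuts of A + Y in A
  have hcu : ∀ k, k ≤ A.length → Mc k → (A ++ Y).take k ∈ Fe (2 * R) ∧ (A ++ Y).drop k ∈ Hp R := by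
    intro k hk hm
    rw [hMc] at hm
    obtain ⟨⟨m1, m2⟩, m3, m4⟩ := hm
    rw [htk k hk, hdk k hk]
    exact ⟨m1, Hp_ext hR hrho (hsplit k) hY m2 m3 m4⟩
  have hzero : ∀ k, ¬ Mc k → A.take k ∈ Fe (2 * R) → A.drop k ∈ Hp R →
      chi R (A.drop k) = 0 ∧ chi R (A.drop k ++ Y) = 0 := by
    intro k hm m1 m2
    rw [hMc] at hm
    simp only [not_and_or, not_le] at hm
    obtain ⟨e1, e2⟩ := hend (A.drop k)
    rw [abs_le] at e1 e2
    rcases hm with hm | hm
    · rcases hm with h | h
      · exact absurd m1 h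
      · exact absurd m2 h
    · rcases hm with h | h
      · exact ⟨chi_low hR0 (by omega), chi_low hR0 (by omega)⟩
      · exact ⟨chi_far hR0 (by omega), chi_far hR0 (by omega)⟩
  obtain ⟨f, hf⟩ : ∃ f : ℕ → ℝ, f = fun k => if ((A ++ Y).take k ∈ Fe (2 * R) ∧ (A ++ Y).drop k ∈ Hp R) ∧
    ((A ++ Y).drop k).length % 2 = y % 2 then chi R ((A ++ Y).drop k) else 0 := ⟨_, rfl⟩
  obtain ⟨g, hg⟩ : ∃ g : ℕ → ℝ, g = fun k => if (A.take k ∈ Fe (2 * R) ∧ A.drop k ∈ Hp R) ∧
    (A.drop k).length % 2 = (y + Y.length) % 2 then chi R (A.drop k) else 0 := ⟨_, rfl⟩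
  have hNt : Nw R y (A ++ Y) = ∑ k ∈ range ((A ++ Y).length + 1), f k := by
    unfold Nw cu
    rw [filter_filter, sum_filter, hf]
  have hNA : Nw R (y + Y.length) A = ∑ k ∈ range (A.length + 1), g k := by
    unfold Nw cu
    rw [filter_filter, sum_filter, hg]
  have hNM : NM R A = ∑ k ∈ range (A.length + 1), if Mc k then (1 : ℝ) else 0 := by
    unfold NM cu
    rw [filter_filter, Finset.sum_boole, hMc]
    congr 2
    ext k
    simp only [mem_filter]
  -- no weight for the cuts in Y
  have hbig : ∀ k, A.length < k → k ≤ (A ++ Y).length → f k = 0 := by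
    intro k hk hk2
    rw [hf]
    simp only
    split_ifs with hc
    · refine chi_low hR0 ?_
      rw [List.length_append] at hk2
      obtain ⟨j, rfl⟩ : ∃ j, k = A.length + j := ⟨k - A.length, by omega⟩
      have e : (A ++ Y).drop (A.length + j) = Y.drop j := by
        rw [List.drop_append]
        simp
      rw [e]
      have h1 : en Y = en (Y.take j) + mulE (rt (Y.take j)) (en (Y.drop j)) := by
        rw [← en_app, List.take_append_drop]
      have hj : j ≤ Y.length := by omega
      have h2 : en (Y.take j) = vx oo up Y j := by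
        unfold en
        rw [List.length_take, min_eq_left hj]
        have := vx_append (v0 := oo) (d0 := up) (t := Y.take j) (s := Y.drop j) (i := j)
          (by rw [List.length_take, min_eq_left hj]; omega)
        rw [List.take_append_drop] at this
        exact this.symm
      have h3 : mulE (rt (Y.take j)) (en (Y.drop j)) = en Y - vx oo up Y j := by
        rw [h1, h2]
        abel
      have h4 := hn_rot (Y.take j) (en (Y.drop j))
      rw [h3] at h4
      have h5 := hn_sub (en Y) (vx oo up Y j)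
      have h6 := hY j hj
      have h7 := ip_le_hn (en (Y.drop j)) upd'
      omega
    · rfl
  have hsum : ∑ k ∈ range ((A ++ Y).length + 1), f k = ∑ k ∈ range (A.length + 1), f k := by
    symm
    refine sum_subset (fun k hk => ?_) fun k hk hk' => ?_
    · rw [mem_range] at hk ⊢
      rw [List.length_append]
      omega
    · rw [mem_range] at hk hk'
      exact hbig k (by omega) (by omega)
  have hterm : ∀ k ∈ range (A.length + 1), |f k - g k| ≤ 32 * rho / R * (if Mc k then (1 : ℝ) else 0) := by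
    intro k hk
    rw [mem_range] at hk
    have hk' : k ≤ A.length := by omega
    by_cases hm : Mc k
    · rw [if_pos hm, mul_one]
      have h1 := hcu k hk' hm
      have h2 : A.take k ∈ Fe (2 * R) ∧ A.drop k ∈ Hp R := by
        rw [hMc] at hm
        exact hm.1
      have hpar : ((A ++ Y).drop k).length % 2 = y % 2 ↔ (A.drop k).length % 2 = (y + Y.length) % 2 := by
        rw [hdk k hk', List.length_append]
        omega
      rw [hf, hg]
      simp only
      by_cases hp : (A.drop k).length % 2 = (y + Y.length) % 2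
      · rw [if_pos ⟨h1, hpar.2 hp⟩, if_pos ⟨h2, hp⟩, hdk k hk']
        obtain ⟨e1, e2⟩ := hend (A.drop k)
        exact chi_lip hR0 e1 e2
      · rw [if_neg (fun h => hp (hpar.1 h.2)), if_neg (fun h => hp h.2), sub_zero, abs_zero]
        positivity
    · rw [if_neg hm, mul_zero]
      have h1 : g k = 0 := by
        rw [hg]
        simp only
        split_ifs with hc
        · exact (hzero k hm hc.1.1 hc.1.2).1
        · rfl
      have h2 : f k = 0 := by
        rw [hf]
        simp only
        split_ifs with hc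
        · have h3 := hc.1
          rw [htk k hk', hdk k hk'] at h3
          rw [hdk k hk']
          exact (hzero k hm h3.1 (Hp_pre h3.2)).2
        · rfl
      rw [h1, h2, sub_zero, abs_zero]
  refine ⟨?_, ?_⟩
  · rw [hNt, hNA, hNM, hsum, ← sum_sub_distrib, mul_sum]
    exact (abs_sum_le_sum_abs _ _).trans (sum_le_sum hterm)
  · unfold NM NP
    have h1 : ((cu R A).filter fun k => (R : ℤ) ≤ 64 * ip (en (A.drop k)) up ∧ 4 * hn (en (A.drop k)) ≤ 3 * R) ⊆
        cu R (A ++ Y) := by
      intro k hk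
      unfold cu at hk ⊢
      rw [mem_filter, mem_filter, mem_range] at hk
      obtain ⟨⟨k1, k2⟩, k3⟩ := hk
      rw [mem_filter, mem_range]
      refine ⟨by rw [List.length_append]; omega, hcu k (by omega) ?_⟩
      rw [hMc]
      exact ⟨k2, k3⟩
    exact_mod_cast card_le_card h1

end TIW

end HexObs
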