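import Pool.Agent.TIW.ZBu
import Pool.Agent.TIP.FP

/-!
# TIW: the second moment of the number of the cuts (helper15)

* `Hp_fin` : the half plane words of size less than `r` are finitely many, `HpF r` their set;
* `cu_sum` : sums over the cuts as sums over the ends;
* `np_sq` : `NP r t ^ 2` is at most twelve times the number of the pairs of cuts that differ by a low bridge;
* **`mom2_of : FeTog → Mom2`**.
-/

set_option autoImplicit false

namespace HexObs

namespace TIW

open Finset TS SDN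

open scoped Classical

lemma hn_fin (r : ℕ) : {p : Pt | hn p < r}.Finite := by
  have h1 : Set.InjOn (fun p : Pt => (ip p up, ip p (rotL up))) {p : Pt | hn p < r} := by
    rintro ⟨a, b⟩ - ⟨c, d⟩ - he
    have e1 := congrArg Prod.fst he
    have e2 := congrArg Prod.snd he
    simp only [ip, up, rotL] at e1 e2
    ext <;> simp only <;> omega
  refine Set.Finite.of_finite_image ((Set.finite_Icc ((-(r : ℤ), -(r : ℤ)) : ℤ × ℤ) ((r : ℤ), (r : ℤ))).subset ?_) h1
  rintro _ ⟨p, hp, rfl⟩
  have hp' : hn p < r := hp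
  have h2 := ip_le_hn p upd'
  have h3 := neg_hn_le_ip p upd'
  have hL : rotL up ∈ dirs := by decide
  have h4 := ip_le_hn p hL
  have h5 := neg_hn_le_ip p hL
  refine ⟨⟨?_, ?_⟩, ⟨?_, ?_⟩⟩ <;> simp only <;> linarith

/-- the half plane words of size less than `r` are finitely many -/
lemma Hp_fin (r : ℕ) : (Hp r).Finite := by
  refine (List.finite_length_le Bool (hn_fin r).toFinset.card).subset fun E hE => ?_
  obtain ⟨hS, hn1⟩ := hE
  have h1 : ((Icc 1 E.length).image fun i => vx oo up E i) ⊆ (hn_fin r).toFinset := by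
    intro p hp
    obtain ⟨i, hi, rfl⟩ := Finset.mem_image.1 hp
    rw [Finset.mem_Icc] at hi
    rw [Set.Finite.mem_toFinset]
    exact hn1 i hi.2
  have h2 : ((Icc 1 E.length).image fun i => vx oo up E i).card = E.length := by
    rw [Finset.card_image_of_injOn, Nat.card_Icc]
    · omega
    · intro i hi j hj he
      rw [Finset.coe_Icc, Set.mem_Icc] at hi hj
      simp only at he
      rcases Nat.lt_trichotomy i j with h | h | h
      · exact absurd he (hS.inj i j h hj.2)
      · exact h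
      · exact absurd he.symm (hS.inj j i h hi.2)
  have h3 := Finset.card_le_card h1
  rw [h2] at h3
  exact h3

/-- the finite set of the half plane words of size less than `r` -/
noncomputable def HpF (r : ℕ) : Finset (List Bool) := (Hp_fin r).toFinset

lemma mem_HpF {r : ℕ} {E : List Bool} : E ∈ HpF r ↔ E ∈ Hp r := by
  unfold HpF
  rw [Set.Finite.mem_toFinset]

/-- sums over the cuts as sums over the ends -/
lemma cu_sum (r : ℕ) (φ : List Bool → ℝ) (t : List Bool) :
    ∑ k ∈ cu r t, φ (t.drop k) =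
      ∑ E ∈ HpF r, φ E * (TIP.ind (E <:+ t) * TIP.ind (t.take (t.length - E.length) ∈ Fe (2 * r))) := by
  have h1 : ∑ E ∈ HpF r, φ E * (TIP.ind (E <:+ t) * TIP.ind (t.take (t.length - E.length) ∈ Fe (2 * r))) =
      ∑ E ∈ (HpF r).filter (fun E => E <:+ t ∧ t.take (t.length - E.length) ∈ Fe (2 * r)), φ E := by
    rw [Finset.sum_filter]
    refine Finset.sum_congr rfl fun E _ => ?_
    unfold TIP.ind
    by_cases a : E <:+ t
    · by_cases b : t.take (t.length - E.length) ∈ Fe (2 * r)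
      · simp only [a, b, and_self, if_true, mul_one]
      · simp only [a, b, and_false, if_true, if_false, mul_zero]
    · simp only [a, false_and, if_false, zero_mul, mul_zero]
  rw [h1]
  refine Finset.sum_bij' (fun k _ => t.drop k) (fun E _ => t.length - E.length) ?_ ?_ ?_ ?_ ?_
  · intro k hk
    unfold cu at hk
    rw [Finset.mem_filter, Finset.mem_range] at hk
    rw [Finset.mem_filter, mem_HpF]
    refine ⟨hk.2.2, List.drop_suffix _ _, ?_⟩
    rw [List.length_drop, show t.length - (t.length - k) = k by omega]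
    exact hk.2.1
  · intro E hE
    rw [Finset.mem_filter, mem_HpF] at hE
    obtain ⟨h2, ⟨A, rfl⟩, h4⟩ := hE
    unfold cu
    rw [Finset.mem_filter, Finset.mem_range]
    refine ⟨by omega, h4, ?_⟩
    rw [List.length_append, Nat.add_sub_cancel, List.drop_left]
    exact h2
  · intro k hk
    unfold cu at hk
    rw [Finset.mem_filter, Finset.mem_range] at hk
    simp only [List.length_drop]
    omega
  · intro E hE
    rw [Finset.mem_filter, mem_HpF] at hE
    obtain ⟨h2, ⟨A, rfl⟩, h4⟩ := hE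
    rw [List.length_append, Nat.add_sub_cancel, List.drop_left]
  · intro k _
    rfl

/-- the number of the splittings of an end into a low bridge and an end -/
noncomputable def JJ (r : ℕ) (E : List Bool) : Finset ℕ :=
  (range (E.length + 1)).filter fun j => E.take j ∈ BU ∧ 3 * (hgt (E.take j) : ℤ) < r ∧ E.drop j ∈ Hp r

lemma sq_le_ord (s : Finset ℕ) : (s.card : ℝ) ^ 2 ≤ 2 * ∑ k ∈ s, ((s.filter fun k' => k ≤ k').card : ℝ) := by
  have h1 : ∀ k, ((s.filter fun k' => k ≤ k').card : ℝ) = ∑ k' ∈ s, if k ≤ k' then (1 : ℝ) else 0 := by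
    intro k
    rw [Finset.card_filter]
    push_cast
    rfl
  simp only [h1]
  have h2 : ∑ k ∈ s, ∑ k' ∈ s, (if k ≤ k' then (1 : ℝ) else 0) = ∑ k ∈ s, ∑ k' ∈ s, (if k' ≤ k then (1 : ℝ) else 0) :=
    Finset.sum_comm
  rw [two_mul]
  nth_rw 2 [h2]
  rw [← Finset.sum_add_distrib]
  have h3 : (s.card : ℝ) ^ 2 = ∑ k ∈ s, ∑ k' ∈ s, (1 : ℝ) := by
    rw [Finset.sum_const, Finset.sum_const, nsmul_eq_mul, nsmul_eq_mul, mul_one, sq]
  rw [h3]
  refine Finset.sum_le_sum fun k _ => ?_
  rw [← Finset.sum_add_distrib]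
  refine Finset.sum_le_sum fun k' _ => ?_
  rcases Nat.le_total k k' with h | h
  · rw [if_pos h]
    have : (0 : ℝ) ≤ if k' ≤ k then 1 else 0 := by split_ifs <;> norm_num
    linarith
  · rw [if_pos h]
    have : (0 : ℝ) ≤ if k ≤ k' then 1 else 0 := by split_ifs <;> norm_num
    linarith

/-- **the pairs of cuts** -/
theorem np_sq (r : ℕ) (t : List Bool) : NP r t ^ 2 ≤ 12 * ∑ k ∈ cu r t, ((JJ r (t.drop k)).card : ℝ) := by
  obtain ⟨dd, hdd⟩ : ∃ dd : ℕ → Pt, dd = fun k => de (t.take k) := ⟨_, rfl⟩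
  have hmap : ∀ k ∈ cu r t, dd k ∈ dirs := fun k _ => by
    rw [hdd]
    exact de_mem _
  have hc : NP r t = ∑ d ∈ dirs, (((cu r t).filter fun k => dd k = d).card : ℝ) := by
    unfold NP
    rw [Finset.card_eq_sum_card_fiberwise hmap]
    push_cast
    rfl
  have h6 : dirs.card = 6 := by decide
  have h1 : NP r t ^ 2 ≤ 6 * ∑ d ∈ dirs, (((cu r t).filter fun k => dd k = d).card : ℝ) ^ 2 := by
    rw [hc]
    have := sq_sum_le_card_mul_sum_sq (s := dirs) (f := fun d => (((cu r t).filter fun k => dd k = d).card : ℝ))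
    rw [h6] at this
    exact_mod_cast this
  have h2 : ∑ d ∈ dirs, (((cu r t).filter fun k => dd k = d).card : ℝ) ^ 2 ≤
      ∑ d ∈ dirs, ∑ k ∈ (cu r t).filter (fun k => dd k = d), 2 * ((JJ r (t.drop k)).card : ℝ) := by
    refine Finset.sum_le_sum fun d _ => (sq_le_ord _).trans ?_
    rw [Finset.mul_sum]
    refine Finset.sum_le_sum fun k hk => ?_
    refine mul_le_mul_of_nonneg_left ?_ (by norm_num)
    have h3 : (((cu r t).filter fun k => dd k = d).filter fun k' => k ≤ k').card ≤ (JJ r (t.drop k)).card := by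
      refine Finset.card_le_card_of_injOn (fun k' => k' - k) ?_ ?_
      · intro k' hk'
        rw [Finset.mem_coe, Finset.mem_filter, Finset.mem_filter] at hk'
        rw [Finset.mem_filter] at hk
        obtain ⟨⟨hk1, hk2⟩, hkk⟩ := hk'
        obtain ⟨hk3, hk4⟩ := hk
        unfold cu at hk1 hk3
        rw [Finset.mem_filter, Finset.mem_range] at hk1 hk3
        have e1 : t.take k' = t.take k ++ (t.drop k).take (k' - k) := by
          rw [← List.take_add, show k + (k' - k) = k' by omega]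
        have e2 : t.drop k' = (t.drop k).drop (k' - k) := by
          rw [List.drop_drop, show k + (k' - k) = k' by omega]
        have e3 : (t.drop k).take (k' - k) ++ (t.drop k).drop (k' - k) = t.drop k := List.take_append_drop _ _
        have e4 : de (t.take k') = de (t.take k) := by
          rw [hdd] at hk2 hk4
          exact hk2.trans hk4.symm
        have h5 := zbu r (t.take k) ((t.drop k).take (k' - k)) ((t.drop k).drop (k' - k)) (by
          rw [← e1]
          exact hk1.2.1) (by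
          rw [e3]
          exact hk3.2.2) (by rw [← e1]; exact e4)
        show k' - k ∈ (JJ r (t.drop k) : Set ℕ)
        rw [Finset.mem_coe]
        unfold JJ
        rw [Finset.mem_filter, Finset.mem_range, List.length_drop]
        refine ⟨by omega, h5.1, h5.2, ?_⟩
        rw [← e2]
        exact hk1.2.2
      · intro a ha b hb he
        rw [Finset.mem_coe, Finset.mem_filter] at ha hb
        simp only at he
        have := ha.2
        have := hb.2
        omega
    exact_mod_cast h3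
  have h4 : ∑ d ∈ dirs, ∑ k ∈ (cu r t).filter (fun k => dd k = d), 2 * ((JJ r (t.drop k)).card : ℝ) =
      ∑ k ∈ cu r t, 2 * ((JJ r (t.drop k)).card : ℝ) := Finset.sum_fiberwise_of_maps_to hmap _
  rw [h4, ← Finset.mul_sum] at h2
  linarith

/-- the splittings of all the ends: a product bound -/
lemma sum_JJ_le (r : ℕ) (f : List Bool → ℝ) (hf : ∀ E, 0 ≤ f E) (hpar : ∀ Z E, Z ∈ BU → f (Z ++ E) = f E) :
    ∑ E ∈ HpF r, ((JJ r E).card : ℝ) * (xc ^ E.length * f E) ≤ UU r * ∑ E ∈ HpF r, xc ^ E.length * f E := by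
  obtain ⟨BZ, hBZ⟩ : ∃ BZ, BZ = (HpF r).filter fun Z => Z ∈ BU ∧ 3 * (hgt Z : ℤ) < r := ⟨_, rfl⟩
  have hx := xc_pos
  have h1 : ∑ Z ∈ BZ, xc ^ Z.length ≤ UU r := by
    have h2 := TIP.gf_low r
    have h3 : gf (BZ : Set (List Bool)) ≤ gf {V | V ∈ BU ∧ hgt V ≤ r} := by
      refine gf_mono fun Z hZ => ?_
      rw [Finset.mem_coe, hBZ, Finset.mem_filter] at hZ
      refine ⟨hZ.2.1, ?_⟩
      have := hZ.2.2
      omega
    rw [gf_finset] at h3
    exact (ENNReal.ofReal_le_ofReal_iff (Num2Aux.UU_pos r).le).1 (h3.trans h2)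
  have h2 : ∑ E ∈ HpF r, ((JJ r E).card : ℝ) * (xc ^ E.length * f E) =
      ∑ E ∈ HpF r, ∑ j ∈ JJ r E, (xc ^ (E.take j).length * (xc ^ (E.drop j).length * f (E.drop j))) := by
    refine Finset.sum_congr rfl fun E _ => ?_
    rw [← nsmul_eq_mul, ← Finset.sum_const]
    refine Finset.sum_congr rfl fun j hj => ?_
    unfold JJ at hj
    rw [Finset.mem_filter, Finset.mem_range] at hj
    have e1 : E.take j ++ E.drop j = E := List.take_append_drop _ _
    have e2 := hpar (E.take j) (E.drop j) hj.2.1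
    rw [e1] at e2
    have e3 : E.length = (E.take j).length + (E.drop j).length := by
      rw [List.length_take, List.length_drop]
      omega
    rw [e2, ← mul_assoc, ← pow_add, ← e3]
  rw [h2, Finset.sum_sigma']
  have h3 : ∑ x ∈ (HpF r).sigma (fun E => JJ r E), (xc ^ (x.1.take x.2).length * (xc ^ (x.1.drop x.2).length *
      f (x.1.drop x.2))) = ∑ y ∈ ((HpF r).sigma (fun E => JJ r E)).image (fun x => (x.1.take x.2, x.1.drop x.2)),
      xc ^ y.1.length * (xc ^ y.2.length * f y.2) := by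
    rw [Finset.sum_image]
    rintro ⟨E, j⟩ hx1 ⟨E', j'⟩ hx2 he
    rw [Finset.mem_coe, Finset.mem_sigma] at hx1 hx2
    have e1 := congrArg Prod.fst he
    have e2 := congrArg Prod.snd he
    simp only at e1 e2
    have hj := hx1.2
    have hj' := hx2.2
    unfold JJ at hj hj'
    rw [Finset.mem_filter, Finset.mem_range] at hj hj'
    simp only at hj hj'
    have e3 : E = E' := by
      rw [← List.take_append_drop j E, ← List.take_append_drop j' E', e1, e2]
    subst e3
    have e4 := congrArg List.length e1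
    rw [List.length_take, List.length_take] at e4
    have e5 : j = j' := by omega
    subst e5
    rfl
  rw [h3]
  have h4 : ∑ y ∈ ((HpF r).sigma (fun E => JJ r E)).image (fun x => (x.1.take x.2, x.1.drop x.2)),
      xc ^ y.1.length * (xc ^ y.2.length * f y.2) ≤
      ∑ y ∈ BZ ×ˢ HpF r, xc ^ y.1.length * (xc ^ y.2.length * f y.2) := by
    refine Finset.sum_le_sum_of_subset_of_nonneg ?_ fun y _ _ => ?_
    · intro y hy
      obtain ⟨⟨E, j⟩, hx1, rfl⟩ := Finset.mem_image.1 hy
      rw [Finset.mem_sigma] at hx1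
      obtain ⟨hE, hj⟩ := hx1
      unfold JJ at hj
      rw [Finset.mem_filter, Finset.mem_range] at hj
      rw [Finset.mem_product, hBZ, Finset.mem_filter, mem_HpF, mem_HpF]
      refine ⟨⟨?_, hj.2.1, hj.2.2.1⟩, hj.2.2.2⟩
      rw [mem_HpF] at hE
      have e1 : E.take j ++ E.drop j = E := List.take_append_drop _ _
      rw [← e1] at hE
      exact Hp_pre hE
    · have := hf y.2
      positivity
  refine h4.trans ?_
  rw [Finset.sum_product]
  simp only [← Finset.mul_sum]
  rw [← Finset.sum_mul]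
  refine mul_le_mul_of_nonneg_right h1 (Finset.sum_nonneg fun E _ => ?_)
  have := hf E
  positivity

/-- **W2b: the second moment of the number of the cuts** -/
theorem mom2_of (hT : FeTog) : Mom2 := by
  refine ⟨13, by norm_num, fun p q hpq r hr => ?_⟩
  have hU1 : 1 ≤ UU r := by
    unfold UU
    have h1 : uu 0 ≤ ∑ t ∈ range (r + 1), uu t :=
      Finset.single_le_sum (f := uu) (fun t _ => (uu_pos t).le) (Finset.mem_range.2 (Nat.succ_pos r))
    rw [uu_zero] at h1
    exact h1
  have hx := xc_pos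
  obtain ⟨D, hD⟩ : ∃ D : ℝ, D = ∑ E ∈ HpF r, ((JJ r E).card : ℝ) + UU r * (HpF r).card := ⟨_, rfl⟩
  have hD0 : 0 ≤ D := by
    rw [hD]
    positivity
  obtain ⟨e, he⟩ : ∃ e : ℝ, e = 1 / (D + 1) := ⟨_, rfl⟩
  have he0 : 0 < e := by
    rw [he]
    positivity
  have heD : e * D ≤ 1 := by
    rw [he, div_mul_eq_mul_div, one_mul, div_le_one (by positivity)]
    linarith
  obtain ⟨g0, hg0⟩ : ∃ g0 : List Bool → ℝ, g0 = fun t => TIP.ind (t ∈ Fe (2 * r)) := ⟨_, rfl⟩
  have hind : ∀ P : Prop, 0 ≤ TIP.ind P ∧ TIP.ind P ≤ 1 := by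
    intro P
    unfold TIP.ind
    split_ifs <;> norm_num
  have hg01 : ∀ t, 0 ≤ g0 t ∧ g0 t ≤ 1 := fun t => by
    rw [hg0]
    exact hind _
  have hpf : ∀ E : List Bool, E ∈ HpF r → ∃ n0 : ℕ, ∀ n, n0 ≤ n →
      |(∑ t ∈ sawF n, p n t * (TIP.ind (E <:+ t) * g0 (t.take (t.length - E.length)))) -
      xc ^ E.length * (if E.length % 2 = 0 then ∑ t ∈ sawF n, p n t * g0 t else ∑ t ∈ sawF (n - 1), q n t * g0 t)| ≤ e := by
    intro E hE
    obtain ⟨n0, hn0⟩ := hpq.pf (2 * r + 2) E e he0
    refine ⟨n0, fun n hn => hn0 n hn g0 (fun t => ?_) ?_ ?_⟩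
    · rw [abs_of_nonneg (hg01 t).1]
      exact (hg01 t).2
    · rw [hg0]
      exact hT (2 * r) (2 * r + 2) le_rfl
    · intro A hA hSA
      refine fe_app hSA ?_ (mem_HpF.1 hE)
      by_contra hc
      apply hA
      rw [hg0]
      unfold TIP.ind
      exact if_neg hc
  choose! n0 hn0 using hpf
  refine ⟨(HpF r).sup n0, fun n hn => ?_⟩
  obtain ⟨m, hm⟩ : ∃ m : List Bool → ℝ, m = fun E => if E.length % 2 = 0 then ∑ t ∈ sawF n, p n t * g0 t else
    ∑ t ∈ sawF (n - 1), q n t * g0 t := ⟨_, rfl⟩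
  obtain ⟨F, hF⟩ : ∃ F : List Bool → ℝ, F = fun E =>
    ∑ t ∈ sawF n, p n t * (TIP.ind (E <:+ t) * g0 (t.take (t.length - E.length))) := ⟨_, rfl⟩
  have hm0 : ∀ E, 0 ≤ m E := by
    intro E
    rw [hm]
    simp only
    split_ifs
    · exact Finset.sum_nonneg fun t _ => mul_nonneg (hpq.p0 n t) (hg01 t).1
    · exact Finset.sum_nonneg fun t _ => mul_nonneg (hpq.q0 n t) (hg01 t).1
  have hFm : ∀ E ∈ HpF r, |F E - xc ^ E.length * m E| ≤ e := by
    intro E hE
    rw [hF, hm]
    exact hn0 E hE n ((Finset.le_sup hE).trans hn)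
  have hsum : ∀ φ : List Bool → ℝ, ∑ t ∈ sawF n, p n t * ∑ k ∈ cu r t, φ (t.drop k) = ∑ E ∈ HpF r, φ E * F E := by
    intro φ
    simp only [cu_sum, Finset.mul_sum]
    rw [Finset.sum_comm]
    refine Finset.sum_congr rfl fun E _ => ?_
    rw [hF, Finset.mul_sum]
    refine Finset.sum_congr rfl fun t _ => ?_
    rw [hg0]
    ring
  obtain ⟨M, hM⟩ : ∃ M : ℝ, M = ∑ t ∈ sawF n, p n t * NP r t := ⟨_, rfl⟩
  obtain ⟨S2, hS2⟩ : ∃ S2 : ℝ, S2 = ∑ t ∈ sawF n, p n t * NP r t ^ 2 := ⟨_, rfl⟩
  have hM1 : M = ∑ E ∈ HpF r, F E := by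
    have h1 := hsum (fun _ => 1)
    simp only [one_mul, Finset.sum_const, nsmul_eq_mul, mul_one] at h1
    rw [hM, ← h1]
    rfl
  have hM0 : 0 ≤ M := by
    rw [hM]
    exact Finset.sum_nonneg fun t _ => mul_nonneg (hpq.p0 n t) (Nat.cast_nonneg _)
  have h1 : S2 ≤ 12 * ∑ E ∈ HpF r, ((JJ r E).card : ℝ) * F E := by
    rw [← hsum (fun E => ((JJ r E).card : ℝ)), hS2, Finset.mul_sum]
    refine Finset.sum_le_sum fun t _ => ?_
    calc p n t * NP r t ^ 2 ≤ p n t * (12 * ∑ k ∈ cu r t, ((JJ r (t.drop k)).card : ℝ)) :=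
          mul_le_mul_of_nonneg_left (np_sq r t) (hpq.p0 n t)
      _ = _ := by ring
  have h2 : ∑ E ∈ HpF r, ((JJ r E).card : ℝ) * F E ≤
      ∑ E ∈ HpF r, ((JJ r E).card : ℝ) * (xc ^ E.length * m E) + e * ∑ E ∈ HpF r, ((JJ r E).card : ℝ) := by
    rw [Finset.mul_sum, ← Finset.sum_add_distrib]
    refine Finset.sum_le_sum fun E hE => ?_
    have h3 := (abs_le.1 (hFm E hE)).2
    have h4 : (0 : ℝ) ≤ ((JJ r E).card : ℝ) := Nat.cast_nonneg _
    nlinarith
  have h3 := sum_JJ_le r m hm0 (fun Z E hZ => by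
    have hev : Z.length % 2 = 0 := by
      obtain ⟨T, hT⟩ := hZ
      have h5 := (mem_Brd.1 hT).2.2.1
      have h6 := cl_dx up Z Z.length
      by_contra hodd
      rw [if_neg (by rwa [Nat.even_iff]), h5] at h6
      revert h6
      decide
    have h7 : (Z ++ E).length % 2 = E.length % 2 := by
      rw [List.length_append]
      omega
    rw [hm]
    simp only [h7])
  have h4 : ∑ E ∈ HpF r, xc ^ E.length * m E ≤ M + e * (HpF r).card := by
    rw [hM1, ← nsmul_eq_mul', ← Finset.sum_const, ← Finset.sum_add_distrib]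
    refine Finset.sum_le_sum fun E hE => ?_
    have := (abs_le.1 (hFm E hE)).1
    linarith
  have h5 : S2 ≤ 12 * (UU r * M + 1) := by
    have h6 : UU r * ∑ E ∈ HpF r, xc ^ E.length * m E ≤ UU r * (M + e * (HpF r).card) :=
      mul_le_mul_of_nonneg_left h4 (by linarith)
    have h7 : e * ∑ E ∈ HpF r, ((JJ r E).card : ℝ) + UU r * (e * (HpF r).card) ≤ 1 := by
      refine le_trans (le_of_eq ?_) heD
      rw [hD]
      ring
    nlinarith
  have h6 : M ^ 2 ≤ S2 := by
    have h7 : ∑ t ∈ sawF n, p n t * (2 * M * NP r t) ≤ ∑ t ∈ sawF n, p n t * (M ^ 2 + NP r t ^ 2) := by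
      refine Finset.sum_le_sum fun t _ => mul_le_mul_of_nonneg_left ?_ (hpq.p0 n t)
      nlinarith [sq_nonneg (M - NP r t)]
    have h8 : ∑ t ∈ sawF n, p n t * (2 * M * NP r t) = 2 * M * M := by
      nth_rw 3 [hM]
      rw [Finset.mul_sum]
      exact Finset.sum_congr rfl fun t _ => by ring
    have h9 : ∑ t ∈ sawF n, p n t * (M ^ 2 + NP r t ^ 2) = M ^ 2 * ∑ t ∈ sawF n, p n t + S2 := by
      rw [hS2, Finset.mul_sum, ← Finset.sum_add_distrib]
      exact Finset.sum_congr rfl fun t _ => by ring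
    have h10 : M ^ 2 * ∑ t ∈ sawF n, p n t ≤ M ^ 2 := mul_le_of_le_one_right (sq_nonneg M) (hpq.p1 n)
    rw [h8, h9] at h7
    nlinarith
  have h7 : M ≤ 13 * UU r := by
    by_contra hc
    rw [not_le] at hc
    nlinarith
  rw [← hS2]
  nlinarith

end TIW

end HexObs
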