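import Pool.Agent.TIW.Lit

/-!
TIW, row W3o (helper41): the choice of the offset, by averaging over K offsets.
-/

set_option autoImplicit false

namespace HexObs

namespace TIW

open Finset

namespace OffA

open Classical in
/-- the number of bad offsets of one number -/
lemma cnt (x h : ℝ) (hh : 0 ≤ h) (K : ℕ) (hK : 1 ≤ K) :
    (((range K).filter fun j : ℕ => ∃ m : ℤ, |x + j / K - m| ≤ h).card : ℝ) ≤ 2 * h * K + 1 := by
  have hK0 : (0 : ℝ) < K := by exact_mod_cast hK
  obtain ⟨a, ha⟩ : ∃ a : ℝ, a = -(K * x) - h * K := ⟨_, rfl⟩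
  obtain ⟨b, hb⟩ : ∃ b : ℝ, b = -(K * x) + h * K := ⟨_, rfl⟩
  have hex : ∀ j : ℕ, ∃ m : ℤ, (∃ m : ℤ, |x + j / K - m| ≤ h) → |x + j / K - m| ≤ h := by
    intro j
    by_cases hj : ∃ m : ℤ, |x + j / K - m| ≤ h
    · obtain ⟨m, hm⟩ := hj
      exact ⟨m, fun _ => hm⟩
    · exact ⟨0, fun hc => absurd hc hj⟩
  choose m hm using hex
  have h1 : ((range K).filter fun j : ℕ => ∃ m : ℤ, |x + j / K - m| ≤ h).card ≤ (Icc ⌈a⌉ ⌊b⌋).card := by
    refine card_le_card_of_injOn (fun j => (j : ℤ) - K * m j) ?_ ?_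
    · intro j hj
      rw [mem_coe, mem_filter] at hj
      have h2 := hm j hj.2
      rw [abs_le] at h2
      rw [mem_coe, mem_Icc, Int.ceil_le, Int.le_floor]
      push_cast
      have e1 : (x + j / K - m j) * K = K * x + j - K * m j := by
        field_simp
      have e2 : -h * K ≤ (x + j / K - m j) * K := mul_le_mul_of_nonneg_right h2.1 hK0.le
      have e3 : (x + j / K - m j) * K ≤ h * K := mul_le_mul_of_nonneg_right h2.2 hK0.le
      rw [e1] at e2 e3
      constructor <;> linarith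
    · intro i hi j hj hij
      rw [mem_coe, mem_filter, mem_range] at hi hj
      simp only at hij
      have h2 : (i : ℤ) - j = K * (m i - m j) := by
        linarith
      have h3 : m i - m j = 0 := by
        by_contra hne
        have h4 : 1 ≤ |m i - m j| := Int.one_le_abs hne
        have h5 : |(i : ℤ) - j| = K * |m i - m j| := by
          rw [h2, abs_mul, Nat.abs_cast]
        have h6 : |(i : ℤ) - j| < K := by
          rw [abs_lt]
          constructor <;> omega
        have h7 : (K : ℤ) * 1 ≤ K * |m i - m j| := mul_le_mul_of_nonneg_left h4 (by positivity)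
        omega
      rw [h3, mul_zero] at h2
      omega
  have h2 : ((Icc ⌈a⌉ ⌊b⌋).card : ℝ) ≤ 2 * h * K + 1 := by
    rw [Int.card_Icc]
    have h3 : ((⌊b⌋ + 1 - ⌈a⌉ : ℤ) : ℝ) ≤ 2 * h * K + 1 := by
      push_cast
      have e1 := Int.floor_le b
      have e2 := Int.le_ceil a
      have e3 : b - a = 2 * h * K := by
        rw [ha, hb]
        ring
      linarith
    have h4 : (((⌊b⌋ + 1 - ⌈a⌉ : ℤ).toNat : ℤ) : ℝ) = max ((⌊b⌋ + 1 - ⌈a⌉ : ℤ) : ℝ) 0 := by
      rw [Int.toNat_eq_max]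
      push_cast
      rfl
    have h5 : (((⌊b⌋ + 1 - ⌈a⌉ : ℤ).toNat : ℕ) : ℝ) = max ((⌊b⌋ + 1 - ⌈a⌉ : ℤ) : ℝ) 0 := by
      rw [← h4]
      rfl
    rw [h5]
    exact max_le h3 (by positivity)
  exact (Nat.cast_le.2 h1).trans h2

end OffA

open OffA

/-- **W3o** -/
theorem offs : Offs := by
  classical
  intro ι s w x h K hK hw hh
  have hK0 : (0 : ℝ) < K := by exact_mod_cast hK
  have hsum : ∑ j ∈ range K, ∑ i ∈ s, w i * TIP.ind (∃ m : ℤ, |x i + j / K - m| ≤ h i) ≤
      ∑ _j ∈ range K, ∑ i ∈ s, w i * (2 * h i + 2 / K) := by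
    rw [sum_comm, sum_const, card_range, nsmul_eq_mul, mul_sum]
    refine sum_le_sum fun i hi => ?_
    rw [← mul_sum]
    have h1 : ∑ j ∈ range K, TIP.ind (∃ m : ℤ, |x i + j / K - m| ≤ h i) =
        (((range K).filter fun j : ℕ => ∃ m : ℤ, |x i + j / K - m| ≤ h i).card : ℝ) := by
      rw [card_filter]
      push_cast
      refine sum_congr rfl fun j _ => ?_
      by_cases hj : ∃ m : ℤ, |x i + j / K - m| ≤ h i
      · rw [TIP.ind_pos hj, if_pos hj]
      · rw [TIP.ind_neg hj, if_neg hj]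
    rw [h1]
    have h2 := cnt (x i) (h i) (hh i hi) K hK
    calc w i * (((range K).filter fun j : ℕ => ∃ m : ℤ, |x i + j / K - m| ≤ h i).card : ℝ) ≤ w i * (2 * h i * K + 2) :=
          mul_le_mul_of_nonneg_left (by linarith) (hw i hi)
      _ = K * (w i * (2 * h i + 2 / K)) := by
          field_simp
  obtain ⟨j, hj, hle⟩ := exists_le_of_sum_le (nonempty_range_iff.2 (by omega)) hsum
  exact ⟨j, mem_range.1 hj, hle⟩

end TIW

end HexObs
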