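import Pool.Agent.TIW.Osc
import Pool.Agent.TIW.Offs

/-!
# TIW, the family of the functions of the far pattern (helper69)

`UnI M i rho R a v`: the words at which one of the weights of the scales `R j`, `i < j < M`, is near a jump of the
discretisation (tolerance: the oscillation of the weight under an end of size less than `rho`).

* **`patI`**: a function of the far pattern of the discretised weights is a family `Pat` with these unstable words;
* **`offI`**: there is an offset `v` for which the mass of the cuts with an unstable far part is small, for finitely many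
  measures and all the scales at once.
-/

set_option autoImplicit false

namespace HexObs

namespace TIW

open Finset TS SDN OscA

/-- the unstable words -/
def UnI (M i rho : ℕ) (R : ℕ → ℕ) (a : ℕ → ℝ) (v : ℝ) : Set (List Bool) :=
  {A | ∃ j, i < j ∧ j < M ∧ ∃ y, y < 2 ∧ ∃ m : ℤ, |Nw (R j) y A / a j + v - m| ≤ 32 * rho / R j * NM (R j) A / a j}

namespace PatA

lemma Nw_mod (r y : ℕ) (t : List Bool) : Nw r (y % 2) t = Nw r y t := by
  unfold Nw
  rw [Nat.mod_mod]

lemma Nw_two (r y : ℕ) (t : List Bool) : Nw r (y + 2) t = Nw r y t := by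
  unfold Nw
  rw [Nat.add_mod_right]

/-- far from the jumps the floor does not change -/
lemma floor_eq {x x' h : ℝ} (h1 : |x' - x| ≤ h) (h2 : ∀ m : ℤ, h < |x - m|) : ⌊x'⌋ = ⌊x⌋ := by
  rw [abs_le] at h1
  rcases lt_trichotomy ⌊x'⌋ ⌊x⌋ with hl | he | hl
  · exfalso
    have h3 : x' < (⌊x⌋ : ℤ) := Int.floor_lt.1 hl
    have h4 := Int.floor_le x
    have h5 := h2 ⌊x⌋
    rw [abs_of_nonneg (by linarith)] at h5
    linarith
  · exact he
  · exfalso
    have h3 : x < (⌊x'⌋ : ℤ) := Int.floor_lt.1 hl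
    have h4 := Int.floor_le x'
    have h5 := h2 ⌊x'⌋
    rw [abs_of_neg (by linarith)] at h5
    linarith

end PatA

open PatA

/-- **the functions of the far pattern are families with the unstable words `UnI`** -/
theorem patI (hT : NwTog) (M i rho R0 : ℕ) (R : ℕ → ℕ) (a : ℕ → ℝ) (v : ℝ) (φ : (ℕ → ℤ) → ℝ) (hφ : ∀ x, |φ x| ≤ 1)
    (hrho : 1 ≤ rho) (ha : ∀ j, 0 < a j) (hR : ∀ j, i < j → j < M → 128 * rho ≤ R j)
    (hR0 : ∀ j, i < j → j < M → 8 * R j + 8 ≤ R0) :
    Pat rho R0 (fun y t => φ (TIP.pd (fun j t => Dw (R j) y (a j) v t) (i + 1) M t)) (UnI M i rho R a v) := by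
  refine ⟨fun y t => hφ _, fun y => ?_, fun y => ?_, ?_, ?_⟩
  · funext t
    show φ _ = φ _
    congr 1
    funext j
    have e : Dw (R j) (y + 2) (a j) v t = Dw (R j) y (a j) v t := by
      unfold Dw
      rw [Nw_two]
    unfold TIP.pd
    by_cases hj : i + 1 ≤ j ∧ j < M
    · rw [if_pos hj, if_pos hj]
      exact e
    · rw [if_neg hj, if_neg hj]
  · intro X Y h3 hf hs hl
    show φ _ = φ _
    congr 1
    funext j
    unfold TIP.pd
    by_cases hj : i + 1 ≤ j ∧ j < M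
    · rw [if_pos hj, if_pos hj]
      show Dw _ _ _ _ _ = Dw _ _ _ _ _
      unfold Dw
      rw [(hT (R j) y R0 (hR0 j (by omega) hj.2)).1 X Y h3 hf hs hl]
    · rw [if_neg hj, if_neg hj]
  · intro X Y h3 hf hs hl
    refine TIP.ind_congr ?_
    have key : ∀ j, i < j → j < M → ∀ y, Nw (R j) y (X ++ (TOG.pS ++ Y)) = Nw (R j) y (X ++ (TOG.pL ++ Y)) ∧
        NM (R j) (X ++ (TOG.pS ++ Y)) = NM (R j) (X ++ (TOG.pL ++ Y)) := fun j h1 h2 y =>
      ⟨(hT (R j) y R0 (hR0 j h1 h2)).1 X Y h3 hf hs hl, (hT (R j) y R0 (hR0 j h1 h2)).2.2 X Y h3 hf hs hl⟩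
    constructor
    · rintro ⟨j, h1, h2, y, hy, m, hm⟩
      refine ⟨j, h1, h2, y, hy, m, ?_⟩
      rwa [(key j h1 h2 y).1, (key j h1 h2 y).2] at hm
    · rintro ⟨j, h1, h2, y, hy, m, hm⟩
      refine ⟨j, h1, h2, y, hy, m, ?_⟩
      rwa [(key j h1 h2 y).1, (key j h1 h2 y).2]
  · intro y A Y hS hY
    show |φ _ - φ _| ≤ _
    by_cases hU : A ∈ UnI M i rho R a v
    · rw [TIP.ind_pos hU, mul_one]
      have h1 := hφ (TIP.pd (fun j t => Dw (R j) y (a j) v t) (i + 1) M (A ++ Y))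
      have h2 := hφ (TIP.pd (fun j t => Dw (R j) (y + Y.length) (a j) v t) (i + 1) M A)
      exact (abs_sub _ _).trans (by linarith)
    · have e : TIP.pd (fun j t => Dw (R j) y (a j) v t) (i + 1) M (A ++ Y) =
          TIP.pd (fun j t => Dw (R j) (y + Y.length) (a j) v t) (i + 1) M A := by
        funext j
        unfold TIP.pd
        by_cases hj : i + 1 ≤ j ∧ j < M
        · rw [if_pos hj, if_pos hj]
          have h1 := (osc (R j) rho y A Y (hR j (by omega) hj.2) hrho hS hY).1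
          have ha' := ha j
          unfold Dw
          refine floor_eq (h := 32 * rho / R j * NM (R j) A / a j) ?_ fun m => ?_
          · have e1 : Nw (R j) y (A ++ Y) / a j + v - (Nw (R j) (y + Y.length) A / a j + v) =
                (Nw (R j) y (A ++ Y) - Nw (R j) (y + Y.length) A) / a j := by ring
            rw [e1, abs_div, abs_of_pos ha']
            exact div_le_div_of_nonneg_right h1 ha'.le
          · by_contra hc
            rw [not_lt] at hc
            refine hU ⟨j, by omega, hj.2, (y + Y.length) % 2, Nat.mod_lt _ (by norm_num), m, ?_⟩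
            rw [Nw_mod]
            exact hc
        · rw [if_neg hj, if_neg hj]
      rw [e, sub_self, abs_zero]
      exact mul_nonneg (by norm_num) (TIP.ind_nonneg _)

/-- **the choice of the offset** -/
theorem offI (κ : Type) (Kf : Finset κ) (S : κ → Finset (List Bool)) (p : κ → List Bool → ℝ) (hp : ∀ k t, 0 ≤ p k t)
    (hS : ∀ k ∈ Kf, ∀ t ∈ S k, t ∈ SA) (M N : ℕ) (rr rho R : ℕ → ℕ) (a : ℕ → ℝ) (hN : 1 ≤ N) (ha : ∀ j, 0 < a j)
    (hr : ∀ i, 1 ≤ rr i ∧ rr i ≤ rho i) (hR : ∀ i j, i < j → j < M → 128 * rho i ≤ R j) :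
    ∃ v : ℝ, 0 ≤ v ∧ v < 1 ∧ ∀ k ∈ Kf, ∀ i, i < M →
      ∑ t ∈ S k, p k t * ∑ c ∈ cu (rr i) t, TIP.ind (t.take c ∈ UnI M i (rho i) R a v) ≤
      ∑ k ∈ Kf, ∑ i ∈ range M, ∑ j ∈ (range M).filter (fun j => i < j),
        2 * ∑ t ∈ S k, p k t * (NP (rr i) t * (64 * rho i / (R j * a j) * NP (R j) t + 2 / N)) := by
  classical
  have hN0 : (0 : ℝ) < N := by exact_mod_cast hN
  have hNM0 : ∀ r A, 0 ≤ NM r A := fun r A => by
    unfold NM
    positivity
  have hNP0 : ∀ r A, 0 ≤ NP r A := fun r A => by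
    unfold NP
    positivity
  -- the bound of the tolerance
  have htol : ∀ k ∈ Kf, ∀ i j, i < j → j < M → ∀ t ∈ S k, ∀ c ∈ cu (rr i) t,
      NM (R j) (t.take c) ≤ NP (R j) t := by
    intro k hk i j hij hj t ht c hc
    have h1 : t.take c ++ t.drop c = t := List.take_append_drop _ _
    have h2 := (osc (R j) (rho i) 0 (t.take c) (t.drop c) (hR i j hij hj) ((hr i).1.trans (hr i).2)
      (by rw [h1]; exact hS k hk t ht) (fun l hl => ?_)).2
    · rwa [h1] at h2
    · unfold cu at hc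
      rw [mem_filter] at hc
      have h3 := hc.2.2.2 l hl
      have h4 : ((rr i : ℕ) : ℤ) ≤ rho i := by exact_mod_cast (hr i).2
      linarith
  obtain ⟨F, hF⟩ : ∃ F : ℝ → κ → ℕ → ℕ → ℕ → List Bool → ℕ → ℝ, F = fun v k i j y t c =>
    TIP.ind (∃ m : ℤ, |Nw (R j) y (t.take c) / a j + v - m| ≤ 32 * rho i / R j * NM (R j) (t.take c) / a j) :=
    ⟨_, rfl⟩
  have hF0 : ∀ v k i j y t c, 0 ≤ F v k i j y t c := fun v k i j y t c => by
    rw [hF]
    exact TIP.ind_nonneg _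
  obtain ⟨q, hq, hle⟩ := offs (Σ _ : κ, Σ _ : ℕ, Σ _ : ℕ, Σ _ : ℕ, Σ _ : List Bool, ℕ)
    (Kf.sigma fun k => (range M).sigma fun i => ((range M).filter fun j => i < j).sigma fun _ => (range 2).sigma fun _ =>
      (S k).sigma fun t => cu (rr i) t)
    (fun x => p x.1 x.2.2.2.2.1)
    (fun x => Nw (R x.2.2.1) x.2.2.2.1 (x.2.2.2.2.1.take x.2.2.2.2.2) / a x.2.2.1)
    (fun x => 32 * rho x.2.1 / R x.2.2.1 * NM (R x.2.2.1) (x.2.2.2.2.1.take x.2.2.2.2.2) / a x.2.2.1) N hN
    (fun x _ => hp _ _) (fun x _ => by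
      have h1 := ha x.2.2.1
      have h2 := hNM0 (R x.2.2.1) (x.2.2.2.2.1.take x.2.2.2.2.2)
      positivity)
  simp only [sum_sigma] at hle
  refine ⟨(q : ℝ) / N, by positivity, ?_, ?_⟩
  · rw [div_lt_one hN0]
    exact_mod_cast hq
  intro k hk i hi
  -- the left side is part of the sum
  have h1 : ∑ t ∈ S k, p k t * ∑ c ∈ cu (rr i) t, TIP.ind (t.take c ∈ UnI M i (rho i) R a ((q : ℝ) / N)) ≤
      ∑ j ∈ (range M).filter (fun j => i < j), ∑ y ∈ range 2, ∑ t ∈ S k, ∑ c ∈ cu (rr i) t,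
        p k t * F ((q : ℝ) / N) k i j y t c := by
    have e : ∑ j ∈ (range M).filter (fun j => i < j), ∑ y ∈ range 2, ∑ t ∈ S k, ∑ c ∈ cu (rr i) t,
        p k t * F ((q : ℝ) / N) k i j y t c = ∑ t ∈ S k, p k t * ∑ c ∈ cu (rr i) t,
        ∑ j ∈ (range M).filter (fun j => i < j), ∑ y ∈ range 2, F ((q : ℝ) / N) k i j y t c := by
      have e1 : ∀ j, ∑ y ∈ range 2, ∑ t ∈ S k, ∑ c ∈ cu (rr i) t, p k t * F ((q : ℝ) / N) k i j y t c =
          ∑ t ∈ S k, ∑ c ∈ cu (rr i) t, p k t * ∑ y ∈ range 2, F ((q : ℝ) / N) k i j y t c := by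
        intro j
        rw [sum_comm]
        refine sum_congr rfl fun t _ => ?_
        rw [sum_comm]
        refine sum_congr rfl fun c _ => ?_
        rw [mul_sum]
      rw [sum_congr rfl fun j _ => e1 j, sum_comm]
      refine sum_congr rfl fun t _ => ?_
      rw [sum_comm, mul_sum]
      refine sum_congr rfl fun c _ => ?_
      rw [mul_sum]
    rw [e]
    refine sum_le_sum fun t _ => mul_le_mul_of_nonneg_left (sum_le_sum fun c _ => ?_) (hp k t)
    have hs0 : 0 ≤ ∑ j ∈ (range M).filter (fun j => i < j), ∑ y ∈ range 2, F ((q : ℝ) / N) k i j y t c :=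
      sum_nonneg fun _ _ => sum_nonneg fun _ _ => hF0 _ _ _ _ _ _ _
    by_cases hU : t.take c ∈ UnI M i (rho i) R a ((q : ℝ) / N)
    · rw [TIP.ind_pos hU]
      obtain ⟨j, hj1, hj2, y, hy, hm⟩ := hU
      have h2 : F ((q : ℝ) / N) k i j y t c = 1 := by
        rw [hF]
        exact TIP.ind_pos hm
      have h3 : F ((q : ℝ) / N) k i j y t c ≤ ∑ y ∈ range 2, F ((q : ℝ) / N) k i j y t c :=
        single_le_sum (f := fun y => F ((q : ℝ) / N) k i j y t c) (fun _ _ => hF0 _ _ _ _ _ _ _) (mem_range.2 hy)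
      have h4 : ∑ y ∈ range 2, F ((q : ℝ) / N) k i j y t c ≤
          ∑ j ∈ (range M).filter (fun j => i < j), ∑ y ∈ range 2, F ((q : ℝ) / N) k i j y t c :=
        single_le_sum (f := fun j => ∑ y ∈ range 2, F ((q : ℝ) / N) k i j y t c)
          (fun _ _ => sum_nonneg fun _ _ => hF0 _ _ _ _ _ _ _) (mem_filter.2 ⟨mem_range.2 hj2, hj1⟩)
      linarith
    · rw [TIP.ind_neg hU]
      exact hs0
  have hz : ∀ k i, 0 ≤ ∑ j ∈ (range M).filter (fun j => i < j), ∑ y ∈ range 2, ∑ t ∈ S k, ∑ c ∈ cu (rr i) t,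
      p k t * F ((q : ℝ) / N) k i j y t c := fun k i =>
    sum_nonneg fun _ _ => sum_nonneg fun _ _ => sum_nonneg fun _ _ => sum_nonneg fun _ _ =>
      mul_nonneg (hp _ _) (hF0 _ _ _ _ _ _ _)
  have h2 : ∑ j ∈ (range M).filter (fun j => i < j), ∑ y ∈ range 2, ∑ t ∈ S k, ∑ c ∈ cu (rr i) t,
        p k t * F ((q : ℝ) / N) k i j y t c ≤
      ∑ k ∈ Kf, ∑ i ∈ range M, ∑ j ∈ (range M).filter (fun j => i < j), ∑ y ∈ range 2, ∑ t ∈ S k, ∑ c ∈ cu (rr i) t,
        p k t * F ((q : ℝ) / N) k i j y t c := by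
    refine le_trans (single_le_sum (f := fun i => ∑ j ∈ (range M).filter (fun j => i < j), ∑ y ∈ range 2,
      ∑ t ∈ S k, ∑ c ∈ cu (rr i) t, p k t * F ((q : ℝ) / N) k i j y t c) (fun i _ => hz k i) (mem_range.2 hi)) ?_
    exact single_le_sum (f := fun k => ∑ i ∈ range M, ∑ j ∈ (range M).filter (fun j => i < j), ∑ y ∈ range 2,
      ∑ t ∈ S k, ∑ c ∈ cu (rr i) t, p k t * F ((q : ℝ) / N) k i j y t c)
      (fun k _ => sum_nonneg fun i _ => hz k i) hk
  refine h1.trans (h2.trans ?_)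
  have h3 : ∑ k ∈ Kf, ∑ i ∈ range M, ∑ j ∈ (range M).filter (fun j => i < j), ∑ y ∈ range 2, ∑ t ∈ S k,
      ∑ c ∈ cu (rr i) t, p k t * F ((q : ℝ) / N) k i j y t c ≤
      ∑ k ∈ Kf, ∑ i ∈ range M, ∑ j ∈ (range M).filter (fun j => i < j), ∑ y ∈ range 2, ∑ t ∈ S k,
      ∑ c ∈ cu (rr i) t, p k t * (2 * (32 * rho i / R j * NM (R j) (t.take c) / a j) + 2 / N) := by
    rw [hF]
    exact hle
  refine h3.trans ?_
  refine sum_le_sum fun k hk => sum_le_sum fun i _ => sum_le_sum fun j hj => ?_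
  rw [mem_filter, mem_range] at hj
  rw [sum_const, card_range, nsmul_eq_mul]
  push_cast
  refine mul_le_mul_of_nonneg_left (sum_le_sum fun t ht => ?_) (by norm_num)
  rw [← mul_sum]
  refine mul_le_mul_of_nonneg_left ?_ (hp k t)
  have h4 : ∑ c ∈ cu (rr i) t, (2 * (32 * rho i / R j * NM (R j) (t.take c) / a j) + 2 / (N : ℝ)) ≤
      ∑ _c ∈ cu (rr i) t, (64 * rho i / (R j * a j) * NP (R j) t + 2 / (N : ℝ)) := by
    refine sum_le_sum fun c hc => ?_
    have h5 := htol k hk i j hj.2 hj.1 t ht c hc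
    have e : 2 * (32 * rho i / R j * NM (R j) (t.take c) / a j) =
        64 * rho i / (R j * a j) * NM (R j) (t.take c) := by
      rw [mul_comm (R j : ℝ) (a j), ← div_div]
      ring
    rw [e]
    have h6 : (0 : ℝ) ≤ 64 * rho i / (R j * a j) := by
      have := ha j
      positivity
    have h7 := mul_le_mul_of_nonneg_left h5 h6
    linarith
  refine h4.trans (le_of_eq ?_)
  rw [sum_const, nsmul_eq_mul]
  rfl

end TIW

end HexObs
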