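import Pool.Agent.TIW.LowF
import Pool.Agent.TIW.PatI
import Pool.Agent.TIW.InsA

/-!
# TIW W5: the local limit at the tip (helper10)

From the rows of TIW/Lit (`FeTog`, `NwTog`, `NiceSt`) and the soft part (TIP/SoftW): for an event `Q` that is a function
of the end at all large scales the probabilities of `Q` for two admissible ensembles and all large `n` are close to the
same multiple of the masses.
-/

set_option autoImplicit false

namespace HexObs

namespace TIW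

open Finset TS SDN Filter

namespace LimA

lemma one_le_Ub (b : ℕ) : 1 ≤ Ub b := by
  have h1 : uu 0 ≤ UU (2 ^ b) := by
    unfold UU
    exact Finset.single_le_sum (f := fun t => uu t) (fun t _ => TH7.uu_nonneg t)
      (Finset.mem_range.2 (Nat.succ_pos _))
  rw [uu_zero] at h1
  exact h1

/-- sparse scales -/
lemma windows (th : ℕ → ℝ) (L0 : ℕ) : ∃ l : ℕ → ℕ, (∀ i, L0 ≤ l i) ∧ ∀ i j, i < j → l i < l j ∧ th (l i) ≤ 2 ^ (l j) := by
  obtain ⟨l, hl⟩ : ∃ l : ℕ → ℕ, l = fun i => Nat.rec L0 (fun _ a => a + 1 + ⌈th a⌉₊) i := ⟨_, rfl⟩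
  have h0 : l 0 = L0 := by
    rw [hl]
    rfl
  have hs : ∀ i, l (i + 1) = l i + 1 + ⌈th (l i)⌉₊ := fun i => by rw [hl]
  have hlt : ∀ i, l i < l (i + 1) := fun i => by
    rw [hs]
    omega
  have hmono : StrictMono l := strictMono_nat_of_lt_succ hlt
  refine ⟨l, fun i => ?_, fun i j hij => ⟨hmono hij, ?_⟩⟩
  · rw [← h0]
    exact hmono.monotone (Nat.zero_le i)
  · have h1 : l (i + 1) ≤ l j := hmono.monotone hij
    have h2 : ⌈th (l i)⌉₊ ≤ l (i + 1) := by
      rw [hs]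
      omega
    calc th (l i) ≤ ⌈th (l i)⌉₊ := Nat.le_ceil _
      _ ≤ (l j : ℝ) := by exact_mod_cast h2.trans h1
      _ ≤ 2 ^ (l j) := by
        have := (Nat.lt_two_pow_self (n := l j)).le
        exact_mod_cast this

lemma Nw_nonneg (r y : ℕ) (t : List Bool) : 0 ≤ Nw r y t := by
  unfold Nw
  exact sum_nonneg fun k _ => chi_nonneg _ _

lemma Nw_le_NP (r y : ℕ) (t : List Bool) : Nw r y t ≤ NP r t := by
  unfold Nw NP
  calc ∑ k ∈ (cu r t).filter (fun k => (t.drop k).length % 2 = y % 2), chi r (t.drop k) ≤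
      ∑ k ∈ (cu r t).filter (fun k => (t.drop k).length % 2 = y % 2), (1 : ℝ) := sum_le_sum fun k _ => chi_le _ _
    _ = ((cu r t).filter (fun k => (t.drop k).length % 2 = y % 2)).card := by rw [sum_const, nsmul_eq_mul, mul_one]
    _ ≤ (cu r t).card := by exact_mod_cast card_le_card (filter_subset _ _)

lemma NP_nonneg (r : ℕ) (t : List Bool) : 0 ≤ NP r t := by
  unfold NP
  positivity

lemma sawF_SA {n : ℕ} {t : List Bool} (h : t ∈ sawF n) : t ∈ SA := (mem_sawF.1 h).2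

/-- the discretisation -/
lemma disc {δ U x v : ℝ} (hδ : 0 < δ) (hU : 0 < U) (hv0 : 0 ≤ v) (hv1 : v < 1) :
    |x / U - δ * (⌊x / (δ * U) + v⌋ : ℤ)| ≤ δ := by
  have h1 : x / U = δ * (x / (δ * U)) := by field_simp
  rw [h1, ← mul_sub, abs_mul, abs_of_pos hδ]
  have h2 := Int.floor_le (x / (δ * U) + v)
  have h3 := Int.lt_floor_add_one (x / (δ * U) + v)
  have h4 : |x / (δ * U) - (⌊x / (δ * U) + v⌋ : ℤ)| ≤ 1 := by
    rw [abs_le]
    constructor <;> linarith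
  calc δ * |x / (δ * U) - (⌊x / (δ * U) + v⌋ : ℤ)| ≤ δ * 1 := mul_le_mul_of_nonneg_left h4 hδ.le
    _ = δ := mul_one δ

/-- the mass of an event under an ensemble dominated by the uniform one -/
lemma ms_le {p : ℕ → List Bool → ℝ} (hp : ∀ n t, p n t ≤ 1 / cS n) (n : ℕ) (A : Set (List Bool)) :
    TIP.ms (sawF n) (p n) (fun t => t ∈ A) ≤ TOG.Pn n A := by
  classical
  unfold TIP.ms TOG.Pn
  have hfin : {t | t ∈ SawN n ∧ t ∈ A}.Finite := (sawN_fin n).subset fun t ht => ht.1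
  have e : {t | t ∈ SawN n ∧ t ∈ A} = ↑((sawF n).filter fun t => t ∈ A) := by
    ext t
    rw [coe_filter]
    constructor
    · rintro ⟨h1, h2⟩
      exact ⟨mem_sawF.2 h1, h2⟩
    · rintro ⟨h1, h2⟩
      exact ⟨mem_sawF.1 h1, h2⟩
  rw [e, Set.ncard_coe_finset]
  calc ∑ t ∈ sawF n, p n t * TIP.ind (t ∈ A) ≤ ∑ t ∈ sawF n, (1 / cS n : ℝ) * (if t ∈ A then 1 else 0) := by
        refine sum_le_sum fun t _ => ?_
        unfold TIP.ind
        split_ifs with h
        · rw [mul_one, mul_one]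
          exact hp n t
        · rw [mul_zero, mul_zero]
    _ = ((sawF n).filter fun t => t ∈ A).card / cS n := by
        rw [← mul_sum, ← Finset.sum_filter, sum_const, nsmul_eq_mul, mul_one]
        ring

end LimA

open LimA

/-- two ensembles, one number -/
theorem lim_pair (hFe : FeTog) (hNw : NwTog) (hNi : NiceSt) {Q : Set (List Bool)} (hQ : ∃ r0, ∀ r, r0 ≤ r → Inside r Q)
    {e : ℝ} (he : 0 < e) (P Q' : Bool → ℕ → List Bool → ℝ) (hE : ∀ b, Ens (P b) (Q' b))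
    (hP1 : ∀ b n t, P b n t ≤ 1 / cS n) :
    ∃ n0 : ℕ, ∀ nn : Bool → ℕ, (∀ b, n0 ≤ nn b) → ∃ ν : ℝ, 0 ≤ ν ∧ ν ≤ 1 ∧ ∀ b,
      |∑ t ∈ sawF (nn b), P b (nn b) t * TIP.ind (t ∈ Q) - ν * ∑ t ∈ sawF (nn b), P b (nn b) t| ≤ e := by
  classical
  obtain ⟨r0, hr0⟩ := hQ
  -- the constants
  obtain ⟨κ, CY, m, lN, hκ, hnice⟩ := hNi (e / 4) (by positivity)
  obtain ⟨C0, l1, hC0, hlow⟩ := lowSt_of hFe m κ CY hκ
  obtain ⟨C2, hC2, hmom⟩ := mom2_of hFe
  have hinn := innSt hFe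
  obtain ⟨M, hM⟩ := exists_nat_gt (2 * (4 * C0 * C2 / e) ^ 2)
  have hMR : (0 : ℝ) < M := lt_of_le_of_lt (by positivity) hM
  have hM0 : 0 < M := by exact_mod_cast hMR
  obtain ⟨δ, hδd⟩ : ∃ δ : ℝ, δ = e / (16 * C0) := ⟨_, rfl⟩
  have hδ : 0 < δ := by rw [hδd]; positivity
  obtain ⟨s, hsd⟩ : ∃ s : ℝ, s = e / (16 * C0) := ⟨_, rfl⟩
  have hs : 0 < s := by rw [hsd]; positivity
  -- the admissible mass of the unstable cuts
  obtain ⟨τ, hτd⟩ : ∃ τ : ℝ, τ = s / (32 * (M : ℝ) ^ 2) := ⟨_, rfl⟩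
  have hτ : 0 < τ := by rw [hτd]; positivity
  obtain ⟨l, hl0, hl⟩ := windows (fun a => 128 * (2 ^ (m + 9) * 2 ^ a) +
    64 * (2 ^ (m + 9) * 2 ^ a) * (C2 ^ 2 * Ub a) / (δ * τ)) (max (max lN l1) r0)
  obtain ⟨N, hN⟩ := exists_nat_gt (∑ i ∈ range M, 2 * (C2 * Ub (l i)) / τ + 1)
  have hNs : 0 ≤ ∑ i ∈ range M, 2 * (C2 * Ub (l i)) / τ := sum_nonneg fun i _ => by
    have := DL.Ub_pos (l i)
    positivity
  have hNR : (0 : ℝ) < N := by linarith
  have hN1 : 1 ≤ N := by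
    have : (0 : ℕ) < N := by exact_mod_cast hNR
    omega
  have hU1 : ∀ i, 1 ≤ Ub (l i) := fun i => one_le_Ub _
  have hU0 : ∀ i, 0 < Ub (l i) := fun i => DL.Ub_pos _
  have hlN : ∀ i, lN ≤ l i := fun i => ((le_max_left _ _).trans (le_max_left _ _)).trans (hl0 i)
  have hl1 : ∀ i, l1 ≤ l i := fun i => ((le_max_right _ _).trans (le_max_left _ _)).trans (hl0 i)
  have hlr : ∀ i, r0 ≤ 2 ^ l i := fun i => ((le_max_right _ _).trans (hl0 i)).trans Nat.lt_two_pow_self.le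
  have hth0 : ∀ i, 0 ≤ 64 * (2 ^ (m + 9) * 2 ^ l i) * (C2 ^ 2 * Ub (l i)) / (δ * τ) := fun i => by
    have := hU0 i
    positivity
  have hRj : ∀ i j, i < j → 128 * (2 ^ (m + 9) * 2 ^ l i) ≤ 2 ^ l j := fun i j hij => by
    have h1 := (hl i j hij).2
    have h2 := hth0 i
    have h3 : (128 * (2 ^ (m + 9) * 2 ^ l i) : ℝ) ≤ 2 ^ l j := by linarith
    exact_mod_cast h3
  -- the ends
  choose YY hSz hgf nN hnN using fun i => hnice (l i) (hlN i)
  obtain ⟨R0, hR0d⟩ : ∃ R0 : ℕ, R0 = ∑ j ∈ range M, (8 * 2 ^ l j + 8) := ⟨_, rfl⟩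
  have hR0 : ∀ j, j < M → 8 * 2 ^ l j + 8 ≤ R0 := fun j hj => by
    rw [hR0d]
    exact single_le_sum (f := fun j => 8 * 2 ^ l j + 8) (fun _ _ => Nat.zero_le _) (mem_range.2 hj)
  choose nA hnA using fun (b : Bool) (i : ℕ) => hmom (P b) (Q' b) (hE b) (2 ^ l i) Nat.one_le_two_pow
  choose nB hnB using fun (b : Bool) (i : ℕ) => hinn (P b) (Q' b) (hE b) (2 ^ l i) R0 Q (s / 2) Nat.one_le_two_pow
    (by positivity) (hr0 _ (hlr i))
  choose nC hnC using fun (b : Bool) (i : ℕ) => hlow (P b) (Q' b) (hE b) (l i) R0 (YY i) (C0 * s / 2) (hl1 i)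
    (by positivity) (hSz i) (hgf i)
  refine ⟨∑ b : Bool, ∑ i ∈ range M, (nN i + nA b i + nB b i + nC b i), fun nn hnn => ?_⟩
  have hall : ∀ b i, i < M → nN i + nA b i + nB b i + nC b i ≤ nn b := fun b i hi => by
    refine le_trans ?_ (hnn b)
    refine le_trans ?_ (single_le_sum (f := fun b => ∑ i ∈ range M, (nN i + nA b i + nB b i + nC b i))
      (fun _ _ => Nat.zero_le _) (mem_univ b))
    exact single_le_sum (f := fun i => nN i + nA b i + nB b i + nC b i) (fun _ _ => Nat.zero_le _) (mem_range.2 hi)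
  -- the offset
  obtain ⟨v, hv0, hv1, hv⟩ := offI Bool univ (fun b => sawF (nn b)) (fun b => P b (nn b)) (fun b t => (hE b).p0 _ t)
    (fun b _ t ht => sawF_SA ht) M N (fun i => 2 ^ l i) (fun i => 2 ^ (m + 9) * 2 ^ l i) (fun j => 2 ^ l j)
    (fun j => δ * Ub (l j)) hN1 (fun j => mul_pos hδ (hU0 j))
    (fun i => ⟨Nat.one_le_two_pow, Nat.le_mul_of_pos_left _ (by positivity)⟩) (fun i j hij _ => hRj i j hij)
  have hmass : ∀ b, ∑ t ∈ sawF (nn b), P b (nn b) t ≤ 1 := fun b => (hE b).p1 _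
  have hNP : ∀ b i, i < M → ∑ t ∈ sawF (nn b), P b (nn b) t * NP (2 ^ l i) t ≤ C2 * Ub (l i) := fun b i hi => by
    have h1 := hnA b i (nn b) (by have := hall b i hi; omega)
    have h2 := TIP.cs_wt (S := sawF (nn b)) (p := P b (nn b)) ((hE b).p0 _) (NP (2 ^ l i)) (fun _ => 1)
      (A := C2 * Ub (l i)) (B := 1) (by have := hU0 i; positivity) h1 (by simpa using hmass b)
    rw [Real.sqrt_one, mul_one] at h2
    refine le_trans (le_of_eq ?_) ((le_abs_self _).trans h2)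
    exact sum_congr rfl fun t _ => by ring
  have hNN : ∀ b i j, i < M → j < M → ∑ t ∈ sawF (nn b), P b (nn b) t * (NP (2 ^ l i) t * NP (2 ^ l j) t) ≤
      C2 * Ub (l i) * (C2 * Ub (l j)) := fun b i j hi hj => by
    have h1 := hnA b i (nn b) (by have := hall b i hi; omega)
    have h1' := hnA b j (nn b) (by have := hall b j hj; omega)
    have hj0 := hU0 j
    have h2 := TIP.cs_wt (S := sawF (nn b)) (p := P b (nn b)) ((hE b).p0 _) (NP (2 ^ l i)) (NP (2 ^ l j))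
      (A := C2 * Ub (l i)) (B := (C2 * Ub (l j)) ^ 2) (by have := hU0 i; positivity) h1 h1'
    rw [Real.sqrt_sq (by positivity)] at h2
    exact (le_abs_self _).trans h2
  have hbad : ∑ b : Bool, ∑ i ∈ range M, ∑ j ∈ (range M).filter (fun j => i < j),
      2 * ∑ t ∈ sawF (nn b), P b (nn b) t * (NP (2 ^ l i) t * (64 * ((2 ^ (m + 9) * 2 ^ l i : ℕ) : ℝ) /
        (((2 ^ l j : ℕ) : ℝ) * (δ * Ub (l j))) * NP (2 ^ l j) t + 2 / N)) ≤ s / 4 := by
    have hterm : ∀ b, ∀ i ∈ range M, ∀ j ∈ (range M).filter (fun j => i < j),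
        2 * ∑ t ∈ sawF (nn b), P b (nn b) t * (NP (2 ^ l i) t * (64 * ((2 ^ (m + 9) * 2 ^ l i : ℕ) : ℝ) /
        (((2 ^ l j : ℕ) : ℝ) * (δ * Ub (l j))) * NP (2 ^ l j) t + 2 / N)) ≤ 4 * τ := by
      intro b i hi j hj
      rw [mem_range] at hi
      rw [mem_filter, mem_range] at hj
      have hi0 := hU0 i
      have hj0 := hU0 j
      obtain ⟨α, hα⟩ : ∃ α : ℝ, α = 64 * ((2 ^ (m + 9) * 2 ^ l i : ℕ) : ℝ) / (((2 ^ l j : ℕ) : ℝ) * (δ * Ub (l j))) :=
        ⟨_, rfl⟩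
      rw [← hα]
      have hα0 : 0 ≤ α := by rw [hα]; positivity
      have h1 : ∑ t ∈ sawF (nn b), P b (nn b) t * (NP (2 ^ l i) t * (α * NP (2 ^ l j) t + 2 / N)) =
          α * ∑ t ∈ sawF (nn b), P b (nn b) t * (NP (2 ^ l i) t * NP (2 ^ l j) t) +
            2 / N * ∑ t ∈ sawF (nn b), P b (nn b) t * NP (2 ^ l i) t := by
        rw [mul_sum, mul_sum, ← sum_add_distrib]
        exact sum_congr rfl fun t _ => by ring
      rw [h1]
      have h2 : α * ∑ t ∈ sawF (nn b), P b (nn b) t * (NP (2 ^ l i) t * NP (2 ^ l j) t) ≤ τ := by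
        refine (mul_le_mul_of_nonneg_left (hNN b i j hi hj.1) hα0).trans ?_
        have h3 := (hl i j hj.2).2
        have h4 : 64 * (2 ^ (m + 9) * 2 ^ l i) * (C2 ^ 2 * Ub (l i)) / (δ * τ) ≤ 2 ^ l j := by
          have : (0 : ℝ) ≤ 128 * (2 ^ (m + 9) * 2 ^ l i) := by positivity
          linarith
        rw [div_le_iff₀ (by positivity)] at h4
        rw [hα, div_mul_eq_mul_div, div_le_iff₀ (by positivity)]
        push_cast
        calc 64 * (2 ^ (m + 9) * 2 ^ l i) * (C2 * Ub (l i) * (C2 * Ub (l j))) =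
            64 * (2 ^ (m + 9) * 2 ^ l i) * (C2 ^ 2 * Ub (l i)) * Ub (l j) := by ring
          _ ≤ 2 ^ l j * (δ * τ) * Ub (l j) := mul_le_mul_of_nonneg_right h4 hj0.le
          _ = τ * (2 ^ l j * (δ * Ub (l j))) := by ring
      have h3 : 2 / N * ∑ t ∈ sawF (nn b), P b (nn b) t * NP (2 ^ l i) t ≤ τ := by
        refine (mul_le_mul_of_nonneg_left (hNP b i hi) (by positivity)).trans ?_
        have h4 : 2 * (C2 * Ub (l i)) / τ ≤ N := by
          have h5 := single_le_sum (f := fun i => 2 * (C2 * Ub (l i)) / τ) (s := range M) (fun k _ => by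
            have := hU0 k
            positivity) (mem_range.2 hi)
          linarith
        rw [div_le_iff₀ hτ] at h4
        rw [div_mul_eq_mul_div, div_le_iff₀ hNR]
        linarith
      linarith
    calc _ ≤ ∑ _b : Bool, ∑ i ∈ range M, ∑ _j ∈ (range M).filter (fun j => i < j), 4 * τ :=
          sum_le_sum fun b _ => sum_le_sum fun i hi => sum_le_sum fun j hj => hterm b i hi j hj
      _ ≤ ∑ _b : Bool, ∑ _i ∈ range M, M * (4 * τ) := by
          refine sum_le_sum fun b _ => sum_le_sum fun i _ => ?_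
          rw [sum_const, nsmul_eq_mul]
          refine mul_le_mul_of_nonneg_right ?_ (by positivity)
          exact_mod_cast (card_le_card (filter_subset _ _)).trans (le_of_eq (card_range M))
      _ = 8 * (M : ℝ) ^ 2 * τ := by
          simp only [sum_const, nsmul_eq_mul, card_range, card_univ, Fintype.card_bool]
          push_cast
          ring
      _ = s / 4 := by
          rw [hτd]
          field_simp
          norm_num
  have hun : ∀ b i, i < M → unM (P b) (nn b) (2 ^ l i)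
      (UnI M i (2 ^ (m + 9) * 2 ^ l i) (fun j => 2 ^ l j) (fun j => δ * Ub (l j)) v) ≤ s / 4 := fun b i hi =>
    (hv b (mem_univ b) i hi).trans hbad
  -- the soft part
  obtain ⟨i, hi, hfin⟩ := TIP.softw_fam (univ : Finset Bool) (S := fun b => sawF (nn b)) (p := fun b => P b (nn b))
    (fun b _ t => (hE b).p0 _ t) (fun b _ => hmass b) (Q := fun _ => Q)
    (D := fun _ j t => Dw (2 ^ l j) 0 (δ * Ub (l j)) v t) (W := fun _ i t => Nw (2 ^ l i) 0 t / Ub (l i))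
    (N := fun _ i => Nc (2 ^ l i) κ (YY i)) hM0 (c := 1 / C0) (ε := e / 4) (δ := δ) (C := C2) (s := s)
    (ν := fun i => nuW (2 ^ l i) Q) (by positivity) hC2.le hδ.le (fun i => nuW_nonneg _ _) (fun i => nuW_le _ _)
    (fun b _ i hi => by
      have hUi := hU0 i
      have hUi1 := hU1 i
      have hpat : ∀ φ : (ℕ → ℤ) → ℝ, (∀ x, |φ x| ≤ 1) →
          Pat (2 ^ (m + 9) * 2 ^ l i) R0 (fun y t => φ (TIP.pd (fun j t => Dw (2 ^ l j) y (δ * Ub (l j)) v t) (i + 1) M t))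
            (UnI M i (2 ^ (m + 9) * 2 ^ l i) (fun j => 2 ^ l j) (fun j => δ * Ub (l j)) v) := fun φ hφ =>
        patI hNw M i (2 ^ (m + 9) * 2 ^ l i) R0 (fun j => 2 ^ l j) (fun j => δ * Ub (l j)) v φ hφ
          (Nat.one_le_iff_ne_zero.2 (by positivity)) (fun j => mul_pos hδ (hU0 j)) (fun j hj _ => hRj i j hj)
          (fun j _ hj => hR0 j hj)
      have hu := hun b i hi
      refine ⟨fun t _ => div_nonneg (Nw_nonneg _ _ _) hUi.le, fun t _ => disc hδ hUi hv0 hv1, ?_, fun φ hφ => ?_,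
        fun φ hφ => ?_, ?_⟩
      · have h1 := hnA b i (nn b) (by have := hall b i hi; omega)
        have h2 : ∑ t ∈ sawF (nn b), P b (nn b) t * (Nw (2 ^ l i) 0 t / Ub (l i)) ^ 2 ≤
            (∑ t ∈ sawF (nn b), P b (nn b) t * NP (2 ^ l i) t ^ 2) / Ub (l i) ^ 2 := by
          rw [sum_div]
          refine sum_le_sum fun t _ => ?_
          rw [div_pow, mul_div_assoc]
          refine mul_le_mul_of_nonneg_left ?_ ((hE b).p0 _ t)
          refine div_le_div_of_nonneg_right ?_ (by positivity)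
          exact pow_le_pow_left₀ (Nw_nonneg _ _ _) (Nw_le_NP _ _ _) 2
        refine h2.trans ?_
        rw [div_le_iff₀ (by positivity)]
        calc _ ≤ (C2 * UU (2 ^ l i)) ^ 2 := h1
          _ = C2 ^ 2 * Ub (l i) ^ 2 := by
            rw [mul_pow]
            rfl
      · have h1 := hnB b i (nn b) (by have := hall b i hi; omega) (2 ^ (m + 9) * 2 ^ l i) _ _
          (Nat.le_mul_of_pos_left _ (by positivity)) (hpat φ hφ)
        have h2 : ∑ t ∈ sawF (nn b), P b (nn b) t * (Nw (2 ^ l i) 0 t / Ub (l i) * ((TIP.ind (t ∈ Q) - nuW (2 ^ l i) Q) *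
            φ (TIP.pd (fun j t => Dw (2 ^ l j) 0 (δ * Ub (l j)) v t) (i + 1) M t))) =
            (∑ t ∈ sawF (nn b), P b (nn b) t * (Nw (2 ^ l i) 0 t * ((TIP.ind (t ∈ Q) - nuW (2 ^ l i) Q) *
            φ (TIP.pd (fun j t => Dw (2 ^ l j) 0 (δ * Ub (l j)) v t) (i + 1) M t)))) / Ub (l i) := by
          rw [sum_div]
          exact sum_congr rfl fun t _ => by ring
        rw [h2, abs_div, abs_of_pos hUi, div_le_iff₀ hUi]
        refine h1.trans ?_
        nlinarith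
      · have h1 := hnC b i (nn b) (by have := hall b i hi; omega) (2 ^ (m + 9) * 2 ^ l i) _ _ le_rfl
          (fun y t => (hφ _).1) (hpat φ fun x => by rw [abs_of_nonneg (hφ x).1]; exact (hφ x).2)
        have h2 : ∑ t ∈ sawF (nn b), P b (nn b) t * (Nw (2 ^ l i) 0 t / Ub (l i) *
            φ (TIP.pd (fun j t => Dw (2 ^ l j) 0 (δ * Ub (l j)) v t) (i + 1) M t)) =
            (∑ t ∈ sawF (nn b), P b (nn b) t * (Nw (2 ^ l i) 0 t *
            φ (TIP.pd (fun j t => Dw (2 ^ l j) 0 (δ * Ub (l j)) v t) (i + 1) M t))) / Ub (l i) := by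
          rw [sum_div]
          exact sum_congr rfl fun t _ => by ring
        rw [h2]
        obtain ⟨X, hX⟩ : ∃ X, X = ∑ t ∈ sawF (nn b), P b (nn b) t * (TIP.ind (t ∈ Nc (2 ^ l i) κ (YY i)) *
            φ (TIP.pd (fun j t => Dw (2 ^ l j) 0 (δ * Ub (l j)) v t) (i + 1) M t)) := ⟨_, rfl⟩
        obtain ⟨S, hS⟩ : ∃ S, S = ∑ t ∈ sawF (nn b), P b (nn b) t * (Nw (2 ^ l i) 0 t *
            φ (TIP.pd (fun j t => Dw (2 ^ l j) 0 (δ * Ub (l j)) v t) (i + 1) M t)) := ⟨_, rfl⟩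
        rw [← hX, ← hS] at h1
        rw [← hX, ← hS]
        have h3 : Ub (l i) * X ≤ Ub (l i) * (C0 * (S / Ub (l i) + s)) := by
          have e1 : Ub (l i) * (C0 * (S / Ub (l i) + s)) = C0 * S + C0 * (Ub (l i) * s) := by
            field_simp
          rw [e1]
          have h4 : C0 * unM (P b) (nn b) (2 ^ l i) (UnI M i (2 ^ (m + 9) * 2 ^ l i) (fun j => 2 ^ l j)
              (fun j => δ * Ub (l j)) v) ≤ C0 * (s / 4) := mul_le_mul_of_nonneg_left hu hC0.le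
          have h5 : C0 * (1 * s) ≤ C0 * (Ub (l i) * s) :=
            mul_le_mul_of_nonneg_left (mul_le_mul_of_nonneg_right hUi1 hs.le) hC0.le
          have h6 : 0 < C0 * s := by positivity
          linarith
        have h4 := le_of_mul_le_mul_left h3 hUi
        rw [one_div, inv_mul_le_iff₀ hC0]
        exact h4
      · refine (ms_le (hP1 b) (nn b) {t | t ∉ Nc (2 ^ l i) κ (YY i)}).trans ?_
        exact hnN i (nn b) (by have := hall b i hi; omega))
  refine ⟨nuW (2 ^ l i) Q, nuW_nonneg _ _, nuW_le _ _, fun b => ?_⟩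
  refine (hfin b (mem_univ b)).trans ?_
  have h1 : Real.sqrt ((univ : Finset Bool).card / M) ≤ e / (4 * C0 * C2) := by
    rw [Real.sqrt_le_left (by positivity)]
    rw [card_univ, Fintype.card_bool, div_le_iff₀ hMR]
    push_cast
    have h2 : (4 * C0 * C2 / e) ^ 2 * (e / (4 * C0 * C2)) ^ 2 = 1 := by
      field_simp
    have h3 : 0 < (e / (4 * C0 * C2)) ^ 2 := by positivity
    nlinarith
  have h2 : C2 * Real.sqrt ((univ : Finset Bool).card / M) ≤ C2 * (e / (4 * C0 * C2)) :=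
    mul_le_mul_of_nonneg_left h1 hC2.le
  have h3 : (2 * s + 2 * δ + C2 * Real.sqrt ((univ : Finset Bool).card / M)) / (1 / C0) ≤
      (2 * s + 2 * δ + C2 * (e / (4 * C0 * C2))) / (1 / C0) :=
    div_le_div_of_nonneg_right (by linarith) (by positivity)
  have h4 : (2 * s + 2 * δ + C2 * (e / (4 * C0 * C2))) / (1 / C0) = e / 2 := by
    rw [hsd, hδd]
    field_simp
    norm_num
  linarith

/-- **W5: the local limit at the tip**, for all admissible ensembles dominated by the uniform one; `p0` = one ensemble of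
mass one -/
theorem lim_of (hFe : FeTog) (hNw : NwTog) (hNi : NiceSt) {p0 q0 : ℕ → List Bool → ℝ} (hE0 : Ens p0 q0)
    (hp0 : ∀ n t, p0 n t ≤ 1 / cS n) (hm0 : ∀ n, ∑ t ∈ sawF n, p0 n t = 1) {Q : Set (List Bool)}
    (hQ : ∃ r0, ∀ r, r0 ≤ r → Inside r Q) :
    ∃ ν : ℝ, 0 ≤ ν ∧ ν ≤ 1 ∧ ∀ p q : ℕ → List Bool → ℝ, Ens p q → (∀ n t, p n t ≤ 1 / cS n) → ∀ e : ℝ, 0 < e →
      ∃ n0 : ℕ, ∀ n, n0 ≤ n → |∑ t ∈ sawF n, p n t * TIP.ind (t ∈ Q) - ν * ∑ t ∈ sawF n, p n t| ≤ e := by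
  obtain ⟨a, ha⟩ : ∃ a : ℕ → ℝ, a = fun n => ∑ t ∈ sawF n, p0 n t * TIP.ind (t ∈ Q) := ⟨_, rfl⟩
  have hcau : CauchySeq a := by
    rw [Metric.cauchySeq_iff]
    intro e he
    obtain ⟨n0, h⟩ := lim_pair hFe hNw hNi hQ (e := e / 3) (by positivity) (fun _ => p0) (fun _ => q0) (fun _ => hE0)
      (fun _ => hp0)
    refine ⟨n0, fun m hm n hn => ?_⟩
    obtain ⟨ν, -, -, hν⟩ := h (fun b => if b then m else n) (fun b => by cases b <;> simp [hm, hn])
    have h1 := hν true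
    have h2 := hν false
    simp only [if_true, Bool.false_eq_true, if_false, hm0, mul_one] at h1 h2
    rw [abs_le] at h1 h2
    rw [Real.dist_eq, abs_lt, ha]
    constructor <;> linarith
  obtain ⟨ν, hν⟩ := cauchySeq_tendsto_of_complete hcau
  have ha0 : ∀ n, 0 ≤ a n := fun n => by
    rw [ha]
    exact sum_nonneg fun t _ => mul_nonneg (hE0.p0 n t) (TIP.ind_nonneg _)
  have ha1 : ∀ n, a n ≤ 1 := fun n => by
    rw [ha, ← hm0 n]
    refine sum_le_sum fun t _ => ?_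
    calc p0 n t * TIP.ind (t ∈ Q) ≤ p0 n t * 1 := mul_le_mul_of_nonneg_left (TIP.ind_le_one _) (hE0.p0 n t)
      _ = p0 n t := mul_one _
  refine ⟨ν, ge_of_tendsto' hν ha0, le_of_tendsto' hν ha1, fun p q hE hp1 e he => ?_⟩
  obtain ⟨n1, h1⟩ := lim_pair hFe hNw hNi hQ (e := e / 3) (by positivity) (fun b => if b then p0 else p)
    (fun b => if b then q0 else q) (fun b => by cases b <;> simp [hE0, hE]) (fun b n t => by
      cases b
      · simpa using hp1 n t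
      · simpa using hp0 n t)
  rw [Metric.tendsto_atTop] at hν
  obtain ⟨n2, h2⟩ := hν (e / 3) (by positivity)
  refine ⟨max n1 n2, fun n hn => ?_⟩
  obtain ⟨μ, hμ0, hμ1, hμ⟩ := h1 (fun _ => n) (fun _ => (le_max_left _ _).trans hn)
  have k1 := hμ true
  have k2 := hμ false
  simp only [if_true, Bool.false_eq_true, if_false, hm0, mul_one] at k1 k2
  have k3 := h2 n ((le_max_right _ _).trans hn)
  rw [Real.dist_eq, ha] at k3
  have k4 : |μ - ν| ≤ 2 * (e / 3) := by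
    rw [abs_lt] at k3
    rw [abs_le] at k1 ⊢
    constructor <;> linarith
  have hS0 : 0 ≤ ∑ t ∈ sawF n, p n t := sum_nonneg fun t _ => hE.p0 n t
  have hS1 := hE.p1 n
  have k5 : |(μ - ν) * ∑ t ∈ sawF n, p n t| ≤ 2 * (e / 3) := by
    rw [abs_mul, abs_of_nonneg hS0]
    calc |μ - ν| * ∑ t ∈ sawF n, p n t ≤ |μ - ν| * 1 := mul_le_mul_of_nonneg_left hS1 (abs_nonneg _)
      _ ≤ 2 * (e / 3) := by rw [mul_one]; exact k4
  have e1 : ∑ t ∈ sawF n, p n t * TIP.ind (t ∈ Q) - ν * ∑ t ∈ sawF n, p n t =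
      (∑ t ∈ sawF n, p n t * TIP.ind (t ∈ Q) - μ * ∑ t ∈ sawF n, p n t) + (μ - ν) * ∑ t ∈ sawF n, p n t := by ring
  rw [e1]
  refine (abs_add_le _ _).trans ?_
  linarith

/-! ### the uniform ensemble -/

lemma card_sawF (n : ℕ) : (sawF n).card = cS n := by
  have e : SawN n = ↑(sawF n) := by
    ext t
    rw [mem_coe, mem_sawF]
  unfold cS
  rw [e, Set.ncard_coe_finset]

lemma Pn_eq (n : ℕ) (A : Set (List Bool)) : TOG.Pn n A = ∑ t ∈ sawF n, (1 / cS n : ℝ) * TIP.ind (t ∈ A) := by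
  classical
  unfold TOG.Pn
  have e : {t | t ∈ SawN n ∧ t ∈ A} = ↑((sawF n).filter fun t => t ∈ A) := by
    ext t
    rw [coe_filter]
    constructor
    · rintro ⟨h1, h2⟩
      exact ⟨mem_sawF.2 h1, h2⟩
    · rintro ⟨h1, h2⟩
      exact ⟨mem_sawF.1 h1, h2⟩
  rw [e, Set.ncard_coe_finset, ← mul_sum]
  have h : ∑ t ∈ sawF n, TIP.ind (t ∈ A) = ((sawF n).filter fun t => t ∈ A).card := by
    unfold TIP.ind
    rw [← Finset.sum_filter, sum_const, nsmul_eq_mul, mul_one]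
  rw [h]
  ring

/-- **the local limit at the tip for the uniform measure** -/
theorem pn_lim (hFe : FeTog) (hNw : NwTog) (hNi : NiceSt) (hc : ∀ n, 0 < cS n) {q0 : ℕ → List Bool → ℝ}
    (hE0 : Ens (fun n _ => 1 / cS n) q0) {Q : Set (List Bool)} (hQ : ∃ r0, ∀ r, r0 ≤ r → Inside r Q) :
    ∃ ν : ℝ, Tendsto (fun n => TOG.Pn n Q) atTop (nhds ν) := by
  have hm : ∀ n, ∑ _t ∈ sawF n, (1 / cS n : ℝ) = 1 := fun n => by
    rw [sum_const, card_sawF, nsmul_eq_mul]
    have : (0 : ℝ) < cS n := by exact_mod_cast hc n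
    field_simp
  obtain ⟨ν, -, -, h⟩ := lim_of hFe hNw hNi hE0 (fun n t => le_rfl) hm hQ
  refine ⟨ν, Metric.tendsto_atTop.2 fun e he => ?_⟩
  obtain ⟨n0, hn0⟩ := h _ _ hE0 (fun n t => le_rfl) (e / 2) (by positivity)
  refine ⟨n0, fun n hn => ?_⟩
  have h1 := hn0 n hn
  rw [hm, mul_one, ← Pn_eq] at h1
  rw [Real.dist_eq]
  linarith

end TIW

end HexObs
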