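import Pool.Agent.TIW.Low

/-!
# TIW (d): the odd turn (helper10): the odd environments are dominated by the even ones.
-/

set_option autoImplicit false

namespace HexObs

namespace TIW

namespace LowA

open Finset TS SDN

variable {p q : ℕ → List Bool → ℝ}

/-! ### 1. Geometry of a turn -/

/-- behind a free half ball and a turn the half ball is free -/
lemma turn_free {l : ℕ} {V : Set (List Bool)} (hV : Turn l V) {A v : List Bool} (hA : A ∈ Fe (1024 * 2 ^ l))
    (hv : v ∈ V) : A ++ v ∈ Fe (2 * 2 ^ l) := by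
  intro i hi h0
  by_contra hc
  push Not at hc
  rw [List.length_append] at hi
  rcases Nat.lt_or_ge i A.length with h1 | h1
  · rw [vx_append (by omega : i ≤ A.length + 1)] at hc h0
    obtain ⟨w, hw⟩ : ∃ w, w = vx oo up A i - en (A ++ v) := ⟨_, rfl⟩
    rw [← hw] at hc
    have e1 : vx oo up A i - en A = w + mulE (rt A) (en v) := by
      rw [hw, en_app]
      abel
    have h2 : ip (vx oo up A i - en A) (de A) = ip w (de A) + ip (en v) up := by
      rw [e1, ip_add_left, ip_rt]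
    have h3 := neg_hn_le_ip w (de_mem A)
    have h4 := hV.hgt v hv
    have h5 : 0 < ip (vx oo up A i - en A) (de A) := by
      rw [h2]
      push_cast at hc
      have e2 : (2 : ℤ) ^ (l + 1) = 2 * 2 ^ l := by ring
      rw [e2] at h4
      linarith
    have h6 := hA i (by omega) h5
    rw [e1] at h6
    have h7 := hn_add w (mulE (rt A) (en v))
    rw [hn_mulE (nrm_rt A)] at h7
    have h8 : hn (en v) < (2 ^ (l + 9) : ℕ) := (hV.hp hv).2 v.length le_rfl
    push_cast at h6 h8 hc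
    have e3 : (2 : ℤ) ^ (l + 9) = 512 * 2 ^ l := by ring
    rw [e3] at h8
    have e4 : (0 : ℤ) < 2 ^ l := by positivity
    linarith
  · obtain ⟨i', rfl⟩ : ∃ i', i = A.length + i' := ⟨i - A.length, by omega⟩
    have e1 : vx oo up (A ++ v) (A.length + i') - en (A ++ v) = mulE (rt A) (vx oo up v i' - en v) := by
      rw [vx_app, en_app, mulE_sub]
      abel
    rw [e1, de_app, ip_mulE, nrm_rt, one_mul] at h0
    have h2 := hV.front v hv i' (by omega)
    linarith

/-- the direction in front of a turn -/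
lemma turn_dir {l : ℕ} {V : Set (List Bool)} (hV : Turn l V) {A A' v v' : List Bool} (hv : v ∈ V) (hv' : v' ∈ V)
    (h : A ++ v = A' ++ v') : de A = de A' := by
  have h1 := congrArg de h
  have e1 : mulE (rt A) (turn false up) = turn false (mulE (rt A) up) := mulE_turn _ _ _
  have e2 : mulE (rt A') (turn false up) = turn false (mulE (rt A') up) := mulE_turn _ _ _
  have e3 : turn false up = rotR up := rfl
  rw [de_app, de_app, hV.dir v hv, hV.dir v' hv', ← e3, e1, e2, rt_up, rt_up] at h1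
  have h2 : rotR (de A) = rotR (de A') := h1
  unfold rotR at h2
  have a1 := congrArg Prod.fst h2
  have a2 := congrArg Prod.snd h2
  simp only at a1 a2
  ext
  · linarith
  · linarith

/-! ### 2. Pairs of cuts -/

open Classical in
/-- the splittings of a turn into a low bridge and a turn -/
noncomputable def JV (l : ℕ) (VF : Finset (List Bool)) (E : List Bool) : Finset ℕ :=
  (range (E.length + 1)).filter fun j => E.take j ∈ BU ∧ 3 * (hgt (E.take j) : ℤ) < ((2 ^ (l + 9) : ℕ) : ℤ) ∧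
    E.drop j ∈ VF

lemma kt_sq {l : ℕ} {V : Set (List Bool)} (hV : Turn l V) {VF : Finset (List Bool)} (hVF : ∀ v, v ∈ VF ↔ v ∈ V)
    (t : List Bool) : ((Kt (1024 * 2 ^ l) VF t).card : ℝ) ^ 2 ≤
      2 * ∑ k ∈ Kt (1024 * 2 ^ l) VF t, ((JV l VF (t.drop k)).card : ℝ) := by
  classical
  refine (sq_le_ord _).trans (mul_le_mul_of_nonneg_left (sum_le_sum fun k hk => ?_) (by norm_num))
  have h3 : ((Kt (1024 * 2 ^ l) VF t).filter fun k' => k ≤ k').card ≤ (JV l VF (t.drop k)).card := by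
    refine card_le_card_of_injOn (fun k' => k' - k) ?_ ?_
    · intro k' hk'
      rw [mem_coe, mem_filter, mem_Kt] at hk'
      rw [mem_Kt] at hk
      obtain ⟨⟨hk1, hk2, hk3⟩, hkk⟩ := hk'
      obtain ⟨hk4, hk5, hk6⟩ := hk
      have e1 : t.take k' = t.take k ++ (t.drop k).take (k' - k) := by
        rw [← List.take_add, show k + (k' - k) = k' by omega]
      have e2 : t.drop k' = (t.drop k).drop (k' - k) := by
        rw [List.drop_drop, show k + (k' - k) = k' by omega]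
      have e3 : (t.drop k).take (k' - k) ++ (t.drop k).drop (k' - k) = t.drop k := List.take_append_drop _ _
      have e4 : de (t.take k') = de (t.take k) :=
        turn_dir hV ((hVF _).1 hk3) ((hVF _).1 hk6) (by rw [List.take_append_drop, List.take_append_drop])
      have h5 := zbu (2 ^ (l + 9)) (t.take k) ((t.drop k).take (k' - k)) ((t.drop k).drop (k' - k)) (by
        rw [← e1, show 2 * 2 ^ (l + 9) = 1024 * 2 ^ l by ring]
        exact hk2) (by
        rw [e3]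
        exact hV.hp ((hVF _).1 hk6)) (by rw [← e1]; exact e4)
      show k' - k ∈ (JV l VF (t.drop k) : Set ℕ)
      rw [mem_coe]
      unfold JV
      rw [mem_filter, mem_range, List.length_drop]
      refine ⟨by omega, h5.1, h5.2, ?_⟩
      rw [← e2]
      exact hk3
    · intro a ha b hb he
      rw [mem_coe, mem_filter] at ha hb
      simp only at he
      have := ha.2
      have := hb.2
      omega
  exact_mod_cast h3

/-- the splittings of all the turns: a product bound -/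
lemma sum_JV {l : ℕ} {V : Set (List Bool)} (hV : Turn l V) {VF : Finset (List Bool)} (hVF : ∀ v, v ∈ VF ↔ v ∈ V) :
    mo VF (fun E => ((JV l VF E).card : ℝ)) ≤ 256 * Ub l * mo VF (fun _ => 1) := by
  classical
  have hx := xc_pos
  have hodd : ∀ w : List Bool → ℝ, mo VF w = ∑ E ∈ VF, w E * xc ^ E.length := by
    intro w
    unfold mo
    refine sum_congr rfl fun E hE => ?_
    have := hV.odd E ((hVF E).1 hE)
    rw [TIP.ind_pos (by omega), one_mul]
  rw [hodd, hodd]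
  obtain ⟨BZ, hBZ⟩ : ∃ BZ, BZ = (HpF (2 ^ (l + 9))).filter fun Z =>
    Z ∈ BU ∧ 3 * (hgt Z : ℤ) < ((2 ^ (l + 9) : ℕ) : ℤ) := ⟨_, rfl⟩
  have h1 : ∑ Z ∈ BZ, xc ^ Z.length ≤ 256 * Ub l := by
    have h2 := TIP.gf_low (256 * 2 ^ l)
    have h3 : gf (BZ : Set (List Bool)) ≤ gf {V | V ∈ BU ∧ hgt V ≤ 256 * 2 ^ l} := by
      refine gf_mono fun Z hZ => ?_
      rw [mem_coe, hBZ, mem_filter] at hZ
      refine ⟨hZ.2.1, ?_⟩
      have h4 := hZ.2.2
      have e : 2 ^ (l + 9) = 512 * 2 ^ l := by ring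
      rw [e] at h4
      omega
    rw [gf_finset] at h3
    have h5 := (ENNReal.ofReal_le_ofReal_iff (Num2Aux.UU_pos _).le).1 (h3.trans h2)
    have h6 := TH7.UU_mul_le 255 (2 ^ l)
    have e : (255 + 1) * 2 ^ l = 256 * 2 ^ l := by ring
    rw [e] at h6
    unfold Ub
    refine h5.trans (h6.trans (le_of_eq ?_))
    push_cast
    ring
  have h2 : ∑ E ∈ VF, ((JV l VF E).card : ℝ) * xc ^ E.length =
      ∑ E ∈ VF, ∑ j ∈ JV l VF E, (xc ^ (E.take j).length * xc ^ (E.drop j).length) := by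
    refine sum_congr rfl fun E _ => ?_
    rw [← nsmul_eq_mul, ← sum_const]
    refine sum_congr rfl fun j hj => ?_
    unfold JV at hj
    rw [mem_filter, mem_range] at hj
    have e3 : E.length = (E.take j).length + (E.drop j).length := by
      rw [List.length_take, List.length_drop]
      omega
    rw [← pow_add, ← e3]
  rw [h2, sum_sigma']
  have h3 : ∑ x ∈ VF.sigma (fun E => JV l VF E), (xc ^ (x.1.take x.2).length * xc ^ (x.1.drop x.2).length) =
      ∑ y ∈ (VF.sigma (fun E => JV l VF E)).image (fun x => (x.1.take x.2, x.1.drop x.2)),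
      xc ^ y.1.length * xc ^ y.2.length := by
    rw [sum_image]
    rintro ⟨E, j⟩ hx1 ⟨E', j'⟩ hx2 he
    rw [mem_coe, mem_sigma] at hx1 hx2
    have e1 := congrArg Prod.fst he
    have e2 := congrArg Prod.snd he
    simp only at e1 e2
    have hj := hx1.2
    have hj' := hx2.2
    unfold JV at hj hj'
    rw [mem_filter, mem_range] at hj hj'
    simp only at hj hj'
    have e3 : E = E' := by
      rw [← List.take_append_drop j E, ← List.take_append_drop j' E', e1, e2]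
    subst e3
    have e4 := congrArg List.length e1
    rw [List.length_take, List.length_take] at e4
    have e5 : j = j' := by omega
    subst e5
    rfl
  rw [h3]
  have h4 : (VF.sigma (fun E => JV l VF E)).image (fun x => (x.1.take x.2, x.1.drop x.2)) ⊆ BZ ×ˢ VF := by
    intro y hy
    obtain ⟨⟨E, j⟩, hx1, rfl⟩ := mem_image.1 hy
    rw [mem_sigma] at hx1
    obtain ⟨hE, hj⟩ := hx1
    unfold JV at hj
    rw [mem_filter, mem_range] at hj
    simp only at hE hj ⊢
    rw [mem_product, hBZ, mem_filter, mem_HpF]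
    refine ⟨⟨?_, hj.2.1, hj.2.2.1⟩, hj.2.2.2⟩
    have h5 := hV.hp ((hVF E).1 hE)
    have h6 : E.take j ++ E.drop j ∈ Hp (2 ^ (l + 9)) := by rwa [List.take_append_drop]
    exact Hp_pre h6
  calc ∑ y ∈ (VF.sigma (fun E => JV l VF E)).image (fun x => (x.1.take x.2, x.1.drop x.2)),
        xc ^ y.1.length * xc ^ y.2.length ≤ ∑ y ∈ BZ ×ˢ VF, xc ^ y.1.length * xc ^ y.2.length :=
        sum_le_sum_of_subset_of_nonneg h4 fun y _ _ => by positivity
    _ = (∑ Z ∈ BZ, xc ^ Z.length) * ∑ E ∈ VF, xc ^ E.length := by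
        rw [sum_mul_sum, sum_product]
    _ ≤ 256 * Ub l * ∑ E ∈ VF, xc ^ E.length :=
        mul_le_mul_of_nonneg_right h1 (sum_nonneg fun E _ => by positivity)
    _ = 256 * Ub l * ∑ E ∈ VF, 1 * xc ^ E.length := by simp only [one_mul]

/-! ### 3. The odd environments -/

/-- L4: the odd environments are dominated by the even ones -/
lemma L4 (hF : FeTog) (hE : Ens p q) (l R0 : ℕ) (hR : 1024 * 2 ^ l + 2 ≤ R0) {V : Set (List Bool)} (hV : Turn l V)
    {VF : Finset (List Bool)} (hVF : ∀ v, v ∈ VF ↔ v ∈ V) (e : ℝ) (he : 0 < e) : ∃ n0 : ℕ, ∀ n, n0 ≤ n →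
    ∀ (rho : ℕ) (g : ℕ → List Bool → ℝ) (Un : Set (List Bool)), 512 * 2 ^ l ≤ rho → (∀ y t, 0 ≤ g y t) →
    Pat rho R0 g Un →
    mo VF (fun _ => 1) * Qg q n (Gf (1024 * 2 ^ l) (g 1)) ≤ 512 * Ub l * Pg p n (Gf (2 * 2 ^ l) (g 0)) +
      6 * (mo VF (fun _ => 1) * Qg q n (Gf (1024 * 2 ^ l) fun A => TIP.ind (A ∈ Un))) + e := by
  classical
  have hU : 0 < Ub l := DL.Ub_pos l
  obtain ⟨J, hJ⟩ : ∃ J : List Bool → ℝ, J = fun E => ((JV l VF E).card : ℝ) := ⟨_, rfl⟩
  have hJ0 : ∀ E, 0 ≤ J E := fun E => by rw [hJ]; exact Nat.cast_nonneg _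
  have hJV := sum_JV hV hVF
  rw [← hJ] at hJV
  obtain ⟨n1, h1⟩ := pf_sum hE R0 (fun _ => 1) VF (e / 12) (by positivity)
  obtain ⟨n2, h2⟩ := pf_sum hE R0 J VF (e * (512 * Ub l) / 24) (by positivity)
  refine ⟨max n1 n2, fun n hn rho g Un hr hg hP => ?_⟩
  obtain ⟨v, hv⟩ : ∃ v, v = mo VF (fun _ => 1) := ⟨_, rfl⟩
  obtain ⟨Q1, hQ1⟩ : ∃ x, x = Qg q n (Gf (1024 * 2 ^ l) (g 1)) := ⟨_, rfl⟩
  obtain ⟨Qu, hQu⟩ : ∃ x, x = Qg q n (Gf (1024 * 2 ^ l) fun A => TIP.ind (A ∈ Un)) := ⟨_, rfl⟩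
  obtain ⟨P0, hP0⟩ : ∃ x, x = Pg p n (Gf (2 * 2 ^ l) (g 0)) := ⟨_, rfl⟩
  have hSA : ∀ (h : List Bool → ℝ), ∀ E ∈ VF, ∀ A, Gf (1024 * 2 ^ l) h A ≠ 0 → A ∈ SA → A ++ E ∈ SA := by
    intro h E hE' A hA hAS
    refine fe_app (r := 2 ^ (l + 9)) hAS ?_ (hV.hp ((hVF E).1 hE'))
    rw [show 2 * 2 ^ (l + 9) = 1024 * 2 ^ l by ring]
    exact Gf_ne hA
  have hme : ∀ w : List Bool → ℝ, me VF w = 0 := by
    intro w
    unfold me
    refine sum_eq_zero fun E hE' => ?_
    have := hV.odd E ((hVF E).1 hE')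
    rw [TIP.ind_neg (by omega), zero_mul]
  have bu : ∀ t, |(fun A => TIP.ind (A ∈ Un)) t| ≤ 1 := fun t => by
    show |TIP.ind (t ∈ Un)| ≤ 1
    rw [abs_of_nonneg (TIP.ind_nonneg _)]
    exact TIP.ind_le_one _
  have a1 := h1 n ((le_max_left _ _).trans hn) _ (Gf_bd (s := 1024 * 2 ^ l) (hP.bd 1)) (Gf_tog hF hR (hP.tog 1)) (hSA _)
  have a2 := h1 n ((le_max_left _ _).trans hn) _ (Gf_bd (s := 1024 * 2 ^ l) bu) (Gf_tog hF hR hP.togU) (hSA _)
  have a3 := h2 n ((le_max_right _ _).trans hn) _ (Gf_bd (s := 1024 * 2 ^ l) (hP.bd 1)) (Gf_tog hF hR (hP.tog 1)) (hSA _)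
  have a4 := h2 n ((le_max_right _ _).trans hn) _ (Gf_bd (s := 1024 * 2 ^ l) bu) (Gf_tog hF hR hP.togU) (hSA _)
  rw [hme, zero_mul, zero_add] at a1 a2 a3 a4
  rw [← hQ1, ← hv] at a1
  rw [← hQu, ← hv] at a2
  rw [← hQ1] at a3
  rw [← hQu] at a4
  rw [← hv] at hJV
  have hQ10 : 0 ≤ Q1 := by
    rw [hQ1]
    exact Qg_nonneg hE (Gf_nonneg (hg 1))
  have hQu0 : 0 ≤ Qu := by
    rw [hQu]
    exact Qg_nonneg hE (Gf_nonneg fun t => TIP.ind_nonneg _)
  obtain ⟨lam, hlam⟩ : ∃ lam, lam = 256 * Ub l := ⟨_, rfl⟩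
  have hlam0 : 0 < lam := by
    rw [hlam]
    positivity
  -- the inequality for one word
  have key : Sg p n VF (fun _ => 1) (Gf (1024 * 2 ^ l) (g 1)) ≤
      lam * P0 + 1 / (2 * lam) * (Sg p n VF J (Gf (1024 * 2 ^ l) (g 1)) +
        2 * Sg p n VF J (Gf (1024 * 2 ^ l) fun A => TIP.ind (A ∈ Un))) +
      2 * Sg p n VF (fun _ => 1) (Gf (1024 * 2 ^ l) fun A => TIP.ind (A ∈ Un)) := by
    rw [hP0, Sg_kt, Sg_kt, Sg_kt, Sg_kt]
    unfold Pg
    rw [mul_sum, mul_sum, mul_sum, ← sum_add_distrib, mul_sum, ← sum_add_distrib, ← sum_add_distrib]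
    refine sum_le_sum fun t ht => ?_
    have htS := saw_SA ht
    have hp0 := hE.p0 n t
    have hg0 := hg 0 t
    obtain ⟨K, hK⟩ : ∃ K, K = Kt (1024 * 2 ^ l) VF t := ⟨_, rfl⟩
    have hsq := kt_sq hV hVF t
    rw [← hK] at hsq ⊢
    have hl : ∀ k ∈ K, |g 0 t - g 1 (t.take k)| ≤ 2 * TIP.ind (t.take k ∈ Un) := by
      intro k hk
      rw [hK, mem_Kt] at hk
      have hv' := (hVF _).1 hk.2.2
      have h5 := loc_cut hP htS (k := k) (fun i hi => by
        have h6 := (hV.hp hv').2 i hi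
        have e1 : ((2 ^ (l + 9) : ℕ) : ℤ) ≤ (rho : ℤ) := by
          have : 2 ^ (l + 9) ≤ rho := by
            rw [show 2 ^ (l + 9) = 512 * 2 ^ l by ring]
            exact hr
          exact_mod_cast this
        linarith)
      rwa [hV.odd _ hv'] at h5
    have hfree : K.Nonempty → t ∈ Fe (2 * 2 ^ l) := by
      rintro ⟨k, hk⟩
      rw [hK, mem_Kt] at hk
      have := turn_free hV hk.2.1 ((hVF _).1 hk.2.2)
      rwa [List.take_append_drop] at this
    obtain ⟨m, hm⟩ : ∃ m : ℝ, m = (K.card : ℝ) := ⟨_, rfl⟩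
    have hm0 : 0 ≤ m := by rw [hm]; positivity
    rw [← hm] at hsq
    obtain ⟨s1, hs1⟩ : ∃ x, x = ∑ k ∈ K, g 1 (t.take k) := ⟨_, rfl⟩
    obtain ⟨su, hsu⟩ : ∃ x, x = ∑ k ∈ K, TIP.ind (t.take k ∈ Un) := ⟨_, rfl⟩
    obtain ⟨j1, hj1⟩ : ∃ x, x = ∑ k ∈ K, J (t.drop k) * g 1 (t.take k) := ⟨_, rfl⟩
    obtain ⟨ju, hju⟩ : ∃ x, x = ∑ k ∈ K, J (t.drop k) * TIP.ind (t.take k ∈ Un) := ⟨_, rfl⟩
    -- (ii)
    have c1 : s1 ≤ m * g 0 t + 2 * su := by
      rw [hs1, hsu, hm, mul_sum, ← nsmul_eq_mul, ← sum_const, ← sum_add_distrib]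
      refine sum_le_sum fun k hk => ?_
      have := neg_abs_le (g 0 t - g 1 (t.take k))
      have := hl k hk
      linarith
    -- (v)
    have c2 : m ^ 2 * g 0 t ≤ 2 * (j1 + 2 * ju) := by
      have d1 : m ^ 2 * g 0 t ≤ (2 * ∑ k ∈ K, J (t.drop k)) * g 0 t := by
        refine mul_le_mul_of_nonneg_right ?_ hg0
        rw [hJ]
        exact hsq
      refine d1.trans ?_
      rw [mul_assoc, hj1, hju]
      refine mul_le_mul_of_nonneg_left ?_ (by norm_num)
      rw [sum_mul, mul_sum, ← sum_add_distrib]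
      refine sum_le_sum fun k hk => ?_
      have := le_abs_self (g 0 t - g 1 (t.take k))
      have h6 := hl k hk
      have h7 : g 0 t ≤ g 1 (t.take k) + 2 * TIP.ind (t.take k ∈ Un) := by linarith
      have h8 := mul_le_mul_of_nonneg_left h7 (hJ0 (t.drop k))
      linarith
    -- (vi)
    have c3 : m * g 0 t ≤ lam * Gf (2 * 2 ^ l) (g 0) t + 1 / (4 * lam) * (m ^ 2 * g 0 t) := by
      rcases K.eq_empty_or_nonempty with h | h
      · rw [h, card_empty] at hm
        rw [hm]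
        have := Gf_nonneg (s := 2 * 2 ^ l) (hg 0) t
        simp only [Nat.cast_zero]
        nlinarith
      · have h6 : Gf (2 * 2 ^ l) (g 0) t = g 0 t := by
          unfold Gf
          rw [TIP.ind_pos (hfree h), one_mul]
        rw [h6]
        have h7 : m ≤ lam + 1 / (4 * lam) * m ^ 2 := by
          have h8 : 0 ≤ (m - 2 * lam) ^ 2 := sq_nonneg _
          have h9 : 1 / (4 * lam) * (m - 2 * lam) ^ 2 = 1 / (4 * lam) * m ^ 2 - m + lam := by
            field_simp
            ring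
          have h10 : 0 ≤ 1 / (4 * lam) * (m - 2 * lam) ^ 2 := by positivity
          linarith
        have := mul_le_mul_of_nonneg_right h7 hg0
        linarith
    have c4 : s1 ≤ lam * Gf (2 * 2 ^ l) (g 0) t + 1 / (2 * lam) * (j1 + 2 * ju) + 2 * su := by
      have d1 : 1 / (4 * lam) * (m ^ 2 * g 0 t) ≤ 1 / (4 * lam) * (2 * (j1 + 2 * ju)) :=
        mul_le_mul_of_nonneg_left c2 (by positivity)
      have d2 : 1 / (4 * lam) * (2 * (j1 + 2 * ju)) = 1 / (2 * lam) * (j1 + 2 * ju) := by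
        field_simp
        ring
      linarith
    simp only [one_mul]
    rw [← hs1, ← hsu, ← hj1, ← hju]
    have c5 := mul_le_mul_of_nonneg_left c4 hp0
    linarith
  have b1 := (abs_le.1 a1).1
  have b2 := (abs_le.1 a2).2
  have b3 := (abs_le.1 a3).2
  have b4 := (abs_le.1 a4).2
  obtain ⟨mj, hmj⟩ : ∃ x, x = mo VF J := ⟨_, rfl⟩
  rw [← hmj] at b3 b4 hJV
  have c1 : mj * Q1 ≤ lam * v * Q1 := by
    rw [hlam]
    exact mul_le_mul_of_nonneg_right hJV hQ10
  have c2 : mj * Qu ≤ lam * v * Qu := by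
    rw [hlam]
    exact mul_le_mul_of_nonneg_right hJV hQu0
  obtain ⟨e2, he2⟩ : ∃ e2, e2 = e * (512 * Ub l) / 24 := ⟨_, rfl⟩
  rw [← he2] at b3 b4
  have c3 : 1 / (2 * lam) * (Sg p n VF J (Gf (1024 * 2 ^ l) (g 1)) +
        2 * Sg p n VF J (Gf (1024 * 2 ^ l) fun A => TIP.ind (A ∈ Un))) ≤
      1 / (2 * lam) * (lam * v * Q1 + e2 + 2 * (lam * v * Qu + e2)) :=
    mul_le_mul_of_nonneg_left (by linarith) (by positivity)
  have c4 : 1 / (2 * lam) * (lam * v * Q1 + e2 + 2 * (lam * v * Qu + e2)) =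
      v * Q1 / 2 + v * Qu + 3 * e2 / (2 * lam) := by
    field_simp
    ring
  have c5 : 3 * e2 / (2 * lam) = e / 8 := by
    rw [he2, hlam]
    field_simp
    ring
  rw [c4, c5] at c3
  have c6 : 512 * Ub l * P0 = 2 * (lam * P0) := by
    rw [hlam]
    ring
  rw [← hv, ← hQ1, ← hQu, ← hP0, c6]
  linarith

end LowA

end TIW

end HexObs
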