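import Pool.Agent.TIW.Lit
import Pool.Agent.TOG.LimE3

/-!
TIW: the uniform ensemble is admissible: `ens_unif` (input: `TOG.ManyL`).
-/

set_option autoImplicit false

namespace HexObs

namespace TIW

open Finset TS SDN

namespace EU

/-- critically weighted sum over the words with n letters -/
noncomputable def H (f : List Bool → ℝ) (n : ℕ) : ℝ := xc ^ n * ∑ t ∈ sawF n, f t

/-- the critical mass of the words with n letters -/
noncomputable def G (n : ℕ) : ℝ := cS n * xc ^ n

lemma G_pos (n : ℕ) : 0 < G n := by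
  unfold G
  have h1 : (0 : ℝ) < cS n := by exact_mod_cast TOG.cS_pos n
  have h2 := xc_pos
  positivity

lemma sawF_eq (n : ℕ) : sawF n = TOG.wdN n := rfl

lemma H_one (n : ℕ) : H (fun _ => 1) n = G n := by
  unfold H G
  rw [Finset.sum_const, nsmul_eq_mul, mul_one, sawF_eq, TOG.card_wdN, mul_comm]

/-- signed functions -/
lemma sumS (hM : TOG.ManyL) (R0 : ℕ) {e : ℝ} (he : 0 < e) : ∃ n0 : ℕ, ∀ n, n0 ≤ n → ∀ f : List Bool → ℝ,
    (∀ t, |f t| ≤ 1) → TgF R0 f → |H f (n + 2) - H f n| ≤ e * G n := by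
  obtain ⟨n0, h0⟩ := TOG.Gen.sumE hM R0 (e := e / 3) (by positivity)
  refine ⟨n0, fun n hn f hf1 hf2 => ?_⟩
  have h1 := h0 n hn (fun t => (f t + 1) / 2) (fun t => by
    have := abs_le.1 (hf1 t)
    constructor <;> linarith) (fun X Y a1 a2 a3 a4 => by
      have := hf2 X Y a1 a2 a3 a4
      dsimp only
      rw [this])
  have h2 := h0 n hn (fun _ => 1) (fun _ => ⟨zero_le_one, le_rfl⟩) (fun _ _ _ _ _ _ => rfl)
  have e1 : ∀ m, xc ^ m * ∑ t ∈ TOG.wdN m, (f t + 1) / 2 = (H f m + H (fun _ => 1) m) / 2 := fun m => by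
    unfold H
    rw [← Finset.sum_div, Finset.sum_add_distrib, sawF_eq]
    ring
  have e2 : ∀ m, xc ^ m * ∑ _t ∈ TOG.wdN m, (1 : ℝ) = H (fun _ => 1) m := fun m => rfl
  rw [e1, e1] at h1
  rw [e2, e2] at h2
  change _ ≤ e / 3 * G n at h1
  change _ ≤ e / 3 * G n at h2
  rw [abs_le] at h1 h2 ⊢
  constructor <;> linarith [h1.1, h1.2, h2.1, h2.2]

/-- 2 k more letters -/
lemma stepK (hM : TOG.ManyL) (R0 k : ℕ) {e : ℝ} (he : 0 < e) : ∃ n0 : ℕ, ∀ n, n0 ≤ n → G n ≤ 2 ^ k * G (n + 2 * k) ∧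
    ∀ f : List Bool → ℝ, (∀ t, |f t| ≤ 1) → TgF R0 f → |H f (n + 2 * k) - H f n| ≤ e * G (n + 2 * k) := by
  induction k generalizing e with
  | zero =>
    refine ⟨0, fun n _ => ⟨by simp, fun f _ _ => ?_⟩⟩
    rw [mul_zero, add_zero, sub_self, abs_zero]
    exact mul_nonneg he.le (G_pos n).le
  | succ k ih =>
    obtain ⟨n1, h1⟩ := ih (e := e / 2) (half_pos he)
    obtain ⟨n2, h2⟩ := sumS hM R0 (e := min (1 / 2) (e / 2 / 2 ^ (k + 1))) (by positivity)
    refine ⟨max n1 n2, fun n hn => ?_⟩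
    have a1 := h1 (n + 2) (le_trans (le_of_max_le_left hn) (by omega))
    have a2 := h2 n (le_of_max_le_right hn)
    have e1 : n + 2 + 2 * k = n + 2 * (k + 1) := by ring
    rw [e1] at a1
    have g1 : G n ≤ 2 * G (n + 2) := by
      have h3 := a2 (fun _ => 1) (fun _ => by rw [abs_one]) (fun _ _ _ _ _ _ => rfl)
      rw [H_one, H_one] at h3
      have h4 : min (1 / 2) (e / 2 / 2 ^ (k + 1)) * G n ≤ 1 / 2 * G n :=
        mul_le_mul_of_nonneg_right (min_le_left _ _) (G_pos n).le
      have h5 := (abs_le.1 h3).1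
      linarith
    have g2 : G n ≤ 2 ^ (k + 1) * G (n + 2 * (k + 1)) := by
      rw [pow_succ]
      have := a1.1
      linarith
    refine ⟨g2, fun f hf1 hf2 => ?_⟩
    have b1 := a1.2 f hf1 hf2
    have b2 := a2 f hf1 hf2
    have b3 : min (1 / 2) (e / 2 / 2 ^ (k + 1)) * G n ≤ e / 2 * G (n + 2 * (k + 1)) := by
      calc min (1 / 2) (e / 2 / 2 ^ (k + 1)) * G n ≤ e / 2 / 2 ^ (k + 1) * (2 ^ (k + 1) * G (n + 2 * (k + 1))) := by
            apply mul_le_mul (min_le_right _ _) g2 (G_pos n).le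
            positivity
        _ = e / 2 * G (n + 2 * (k + 1)) := by field_simp
    calc |H f (n + 2 * (k + 1)) - H f n| ≤ |H f (n + 2 * (k + 1)) - H f (n + 2)| + |H f (n + 2) - H f n| := by
          have : H f (n + 2 * (k + 1)) - H f n = (H f (n + 2 * (k + 1)) - H f (n + 2)) + (H f (n + 2) - H f n) := by ring
          rw [this]
          exact abs_add_le _ _
      _ ≤ e / 2 * G (n + 2 * (k + 1)) + e / 2 * G (n + 2 * (k + 1)) := add_le_add b1 (b2.trans b3)
      _ = e * G (n + 2 * (k + 1)) := by ring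

lemma cS_succ (n : ℕ) : cS (n + 1) ≤ 2 * cS n := by
  classical
  unfold cS
  have hsub : SawN (n + 1) ⊆ (fun p : List Bool × List Bool => p.1 ++ p.2) ''
      (SawN n ×ˢ ((([[false], [true]] : List (List Bool)).toFinset : Finset (List Bool)) : Set (List Bool))) := by
    intro t ht
    refine ⟨(t.take n, t.drop n), ⟨⟨?_, ?_⟩, ?_⟩, List.take_append_drop n t⟩
    · show (t.take n).length = n
      rw [List.length_take, ht.1]
      omega
    · exact SA_take ht.2 n
    · have hl : (t.drop n).length = 1 := by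
        rw [List.length_drop, ht.1]
        omega
      show t.drop n ∈ _
      rcases hd : t.drop n with _ | ⟨a, _ | ⟨b, l⟩⟩
      · rw [hd] at hl
        simp at hl
      · cases a <;> simp
      · rw [hd] at hl
        simp at hl
  have hfin : (SawN n ×ˢ ((([[false], [true]] : List (List Bool)).toFinset : Finset (List Bool)) :
      Set (List Bool))).Finite := (sawN_fin n).prod (Finset.finite_toSet _)
  refine (Set.ncard_le_ncard hsub (hfin.image _)).trans ((Set.ncard_image_le hfin).trans ?_)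
  rw [Set.ncard_prod, Set.ncard_coe_finset]
  have : (([[false], [true]] : List (List Bool)).toFinset).card = 2 := by decide
  rw [this, mul_comm]

lemma G_succ (n : ℕ) : G (n + 1) ≤ 2 * G n := by
  unfold G
  have h1 : (cS (n + 1) : ℝ) ≤ 2 * cS n := by exact_mod_cast cS_succ n
  have hx := xc_pos
  have h2 : xc ^ (n + 1) ≤ xc ^ n := pow_le_pow_of_le_one hx.le B2b_xc_le_one (by omega)
  calc (cS (n + 1) : ℝ) * xc ^ (n + 1) ≤ (2 * cS n) * xc ^ n := by
        apply mul_le_mul h1 h2 (by positivity) (by positivity)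
    _ = 2 * (cS n * xc ^ n) := by ring

lemma G_pred (hM : TOG.ManyL) : ∃ n0 : ℕ, ∀ n, n0 ≤ n → G n ≤ 4 * G (n + 1) := by
  obtain ⟨n0, h0⟩ := stepK hM 0 1 (e := 1) one_pos
  refine ⟨n0, fun n hn => ?_⟩
  have h1 := (h0 n hn).1
  have h2 := G_succ (n + 1)
  rw [mul_one, pow_one] at h1
  linarith

/-- the words that end with E -/
lemma sum_suf (n : ℕ) (E : List Bool) (hn : E.length ≤ n) (g : List Bool → ℝ) :
    ∑ t ∈ sawF n, TIP.ind (E <:+ t) * g (t.take (t.length - E.length)) =
      ∑ A ∈ sawF (n - E.length), TIP.ind (A ++ E ∈ SA) * g A := by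
  classical
  have e1 : ∑ t ∈ sawF n, TIP.ind (E <:+ t) * g (t.take (t.length - E.length)) =
      ∑ t ∈ (sawF n).filter (fun t => E <:+ t), g (t.take (t.length - E.length)) := by
    rw [Finset.sum_filter]
    refine Finset.sum_congr rfl fun t _ => ?_
    by_cases h : E <:+ t
    · rw [if_pos h, TIP.ind_pos h, one_mul]
    · rw [if_neg h, TIP.ind_neg h, zero_mul]
  have e2 : ∑ A ∈ sawF (n - E.length), TIP.ind (A ++ E ∈ SA) * g A =
      ∑ A ∈ (sawF (n - E.length)).filter (fun A => A ++ E ∈ SA), g A := by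
    rw [Finset.sum_filter]
    refine Finset.sum_congr rfl fun t _ => ?_
    by_cases h : t ++ E ∈ SA
    · rw [if_pos h, TIP.ind_pos h, one_mul]
    · rw [if_neg h, TIP.ind_neg h, zero_mul]
  rw [e1, e2]
  refine Finset.sum_nbij' (fun t => t.take (t.length - E.length)) (fun A => A ++ E) ?_ ?_ ?_ ?_ ?_
  · intro t ht
    rw [Finset.mem_filter, mem_sawF] at ht
    obtain ⟨h1, A, rfl⟩ := ht
    have h2 : (A ++ E).length - E.length = A.length := by
      rw [List.length_append]
      omega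
    have h3 : A.length + E.length = n := by
      rw [← h1.1, List.length_append]
    rw [Finset.mem_filter, mem_sawF, h2, List.take_left]
    refine ⟨⟨by omega, ?_⟩, h1.2⟩
    have h4 := SA_take (t := A ++ E) h1.2 A.length
    rw [List.take_left] at h4
    exact h4
  · intro A hA
    rw [Finset.mem_filter, mem_sawF] at hA
    rw [Finset.mem_filter, mem_sawF]
    refine ⟨⟨?_, hA.2⟩, List.suffix_append A E⟩
    rw [List.length_append, hA.1.1]
    omega
  · intro t ht
    rw [Finset.mem_filter] at ht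
    obtain ⟨h1, A, rfl⟩ := ht
    have h2 : (A ++ E).length - E.length = A.length := by
      rw [List.length_append]
      omega
    rw [h2, List.take_left]
  · intro A hA
    have h2 : (A ++ E).length - E.length = A.length := by
      rw [List.length_append]
      omega
    rw [h2, List.take_left]
  · intro t _
    rfl

/-- the comparison of the far parts with the ensembles -/
lemma far_cmp (hM : TOG.ManyL) (R0 l : ℕ) {e : ℝ} (he : 0 < e) : ∃ n0 : ℕ, ∀ n, n0 ≤ n → l ≤ n ∧ 1 ≤ n ∧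
    ∀ g : List Bool → ℝ, (∀ t, |g t| ≤ 1) → TgF R0 g →
    |1 / (cS n : ℝ) * ∑ A ∈ sawF (n - l), g A -
      xc ^ l * (if l % 2 = 0 then ∑ t ∈ sawF n, 1 / (cS n : ℝ) * g t else
        ∑ t ∈ sawF (n - 1), 1 / (cS n * xc : ℝ) * g t)| ≤ e := by
  have hx := xc_pos
  have hx1 := B2b_xc_le_one
  obtain ⟨n1, h1⟩ := G_pred hM
  obtain ⟨n2, h2⟩ := stepK hM R0 (l / 2) (e := e / 4) (by positivity)
  refine ⟨max (n1 + 1) (n2 + l) + 1, fun n hn => ?_⟩
  have hn1 : n1 + 1 ≤ n := by omega
  have hn2 : n2 + l + 1 ≤ n := by omega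
  refine ⟨by omega, by omega, fun g hg1 hg2 => ?_⟩
  have hc : (0 : ℝ) < cS n := by exact_mod_cast TOG.cS_pos n
  have hG := G_pos n
  have e0 : 1 / (cS n : ℝ) * ∑ A ∈ sawF (n - l), g A = xc ^ l * (H g (n - l) / G n) := by
    unfold H G
    have : xc ^ n = xc ^ l * xc ^ (n - l) := by
      rw [← pow_add]
      congr 1
      omega
    rw [this]
    field_simp
  have hxl : xc ^ l ≤ 1 := pow_le_one₀ hx.le hx1
  rw [e0, ← mul_sub, abs_mul, abs_of_pos (by positivity : 0 < xc ^ l)]
  rcases Nat.even_or_odd' l with ⟨k, rfl | rfl⟩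
  · have e1 : 2 * k % 2 = 0 := by omega
    rw [if_pos e1, ← Finset.mul_sum]
    have e2 : 1 / (cS n : ℝ) * ∑ t ∈ sawF n, g t = H g n / G n := by
      unfold H G
      field_simp
    rw [e2, ← sub_div, abs_div, abs_of_pos hG]
    have e3 : 2 * k / 2 = k := by omega
    rw [e3] at h2
    have h3 := (h2 (n - 2 * k) (by omega)).2 g hg1 hg2
    have e4 : n - 2 * k + 2 * k = n := by omega
    rw [e4, abs_sub_comm] at h3
    calc xc ^ (2 * k) * (|H g (n - 2 * k) - H g n| / G n) ≤ 1 * (e / 4 * G n / G n) := by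
          gcongr
      _ = e / 4 := by field_simp
      _ ≤ e := by linarith
  · have e1 : ¬ (2 * k + 1) % 2 = 0 := by omega
    rw [if_neg e1, ← Finset.mul_sum]
    have e2 : 1 / (cS n * xc : ℝ) * ∑ t ∈ sawF (n - 1), g t = H g (n - 1) / G n := by
      unfold H G
      have : xc ^ n = xc * xc ^ (n - 1) := by
        rw [← pow_succ']
        congr 1
        omega
      rw [this]
      field_simp
    rw [e2, ← sub_div, abs_div, abs_of_pos hG]
    have e3 : (2 * k + 1) / 2 = k := by omega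
    rw [e3] at h2
    have h3 := (h2 (n - (2 * k + 1)) (by omega)).2 g hg1 hg2
    have e4 : n - (2 * k + 1) + 2 * k = n - 1 := by omega
    rw [e4, abs_sub_comm] at h3
    have h4 := h1 (n - 1) (by omega)
    have e5 : n - 1 + 1 = n := by omega
    rw [e5] at h4
    calc xc ^ (2 * k + 1) * (|H g (n - (2 * k + 1)) - H g (n - 1)| / G n) ≤ 1 * (e / 4 * (4 * G n) / G n) := by
          gcongr
          exact h3.trans (by gcongr)
      _ = e := by field_simp

end EU

/-- **the uniform ensemble satisfies the product formula** -/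
theorem ens_unif (hM : TOG.ManyL) : Ens (fun n _ => 1 / (cS n : ℝ)) (fun n _ => 1 / (cS n * xc : ℝ)) := by
  have hx := xc_pos
  constructor
  · intro n _
    positivity
  · intro n
    rw [Finset.sum_const, nsmul_eq_mul, EU.sawF_eq, TOG.card_wdN]
    have h : (0 : ℝ) < cS n := by exact_mod_cast TOG.cS_pos n
    rw [mul_one_div_cancel h.ne']
  · intro n _
    positivity
  · intro R0 E e he
    obtain ⟨n0, h0⟩ := EU.far_cmp hM R0 E.length he
    refine ⟨n0, fun n hn g hg1 hg2 hg3 => ?_⟩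
    obtain ⟨h1, h2, h3⟩ := h0 n hn
    have e1 : ∑ t ∈ sawF n, 1 / (cS n : ℝ) * (TIP.ind (E <:+ t) * g (t.take (t.length - E.length))) =
        1 / (cS n : ℝ) * ∑ A ∈ sawF (n - E.length), g A := by
      rw [← Finset.mul_sum, EU.sum_suf n E h1]
      congr 1
      refine Finset.sum_congr rfl fun A hA => ?_
      by_cases hz : g A = 0
      · rw [hz, mul_zero]
      · rw [TIP.ind_pos (hg3 A hz (mem_sawF.1 hA).2), one_mul]
    rw [e1]
    exact h3 g hg1 hg2
  · intro R0 E e he
    obtain ⟨n0, h0⟩ := EU.far_cmp hM R0 E.length he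
    refine ⟨n0, fun n hn g hg1 hg2 => ?_⟩
    obtain ⟨h1, h2, h3⟩ := h0 n hn
    have h4 := h3 g (fun t => abs_le.2 ⟨by linarith [(hg1 t).1], (hg1 t).2⟩) hg2
    have e1 : ∑ t ∈ sawF n, 1 / (cS n : ℝ) * (TIP.ind (E <:+ t) * g (t.take (t.length - E.length))) ≤
        1 / (cS n : ℝ) * ∑ A ∈ sawF (n - E.length), g A := by
      rw [← Finset.mul_sum, EU.sum_suf n E h1]
      apply mul_le_mul_of_nonneg_left _ (by positivity)
      refine Finset.sum_le_sum fun A _ => ?_
      have h5 := TIP.ind_le_one (A ++ E ∈ SA)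
      have h6 := (hg1 A).1
      nlinarith
    linarith [(abs_le.1 h4).2]

end TIW

end HexObs
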