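import Pool.Agent.TIW.Sum
import Pool.Agent.TIW.Hpm

/-!
# TIW (d): the weight dominates the nice configurations (helper10)

`lowSt_of`: LowSt from FeTog (zbu, hpLow, turnSt are landed).
-/

set_option autoImplicit false

namespace HexObs

namespace TIW

namespace LowA

open Finset TS SDN

variable {p q : ℕ → List Bool → ℝ}

/-! ### 1. Cuts with the end in a finite set -/

open Classical in
/-- the cuts with a free half ball of radius s and the end in VF -/
noncomputable def Kt (s : ℕ) (VF : Finset (List Bool)) (t : List Bool) : Finset ℕ :=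
  (range (t.length + 1)).filter fun k => t.take k ∈ Fe s ∧ t.drop k ∈ VF

lemma mem_Kt {s : ℕ} {VF : Finset (List Bool)} {t : List Bool} {k : ℕ} :
    k ∈ Kt s VF t ↔ k ≤ t.length ∧ t.take k ∈ Fe s ∧ t.drop k ∈ VF := by
  classical
  unfold Kt
  rw [mem_filter, mem_range]
  constructor
  · exact fun h => ⟨by omega, h.2⟩
  · exact fun h => ⟨by omega, h.2⟩

lemma kt_sum (s : ℕ) (VF : Finset (List Bool)) (f : List Bool → List Bool → ℝ) (t : List Bool) :
    ∑ k ∈ Kt s VF t, f (t.take k) (t.drop k) =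
      ∑ E ∈ VF, TIP.ind (E <:+ t) * (TIP.ind (t.take (t.length - E.length) ∈ Fe s) * f (t.take (t.length - E.length)) E) := by
  classical
  rw [← cut_sum t VF fun A E => TIP.ind (A ∈ Fe s) * f A E]
  unfold Kt
  rw [sum_filter]
  refine sum_congr rfl fun k _ => ?_
  by_cases h1 : t.take k ∈ Fe s
  · by_cases h2 : t.drop k ∈ VF
    · rw [if_pos ⟨h1, h2⟩, TIP.ind_pos h1, TIP.ind_pos h2, one_mul, one_mul]
    · rw [if_neg (fun h => h2 h.2), TIP.ind_neg h2, zero_mul]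
  · rw [if_neg (fun h => h1 h.1), TIP.ind_neg h1, zero_mul, mul_zero]

lemma cu_eq (r : ℕ) (t : List Bool) : cu r t = Kt (2 * r) (HpF r) t := by
  classical
  ext k
  unfold cu
  rw [mem_Kt, mem_filter, mem_range, mem_HpF]
  constructor
  · exact fun h => ⟨by omega, h.2⟩
  · exact fun h => ⟨by omega, h.2⟩

/-- function of the far part, restricted to the free half balls -/
noncomputable def Gf (s : ℕ) (h : List Bool → ℝ) : List Bool → ℝ := fun A => TIP.ind (A ∈ Fe s) * h A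

lemma Sg_kt (n s : ℕ) (VF : Finset (List Bool)) (w h : List Bool → ℝ) :
    Sg p n VF w (Gf s h) = ∑ t ∈ sawF n, p n t * ∑ k ∈ Kt s VF t, w (t.drop k) * h (t.take k) := by
  unfold Sg Gf
  refine sum_congr rfl fun t _ => ?_
  rw [kt_sum s VF (fun A E => w E * h A) t]
  congr 1
  refine sum_congr rfl fun E _ => ?_
  ring

lemma unM_eq (n r : ℕ) (Un : Set (List Bool)) :
    unM p n r Un = Sg p n (HpF r) (fun _ => 1) (Gf (2 * r) fun A => TIP.ind (A ∈ Un)) := by
  rw [Sg_kt]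
  unfold unM
  refine sum_congr rfl fun t _ => ?_
  rw [cu_eq]
  simp only [one_mul]

lemma saw_SA {n : ℕ} {t : List Bool} (h : t ∈ sawF n) : t ∈ SA := (mem_sawF.1 h).2

/-! ### 2. Functions of the far part -/

lemma Gf_bd {s : ℕ} {h : List Bool → ℝ} (hh : ∀ t, |h t| ≤ 1) (t : List Bool) : |Gf s h t| ≤ 1 := by
  unfold Gf
  rw [abs_mul, abs_of_nonneg (TIP.ind_nonneg _)]
  calc TIP.ind (t ∈ Fe s) * |h t| ≤ 1 * 1 :=
        mul_le_mul (TIP.ind_le_one _) (hh t) (abs_nonneg _) zero_le_one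
    _ = 1 := one_mul 1

lemma Gf_nonneg {s : ℕ} {h : List Bool → ℝ} (hh : ∀ t, 0 ≤ h t) (t : List Bool) : 0 ≤ Gf s h t :=
  mul_nonneg (TIP.ind_nonneg _) (hh t)

lemma Gf_le_one {s : ℕ} {h : List Bool → ℝ} (hh : ∀ t, |h t| ≤ 1) (t : List Bool) : Gf s h t ≤ 1 :=
  (le_abs_self _).trans (Gf_bd hh t)

lemma Gf_ne {s : ℕ} {h : List Bool → ℝ} {A : List Bool} (hA : Gf s h A ≠ 0) : A ∈ Fe s := by
  by_contra hc
  exact hA (by unfold Gf; rw [TIP.ind_neg hc, zero_mul])

lemma Gf_anti {s s' : ℕ} (hs : s ≤ s') {h : List Bool → ℝ} (hh : ∀ t, 0 ≤ h t) (t : List Bool) :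
    Gf s' h t ≤ Gf s h t := by
  unfold Gf
  exact mul_le_mul_of_nonneg_right (TIP.ind_mono fun hA => Fe_mono hs hA) (hh t)

lemma Gf_tog (hF : FeTog) {s R0 : ℕ} (hs : s + 2 ≤ R0) {h : List Bool → ℝ} (hh : TgF R0 h) : TgF R0 (Gf s h) :=
  (hF s R0 hs).mul hh

lemma Pg_mono (hE : Ens p q) {n : ℕ} {g h : List Bool → ℝ} (hgh : ∀ t, g t ≤ h t) : Pg p n g ≤ Pg p n h :=
  sum_le_sum fun t _ => mul_le_mul_of_nonneg_left (hgh t) (hE.p0 n t)

lemma Qg_mono (hE : Ens p q) {n : ℕ} {g h : List Bool → ℝ} (hgh : ∀ t, g t ≤ h t) : Qg q n g ≤ Qg q n h :=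
  sum_le_sum fun t _ => mul_le_mul_of_nonneg_left (hgh t) (hE.q0 n t)

lemma Pg_nonneg (hE : Ens p q) {n : ℕ} {g : List Bool → ℝ} (hg : ∀ t, 0 ≤ g t) : 0 ≤ Pg p n g :=
  sum_nonneg fun t _ => mul_nonneg (hE.p0 n t) (hg t)

lemma Qg_nonneg (hE : Ens p q) {n : ℕ} {g : List Bool → ℝ} (hg : ∀ t, 0 ≤ g t) : 0 ≤ Qg q n g :=
  sum_nonneg fun t _ => mul_nonneg (hE.q0 n t) (hg t)

lemma per_mod {g : ℕ → List Bool → ℝ} (hg : ∀ y, g (y + 2) = g y) (y : ℕ) : g y = g (y % 2) := by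
  induction y using Nat.strong_induction_on with
  | _ y ih =>
    rcases Nat.lt_or_ge y 2 with h | h
    · rw [Nat.mod_eq_of_lt h]
    · obtain ⟨z, rfl⟩ : ∃ z, y = z + 2 := ⟨y - 2, by omega⟩
      rw [hg z, ih z (by omega)]
      congr 1
      omega

/-- the change of the pattern function at a cut -/
lemma loc_cut {rho R0 : ℕ} {g : ℕ → List Bool → ℝ} {Un : Set (List Bool)} (hP : Pat rho R0 g Un) {t : List Bool}
    (ht : t ∈ SA) {k : ℕ} (hb : ∀ i, i ≤ (t.drop k).length → hn (vx oo up (t.drop k) i) < rho) :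
    |g 0 t - g ((t.drop k).length % 2) (t.take k)| ≤ 2 * TIP.ind (t.take k ∈ Un) := by
  have h := hP.loc 0 (t.take k) (t.drop k) (by rwa [List.take_append_drop]) hb
  rwa [List.take_append_drop, zero_add, per_mod hP.per (t.drop k).length] at h

/-! ### 3. Upper bound of the nice configurations -/

/-- L1: the marks -/
lemma L1 (hE : Ens p q) {r R0 rho : ℕ} {κ : ℝ} {YY : Set (List Bool)} {YF : Finset (List Bool)}
    {g : ℕ → List Bool → ℝ} {Un : Set (List Bool)} (hYF : ∀ Y, Y ∈ YF ↔ Y ∈ YY)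
    (hbox : ∀ Y ∈ YY, ∀ i, i ≤ Y.length → hn (vx oo up Y i) < rho) (hg : ∀ y t, 0 ≤ g y t) (hP : Pat rho R0 g Un)
    (n : ℕ) : κ * UU r * ∑ t ∈ sawF n, p n t * (TIP.ind (t ∈ Nc r κ YY) * g 0 t) ≤
      Sg p n (YF.filter fun Y => Y.length % 2 = 0) (fun _ => 1) (Gf (1024 * r) (g 0)) +
      Sg p n (YF.filter fun Y => ¬ Y.length % 2 = 0) (fun _ => 1) (Gf (1024 * r) (g 1)) +
      2 * Sg p n YF (fun _ => 1) (Gf (1024 * r) fun A => TIP.ind (A ∈ Un)) := by
  classical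
  unfold Sg
  rw [mul_sum, mul_sum, ← sum_add_distrib, ← sum_add_distrib]
  refine sum_le_sum fun t ht => ?_
  have htS := saw_SA ht
  have hp0 := hE.p0 n t
  have hg0 := hg 0 t
  have key : κ * UU r * (TIP.ind (t ∈ Nc r κ YY) * g 0 t) ≤
      ∑ k ∈ Kt (1024 * r) YF t, (g ((t.drop k).length % 2) (t.take k) + 2 * TIP.ind (t.take k ∈ Un)) := by
    have h1 : κ * UU r * TIP.ind (t ∈ Nc r κ YY) ≤ ((Kt (1024 * r) YF t).card : ℝ) := by
      by_cases h : t ∈ Nc r κ YY
      · rw [TIP.ind_pos h, mul_one]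
        have h2 : κ * UU r ≤ (((range (t.length + 1)).filter fun k =>
          t.take k ∈ Fe (1024 * r) ∧ t.drop k ∈ YY).card : ℝ) := h
        refine h2.trans (le_of_eq ?_)
        congr 2
        ext k
        rw [mem_Kt, mem_filter, mem_range, hYF]
        constructor
        · exact fun h => ⟨by omega, h.2⟩
        · exact fun h => ⟨by omega, h.2⟩
      · rw [TIP.ind_neg h, mul_zero]
        positivity
    calc κ * UU r * (TIP.ind (t ∈ Nc r κ YY) * g 0 t) = κ * UU r * TIP.ind (t ∈ Nc r κ YY) * g 0 t := by ring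
      _ ≤ ((Kt (1024 * r) YF t).card : ℝ) * g 0 t := mul_le_mul_of_nonneg_right h1 hg0
      _ = ∑ _k ∈ Kt (1024 * r) YF t, g 0 t := by rw [sum_const, nsmul_eq_mul]
      _ ≤ _ := by
        refine sum_le_sum fun k hk => ?_
        rw [mem_Kt] at hk
        have h3 := loc_cut hP htS (k := k) (hbox _ ((hYF _).1 hk.2.2))
        have h4 := le_abs_self (g 0 t - g ((t.drop k).length % 2) (t.take k))
        linarith
  have e1 : ∑ k ∈ Kt (1024 * r) YF t, (g ((t.drop k).length % 2) (t.take k) + 2 * TIP.ind (t.take k ∈ Un)) =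
      ∑ E ∈ YF, TIP.ind (E <:+ t) * (TIP.ind (t.take (t.length - E.length) ∈ Fe (1024 * r)) *
        (g (E.length % 2) (t.take (t.length - E.length)) + 2 * TIP.ind (t.take (t.length - E.length) ∈ Un))) :=
    kt_sum (1024 * r) YF (fun A E => g (E.length % 2) A + 2 * TIP.ind (A ∈ Un)) t
  have e2 : ∑ E ∈ YF, TIP.ind (E <:+ t) * (TIP.ind (t.take (t.length - E.length) ∈ Fe (1024 * r)) *
        (g (E.length % 2) (t.take (t.length - E.length)) + 2 * TIP.ind (t.take (t.length - E.length) ∈ Un))) =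
      ∑ E ∈ YF.filter (fun Y => Y.length % 2 = 0), TIP.ind (E <:+ t) *
        (1 * Gf (1024 * r) (g 0) (t.take (t.length - E.length))) +
      ∑ E ∈ YF.filter (fun Y => ¬ Y.length % 2 = 0), TIP.ind (E <:+ t) *
        (1 * Gf (1024 * r) (g 1) (t.take (t.length - E.length))) +
      2 * ∑ E ∈ YF, TIP.ind (E <:+ t) *
        (1 * Gf (1024 * r) (fun A => TIP.ind (A ∈ Un)) (t.take (t.length - E.length))) := by
    rw [sum_filter, sum_filter, mul_sum, ← sum_add_distrib, ← sum_add_distrib]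
    refine sum_congr rfl fun E _ => ?_
    unfold Gf
    by_cases h : E.length % 2 = 0
    · rw [if_pos h, if_neg (not_not.2 h), h]
      ring
    · rw [if_neg h, if_pos h]
      have h1 : E.length % 2 = 1 := by omega
      rw [h1]
      ring
  rw [e1, e2] at key
  have := mul_le_mul_of_nonneg_left key hp0
  nlinarith [this]

/-- L2: the unstable mass from below -/
lemma L2 (hF : FeTog) (hE : Ens p q) (r R0 : ℕ) (hR : 2 * r + 2 ≤ R0) (e : ℝ) (he : 0 < e) : ∃ n0 : ℕ, ∀ n, n0 ≤ n →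
    ∀ Un : Set (List Bool), TgF R0 (fun t => TIP.ind (t ∈ Un)) →
    me (HpF r) (fun _ => 1) * Pg p n (Gf (2 * r) fun A => TIP.ind (A ∈ Un)) +
      mo (HpF r) (fun _ => 1) * Qg q n (Gf (2 * r) fun A => TIP.ind (A ∈ Un)) ≤ unM p n r Un + e := by
  obtain ⟨n0, h0⟩ := pf_sum hE R0 (fun _ => 1) (HpF r) e he
  refine ⟨n0, fun n hn Un hU => ?_⟩
  have h1 := h0 n hn (Gf (2 * r) fun A => TIP.ind (A ∈ Un))
    (Gf_bd fun t => by rw [abs_of_nonneg (TIP.ind_nonneg _)]; exact TIP.ind_le_one _) (Gf_tog hF hR hU)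
    fun E hE' A hA hAS => fe_app hAS (Gf_ne hA) (mem_HpF.1 hE')
  rw [unM_eq]
  have := (abs_le.1 h1).1
  linarith

/-- the even ends with the weight chi -/
noncomputable def we (r : ℕ) (E : List Bool) : ℝ := TIP.ind (E.length % 2 = 0) * chi r E

lemma we_nonneg (r : ℕ) (E : List Bool) : 0 ≤ we r E := mul_nonneg (TIP.ind_nonneg _) (chi_nonneg r E)

lemma we_le (r : ℕ) (E : List Bool) : we r E ≤ 1 := by
  unfold we
  calc TIP.ind (E.length % 2 = 0) * chi r E ≤ 1 * 1 :=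
        mul_le_mul (TIP.ind_le_one _) (chi_le r E) (chi_nonneg r E) zero_le_one
    _ = 1 := one_mul 1

lemma Nw_we (r : ℕ) (t : List Bool) : Nw r 0 t = ∑ k ∈ Kt (2 * r) (HpF r) t, we r (t.drop k) := by
  classical
  rw [← cu_eq]
  unfold Nw we
  rw [sum_filter]
  refine sum_congr rfl fun k _ => ?_
  by_cases h : (t.drop k).length % 2 = 0
  · rw [if_pos (by rw [h]), TIP.ind_pos h, one_mul]
  · rw [if_neg (fun h' => h (by omega)), TIP.ind_neg h, zero_mul]

/-- L3: the weight from below -/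
lemma L3 (hF : FeTog) (hE : Ens p q) (r R0 : ℕ) (hR : 2 * r + 2 ≤ R0) (e : ℝ) (he : 0 < e) : ∃ n0 : ℕ, ∀ n, n0 ≤ n →
    ∀ (rho : ℕ) (g : ℕ → List Bool → ℝ) (Un : Set (List Bool)), r ≤ rho → (∀ y t, 0 ≤ g y t) → Pat rho R0 g Un →
    me (HpF r) (we r) * Pg p n (Gf (2 * r) (g 0)) ≤
      (∑ t ∈ sawF n, p n t * (Nw r 0 t * g 0 t)) + 2 * unM p n r Un + e := by
  obtain ⟨n0, h0⟩ := pf_sum hE R0 (we r) (HpF r) e he
  refine ⟨n0, fun n hn rho g Un hr hg hP => ?_⟩
  have h1 := h0 n hn (Gf (2 * r) (g 0)) (Gf_bd (hP.bd 0)) (Gf_tog hF hR (hP.tog 0))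
    fun E hE' A hA hAS => fe_app hAS (Gf_ne hA) (mem_HpF.1 hE')
  have h2 : mo (HpF r) (we r) = 0 := by
    unfold mo we
    refine sum_eq_zero fun E _ => ?_
    by_cases h : E.length % 2 = 0
    · rw [TIP.ind_neg (not_not.2 h), zero_mul]
    · rw [TIP.ind_neg h]
      ring
  rw [h2, zero_mul, add_zero] at h1
  have h3 : Sg p n (HpF r) (we r) (Gf (2 * r) (g 0)) ≤
      (∑ t ∈ sawF n, p n t * (Nw r 0 t * g 0 t)) + 2 * unM p n r Un := by
    rw [Sg_kt]
    unfold unM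
    rw [mul_sum, ← sum_add_distrib]
    refine sum_le_sum fun t ht => ?_
    have htS := saw_SA ht
    have hp0 := hE.p0 n t
    rw [cu_eq, Nw_we]
    have h4 : ∑ k ∈ Kt (2 * r) (HpF r) t, we r (t.drop k) * g 0 (t.take k) ≤
        (∑ k ∈ Kt (2 * r) (HpF r) t, we r (t.drop k)) * g 0 t +
          2 * ∑ k ∈ Kt (2 * r) (HpF r) t, TIP.ind (t.take k ∈ Un) := by
      rw [sum_mul, mul_sum, ← sum_add_distrib]
      refine sum_le_sum fun k hk => ?_
      rw [mem_Kt, mem_HpF] at hk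
      have w0 := we_nonneg r (t.drop k)
      have w1 := we_le r (t.drop k)
      have i0 := TIP.ind_nonneg (t.take k ∈ Un)
      by_cases h : (t.drop k).length % 2 = 0
      · have h5 := loc_cut hP htS (k := k) (fun i hi => lt_of_lt_of_le (hk.2.2.2 i hi) (by exact_mod_cast hr))
        rw [h] at h5
        have h6 := neg_abs_le (g 0 t - g 0 (t.take k))
        have h7 : g 0 (t.take k) ≤ g 0 t + 2 * TIP.ind (t.take k ∈ Un) := by linarith
        nlinarith [mul_le_mul_of_nonneg_left h7 w0]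
      · have h5 : we r (t.drop k) = 0 := by
          unfold we
          rw [TIP.ind_neg h, zero_mul]
        rw [h5]
        linarith
    have := mul_le_mul_of_nonneg_left h4 hp0
    nlinarith [this]
  have := (abs_le.1 h1).1
  linarith

end LowA

end TIW

end HexObs
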