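import Pool.Agent.TIW.LowT

/-!
# TIW (d): `lowSt_of : FeTog → LowSt` (helper10)
-/

set_option autoImplicit false

namespace HexObs

namespace TIW

namespace LowA

open Finset TS SDN

open scoped ENNReal

variable {p q : ℕ → List Bool → ℝ}

lemma Pat_mono {rho R0 R1 : ℕ} (h : R0 ≤ R1) {g : ℕ → List Bool → ℝ} {Un : Set (List Bool)} (hP : Pat rho R0 g Un) :
    Pat rho R1 g Un := ⟨hP.bd, hP.per, fun y => (hP.tog y).mono h, hP.togU.mono h, hP.loc⟩

lemma chi_nil (r : ℕ) : chi r [] = 0 := by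
  have h : (ip (en []) up : ℝ) = 0 := by
    have : ip (en []) up = 0 := by decide
    exact_mod_cast this
  have h1 : cl1 (32 * (ip (en []) up : ℝ) / r - 1) = 0 := by
    rw [h]
    unfold cl1
    simp
  unfold chi
  rw [h1]
  exact min_eq_left (cl1_nonneg _)

lemma xc_le_one' : xc ≤ 1 := by
  have h1 : xc ^ 2 = 1 / (2 + Real.sqrt 2) := xc_sq
  have h2 : 0 ≤ Real.sqrt 2 := Real.sqrt_nonneg 2
  have h3 : xc ^ 2 ≤ 1 := by
    rw [h1, div_le_one (by linarith)]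
    linarith
  nlinarith [xc_pos]

/-- the odd ends have at least half of the mass of the even ends -/
lemma mo_ge (r : ℕ) : me (HpF r) (we r) ≤ 2 * mo (HpF r) (fun _ => 1) := by
  classical
  have hx := xc_pos
  have hx1 := xc_le_one'
  obtain ⟨S, hS⟩ : ∃ S, S = (HpF r).filter fun E => E.length % 2 = 0 ∧ E ≠ [] := ⟨_, rfl⟩
  obtain ⟨O, hO⟩ : ∃ O, O = (HpF r).filter fun E => ¬ E.length % 2 = 0 := ⟨_, rfl⟩
  have h1 : me (HpF r) (we r) ≤ ∑ E ∈ S, xc ^ E.length := by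
    unfold me
    rw [hS, sum_filter]
    refine sum_le_sum fun E _ => ?_
    by_cases h : E.length % 2 = 0
    · by_cases h' : E = []
      · subst h'
        unfold we
        rw [chi_nil]
        simp
      · rw [if_pos ⟨h, h'⟩, TIP.ind_pos h, one_mul]
        calc we r E * xc ^ E.length ≤ 1 * xc ^ E.length := mul_le_mul_of_nonneg_right (we_le r E) (by positivity)
          _ = xc ^ E.length := one_mul _
    · rw [TIP.ind_neg h, zero_mul]
      split_ifs <;> positivity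
  have h2 : ∑ E ∈ S, xc ^ E.length = ∑ y ∈ S.image (fun E => (E.dropLast, E.getLastD false)), xc ^ (y.1.length + 1) := by
    rw [sum_image]
    · refine sum_congr rfl fun E hE => ?_
      rw [hS, mem_filter] at hE
      rw [List.length_dropLast]
      congr 1
      have := List.length_pos_iff.2 hE.2.2
      omega
    · intro E hE E' hE' he
      rw [hS] at hE hE'
      rw [mem_coe, mem_filter] at hE hE'
      have e1 := congrArg Prod.fst he
      have e2 := congrArg Prod.snd he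
      simp only at e1 e2
      rw [List.getLastD_eq_getLast?, List.getLastD_eq_getLast?] at e2
      rw [← List.dropLast_append_getLast hE.2.2, ← List.dropLast_append_getLast hE'.2.2, e1]
      congr 2
      rw [List.getLast?_eq_getLast_of_ne_nil hE.2.2, List.getLast?_eq_getLast_of_ne_nil hE'.2.2] at e2
      simpa using e2
  have h3 : S.image (fun E => (E.dropLast, E.getLastD false)) ⊆ O ×ˢ (univ : Finset Bool) := by
    intro y hy
    obtain ⟨E, hE, rfl⟩ := mem_image.1 hy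
    rw [hS, mem_filter, mem_HpF] at hE
    rw [mem_product, hO, mem_filter, mem_HpF]
    refine ⟨⟨?_, ?_⟩, mem_univ _⟩
    · have h4 : E.dropLast ++ [E.getLast hE.2.2] ∈ Hp r := by
        rw [List.dropLast_append_getLast]
        exact hE.1
      exact Hp_pre h4
    · rw [List.length_dropLast]
      have := List.length_pos_iff.2 hE.2.2
      have := hE.2.1
      omega
  have h4 : ∑ y ∈ S.image (fun E => (E.dropLast, E.getLastD false)), xc ^ (y.1.length + 1) ≤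
      ∑ y ∈ O ×ˢ (univ : Finset Bool), xc ^ (y.1.length + 1) :=
    sum_le_sum_of_subset_of_nonneg h3 fun y _ _ => by positivity
  have h5 : ∑ y ∈ O ×ˢ (univ : Finset Bool), xc ^ (y.1.length + 1) = 2 * xc * ∑ E ∈ O, xc ^ E.length := by
    rw [sum_product, mul_sum]
    refine sum_congr rfl fun E _ => ?_
    simp only [sum_const, card_univ, Fintype.card_bool, nsmul_eq_mul]
    rw [pow_succ]
    push_cast
    ring
  have h6 : mo (HpF r) (fun _ => 1) = ∑ E ∈ O, xc ^ E.length := by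
    unfold mo
    rw [hO, sum_filter]
    refine sum_congr rfl fun E _ => ?_
    by_cases h : E.length % 2 = 0
    · rw [if_neg (not_not.2 h), TIP.ind_neg (not_not.2 h), zero_mul]
    · rw [if_pos h, TIP.ind_pos h, one_mul, one_mul]
  have h7 : 0 ≤ ∑ E ∈ O, xc ^ E.length := sum_nonneg fun E _ => by positivity
  rw [h6]
  calc me (HpF r) (we r) ≤ 2 * xc * ∑ E ∈ O, xc ^ E.length := by
        rw [← h5]
        exact h1.trans (h2.le.trans h4)
    _ ≤ 2 * 1 * ∑ E ∈ O, xc ^ E.length := by gcongr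
    _ = _ := by ring

lemma me_le (r : ℕ) : me (HpF r) (we r) ≤ me (HpF r) (fun _ => 1) := by
  have hx := xc_pos
  unfold me
  refine sum_le_sum fun E _ => mul_le_mul_of_nonneg_left ?_ (TIP.ind_nonneg _)
  exact mul_le_mul_of_nonneg_right (we_le r E) (by positivity)

lemma me_nonneg (EE : Finset (List Bool)) {w : List Bool → ℝ} (hw : ∀ E, 0 ≤ w E) : 0 ≤ me EE w := by
  have hx := xc_pos
  exact sum_nonneg fun E _ => mul_nonneg (TIP.ind_nonneg _) (mul_nonneg (hw E) (by positivity))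

lemma mo_nonneg (EE : Finset (List Bool)) {w : List Bool → ℝ} (hw : ∀ E, 0 ≤ w E) : 0 ≤ mo EE w := by
  have hx := xc_pos
  exact sum_nonneg fun E _ => mul_nonneg (TIP.ind_nonneg _) (mul_nonneg (hw E) (by positivity))

/-- the mass of the even half plane words, in real numbers -/
lemma low_real {c : ℝ} {l : ℕ} (h : ENNReal.ofReal (c * Ub l) * NTA.Xb l ≤
    gf {E | E ∈ Hp (2 ^ l) ∧ E.length % 2 = 0 ∧ (2 : ℤ) ^ l ≤ 16 * ip (en E) up ∧ 32 * hn (en E) ≤ 15 * 2 ^ l}) :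
    ENNReal.ofReal (c * Ub l) * NTA.Xb l ≤ ENNReal.ofReal (me (HpF (2 ^ l)) (we (2 ^ l))) := by
  classical
  refine h.trans ?_
  have hx := xc_pos
  obtain ⟨S, hS⟩ : ∃ S, S = (HpF (2 ^ l)).filter fun E => E.length % 2 = 0 ∧ (2 : ℤ) ^ l ≤ 16 * ip (en E) up ∧
    32 * hn (en E) ≤ 15 * 2 ^ l := ⟨_, rfl⟩
  have h1 : {E | E ∈ Hp (2 ^ l) ∧ E.length % 2 = 0 ∧ (2 : ℤ) ^ l ≤ 16 * ip (en E) up ∧
      32 * hn (en E) ≤ 15 * 2 ^ l} = (S : Set (List Bool)) := by
    ext E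
    rw [mem_coe, hS, mem_filter, mem_HpF]
    rfl
  rw [h1, gf_finset]
  apply ENNReal.ofReal_le_ofReal
  rw [hS, sum_filter]
  unfold me
  refine sum_le_sum fun E _ => ?_
  split_ifs with h2
  · rw [TIP.ind_pos h2.1, one_mul]
    have h3 : we (2 ^ l) E = 1 := by
      have hr : (0 : ℝ) < ((2 ^ l : ℕ) : ℝ) := by positivity
      unfold we chi
      rw [TIP.ind_pos h2.1, one_mul]
      have a1 : (2 : ℝ) ^ l ≤ 16 * (ip (en E) up : ℝ) := by exact_mod_cast h2.2.1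
      have a2 : 32 * (hn (en E) : ℝ) ≤ 15 * 2 ^ l := by exact_mod_cast h2.2.2
      have a3 : ((2 ^ l : ℕ) : ℝ) = (2 : ℝ) ^ l := by push_cast; ring
      rw [← a3] at a1 a2
      have b1 : 1 ≤ 32 * (ip (en E) up : ℝ) / ((2 ^ l : ℕ) : ℝ) - 1 := by
        rw [le_sub_iff_add_le, le_div_iff₀ hr]
        linarith
      have b2 : 1 ≤ 16 - 32 * (hn (en E) : ℝ) / ((2 ^ l : ℕ) : ℝ) := by
        have : 32 * (hn (en E) : ℝ) / ((2 ^ l : ℕ) : ℝ) ≤ 15 := by
          rw [div_le_iff₀ hr]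
          exact a2
        linarith
      have c1 : ∀ x : ℝ, 1 ≤ x → cl1 x = 1 := by
        intro x hx1
        unfold cl1
        rw [min_eq_left hx1]
        exact max_eq_right zero_le_one
      rw [c1 _ b1, c1 _ b2, min_self]
    rw [h3, one_mul]
  · exact mul_nonneg (TIP.ind_nonneg _) (mul_nonneg (we_nonneg _ _) (by positivity))

/-- the final numbers -/
lemma low_num {κ K0 B U S P0' P0 Q1 Pu Qu Pu2 Qu2 ml He Ho v cv M e1 A L : ℝ} (_hκ : 0 < κ) (hK0 : 0 ≤ K0)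
    (_hU : 0 < U) (hml : 0 ≤ ml) (hv : 0 < v) (hcv : 0 < cv) (hcvU : cv * U ≤ v) (he1 : 0 ≤ e1)
    (hP0 : P0 ≤ P0') (hP0n : 0 ≤ P0) (hQ1n : 0 ≤ Q1) (hPun : 0 ≤ Pu) (hQun : 0 ≤ Qu) (hPu : Pu ≤ Pu2) (hQu : Qu ≤ Qu2)
    (hHe : ml ≤ He) (hHo : ml ≤ 2 * Ho) (_hSn : 0 ≤ S) (_hMn : 0 ≤ M)
    (_hAe : 0 ≤ A) (_hLe : 0 ≤ L) (hAm : A ≤ K0 * ml) (hLm : L ≤ K0 * ml)
    (h1 : κ * (U * B) ≤ A * P0 + L * Q1 + 2 * (A * Pu + L * Qu) + 4 * e1)
    (h2 : He * Pu2 + Ho * Qu2 ≤ M + e1) (h3 : ml * P0' ≤ S + 2 * M + e1)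
    (h4 : v * Q1 ≤ 512 * U * P0' + 6 * (v * Qu) + e1) :
    κ * (U * B) ≤ K0 * (1 + 512 / cv) * S + K0 * (2 * (1 + 512 / cv) + 18) * M +
      e1 * (K0 * (1 + 512 / cv) + 19 * K0 + K0 * (ml / v) + 4) := by
  have hP0'n : 0 ≤ P0' := hP0n.trans hP0
  have hPu2 : 0 ≤ Pu2 := hPun.trans hPu
  have hQu2 : 0 ≤ Qu2 := hQun.trans hQu
  -- unstable parts
  have a1 : ml * Pu ≤ M + e1 := by
    have b1 : ml * Pu ≤ He * Pu2 := mul_le_mul hHe hPu hPun (hml.trans hHe)
    have hHo0 : 0 ≤ Ho := by linarith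
    have b2 : 0 ≤ Ho * Qu2 := mul_nonneg hHo0 hQu2
    linarith
  have a2 : ml * Qu ≤ 2 * (M + e1) := by
    have b1 : ml * Qu ≤ 2 * Ho * Qu2 := mul_le_mul hHo hQu hQun (hml.trans hHo)
    have b2 : 0 ≤ He * Pu2 := mul_nonneg (hml.trans hHe) hPu2
    linarith
  -- odd environments
  have a3 : ml * Q1 ≤ 512 / cv * (ml * P0') + 6 * (ml * Qu) + e1 * (ml / v) := by
    have b1 : Q1 ≤ (512 * U * P0' + 6 * (v * Qu) + e1) / v := by
      rw [le_div_iff₀ hv]
      linarith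
    have b2 : (512 * U * P0' + 6 * (v * Qu) + e1) / v = 512 * U / v * P0' + 6 * Qu + e1 / v := by
      field_simp
    have b3 : 512 * U / v ≤ 512 / cv := by
      rw [div_le_div_iff₀ hv hcv]
      nlinarith
    have b4 : Q1 ≤ 512 / cv * P0' + 6 * Qu + e1 / v := by
      rw [b2] at b1
      have := mul_le_mul_of_nonneg_right b3 hP0'n
      linarith
    have b5 := mul_le_mul_of_nonneg_left b4 hml
    have b6 : ml * (512 / cv * P0' + 6 * Qu + e1 / v) = 512 / cv * (ml * P0') + 6 * (ml * Qu) + e1 * (ml / v) := by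
      field_simp
    linarith
  have a4 : ml * P0 ≤ ml * P0' := mul_le_mul_of_nonneg_left hP0 hml
  have c1 : A * P0 ≤ K0 * (ml * P0) := by
    have := mul_le_mul_of_nonneg_right hAm hP0n
    linarith
  have c2 : L * Q1 ≤ K0 * (ml * Q1) := by
    have := mul_le_mul_of_nonneg_right hLm hQ1n
    linarith
  have c3 : A * Pu ≤ K0 * (ml * Pu) := by
    have := mul_le_mul_of_nonneg_right hAm hPun
    linarith
  have c4 : L * Qu ≤ K0 * (ml * Qu) := by
    have := mul_le_mul_of_nonneg_right hLm hQun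
    linarith
  have hc : 0 < 512 / cv := by positivity
  have d1 : ml * P0 + ml * Q1 + 2 * (ml * Pu) + 2 * (ml * Qu) ≤
      (1 + 512 / cv) * (S + 2 * M + e1) + 18 * (M + e1) + e1 * (ml / v) := by
    have b1 : ml * P0 ≤ S + 2 * M + e1 := a4.trans h3
    have b2 : 512 / cv * (ml * P0') ≤ 512 / cv * (S + 2 * M + e1) := mul_le_mul_of_nonneg_left h3 hc.le
    linarith
  have d2 := mul_le_mul_of_nonneg_left d1 hK0
  have d3 : K0 * (ml * P0 + ml * Q1 + 2 * (ml * Pu) + 2 * (ml * Qu)) = K0 * (ml * P0) + K0 * (ml * Q1) +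
      2 * (K0 * (ml * Pu)) + 2 * (K0 * (ml * Qu)) := by ring
  have d4 : K0 * ((1 + 512 / cv) * (S + 2 * M + e1) + 18 * (M + e1) + e1 * (ml / v)) + 4 * e1 ≤
      K0 * (1 + 512 / cv) * S + K0 * (2 * (1 + 512 / cv) + 18) * M +
      e1 * (K0 * (1 + 512 / cv) + 19 * K0 + K0 * (ml / v) + 4) := by
    have : 0 ≤ K0 * e1 := mul_nonneg hK0 he1
    nlinarith
  linarith

end LowA

open Finset TS SDN LowA in
/-- **(d)**: the weight dominates the nice configurations -/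
theorem lowSt_of (hF : FeTog) : LowSt := by
  classical
  obtain ⟨c, l0, hc, hlow⟩ := hpLow
  obtain ⟨cv, l1, hcv, hturn⟩ := turnSt
  intro m κ CY hκ
  obtain ⟨Y0, hY0⟩ : ∃ Y0, Y0 = max CY 0 := ⟨_, rfl⟩
  have hY0n : 0 ≤ Y0 := by rw [hY0]; exact le_max_right _ _
  obtain ⟨K0, hK0⟩ : ∃ K0, K0 = Y0 / c := ⟨_, rfl⟩
  have hK0n : 0 ≤ K0 := by rw [hK0]; positivity
  obtain ⟨C, hC⟩ : ∃ C, C = (K0 * (2 * (1 + 512 / cv) + 18) + 1) / κ := ⟨_, rfl⟩
  have hC0 : 0 < C := by rw [hC]; positivity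
  refine ⟨C, max l0 l1, hC0, ?_⟩
  intro p q hE l R0 YY e hl he hSz hgf
  have hU : 0 < Ub l := DL.Ub_pos l
  obtain ⟨R1, hR1⟩ : ∃ R1, R1 = max R0 (1024 * 2 ^ l + 2) := ⟨_, rfl⟩
  have hR10 : R0 ≤ R1 := by rw [hR1]; exact le_max_left _ _
  have hR11 : 1024 * 2 ^ l + 2 ≤ R1 := by rw [hR1]; exact le_max_right _ _
  have hR12 : 2 * 2 ^ l + 2 ≤ R1 := by omega
  -- the ends
  have hfin : YY.Finite := by
    refine (fin_box (2 ^ m * 2 ^ l)).subset fun Y hY => ⟨(hSz Y hY).1, fun i hi => ?_⟩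
    have := (hSz Y hY).2 i hi
    push_cast
    exact this
  obtain ⟨YF, hYFd⟩ : ∃ YF, YF = hfin.toFinset := ⟨_, rfl⟩
  have hYF : ∀ Y, Y ∈ YF ↔ Y ∈ YY := fun Y => by rw [hYFd, Set.Finite.mem_toFinset]
  -- the turns
  obtain ⟨V, hV, hVm⟩ := hturn l ((le_max_right _ _).trans hl)
  have hVfin : V.Finite := (Hp_fin (2 ^ (l + 9))).subset hV.hp
  obtain ⟨VF, hVFd⟩ : ∃ VF, VF = hVfin.toFinset := ⟨_, rfl⟩
  have hVF : ∀ v, v ∈ VF ↔ v ∈ V := fun v => by rw [hVFd, Set.Finite.mem_toFinset]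
  obtain ⟨v, hv⟩ : ∃ v, v = mo VF (fun _ => 1) := ⟨_, rfl⟩
  have hxc := xc_pos
  have hvU : cv * Ub l ≤ v := by
    have h1 : V = (VF : Set (List Bool)) := by
      ext x
      rw [mem_coe, hVF]
    rw [h1, gf_finset] at hVm
    have h2 : ∑ t ∈ VF, xc ^ t.length = v := by
      rw [hv]
      unfold mo
      refine sum_congr rfl fun E hE' => ?_
      have := hV.odd E ((hVF E).1 hE')
      rw [TIP.ind_pos (by omega), one_mul, one_mul]
    rw [h2] at hVm
    have h3 : 0 ≤ v := by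
      rw [hv]
      exact mo_nonneg _ fun _ => zero_le_one
    exact (ENNReal.ofReal_le_ofReal_iff h3).1 hVm
  have hv0 : 0 < v := lt_of_lt_of_le (by positivity) hvU
  -- the half plane words
  obtain ⟨ml, hml⟩ : ∃ ml, ml = me (HpF (2 ^ l)) (we (2 ^ l)) := ⟨_, rfl⟩
  have hml0 : 0 ≤ ml := by
    rw [hml]
    exact me_nonneg _ (we_nonneg _)
  have hmlX := low_real (hlow l ((le_max_left _ _).trans hl))
  rw [← hml] at hmlX
  -- the masses of the ends
  have hYm : me YF (fun _ => 1) + mo YF (fun _ => 1) ≤ K0 * ml := by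
    have h1 : YY = (YF : Set (List Bool)) := by
      ext x
      rw [mem_coe, hYF]
    have h2 : me YF (fun _ => 1) + mo YF (fun _ => 1) = ∑ t ∈ YF, xc ^ t.length := by
      unfold me mo
      rw [← sum_add_distrib]
      refine sum_congr rfl fun E _ => ?_
      have := TIP.ind_add_not (E.length % 2 = 0)
      calc _ = (TIP.ind (E.length % 2 = 0) + TIP.ind (¬ E.length % 2 = 0)) * xc ^ E.length := by ring
        _ = _ := by rw [this, one_mul]
    rw [h2]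
    rw [h1, gf_finset] at hgf
    have h3 : ENNReal.ofReal (∑ t ∈ YF, xc ^ t.length) ≤ ENNReal.ofReal (K0 * ml) := by
      refine hgf.trans ?_
      calc ENNReal.ofReal (CY * Ub l) * NTA.Xb l ≤ ENNReal.ofReal (Y0 * Ub l) * NTA.Xb l := by
            refine mul_le_mul_left (ENNReal.ofReal_le_ofReal ?_) _
            rw [hY0]
            exact mul_le_mul_of_nonneg_right (le_max_left _ _) hU.le
        _ = ENNReal.ofReal K0 * (ENNReal.ofReal (c * Ub l) * NTA.Xb l) := by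
            rw [← mul_assoc, ← ENNReal.ofReal_mul hK0n, hK0]
            congr 2
            field_simp
        _ ≤ ENNReal.ofReal K0 * ENNReal.ofReal ml := mul_le_mul_right hmlX _
        _ = ENNReal.ofReal (K0 * ml) := by rw [ENNReal.ofReal_mul hK0n]
    exact (ENNReal.ofReal_le_ofReal_iff (by positivity)).1 h3
  have hYe0 := me_nonneg YF (w := fun _ => 1) fun _ => zero_le_one
  have hYo0 := mo_nonneg YF (w := fun _ => 1) fun _ => zero_le_one
  -- the error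
  obtain ⟨D, hD⟩ : ∃ D, D = K0 * (1 + 512 / cv) + 19 * K0 + K0 * (ml / v) + 4 := ⟨_, rfl⟩
  have hD0 : 0 < D := by rw [hD]; positivity
  obtain ⟨e1, he1⟩ : ∃ e1, e1 = κ * e / D := ⟨_, rfl⟩
  have he10 : 0 < e1 := by rw [he1]; positivity
  obtain ⟨n1, b1⟩ := pu_sum hE R1 (YF.filter fun Y => Y.length % 2 = 0) e1 he10
  obtain ⟨n2, b2⟩ := pu_sum hE R1 (YF.filter fun Y => ¬ Y.length % 2 = 0) e1 he10
  obtain ⟨n3, b3⟩ := pu_sum hE R1 YF e1 he10
  obtain ⟨n4, b4⟩ := L2 hF hE (2 ^ l) R1 hR12 e1 he10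
  obtain ⟨n5, b5⟩ := L3 hF hE (2 ^ l) R1 hR12 e1 he10
  obtain ⟨n6, b6⟩ := L4 hF hE l R1 hR11 hV hVF e1 he10
  refine ⟨max (max n1 n2) (max (max n3 n4) (max n5 n6)), fun n hnn rho g Un hrho hg hP0 => ?_⟩
  have hn1 : n1 ≤ n := ((le_max_left _ _).trans (le_max_left _ _)).trans hnn
  have hn2 : n2 ≤ n := ((le_max_right _ _).trans (le_max_left _ _)).trans hnn
  have hn3 : n3 ≤ n := (((le_max_left _ _).trans (le_max_left _ _)).trans (le_max_right _ _)).trans hnn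
  have hn4 : n4 ≤ n := (((le_max_right _ _).trans (le_max_left _ _)).trans (le_max_right _ _)).trans hnn
  have hn5 : n5 ≤ n := (((le_max_left _ _).trans (le_max_right _ _)).trans (le_max_right _ _)).trans hnn
  have hn6 : n6 ≤ n := (((le_max_right _ _).trans (le_max_right _ _)).trans (le_max_right _ _)).trans hnn
  have hP := Pat_mono hR10 hP0
  have hr512 : 512 * 2 ^ l ≤ rho := by
    refine le_trans ?_ hrho
    have : 1 ≤ 2 ^ m := Nat.one_le_two_pow
    calc 512 * 2 ^ l = 1 * (512 * 2 ^ l) := by ring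
      _ ≤ 2 ^ m * (512 * 2 ^ l) := Nat.mul_le_mul_right _ this
      _ = 2 ^ (m + 9) * 2 ^ l := by ring
  have hr1 : 2 ^ l ≤ rho := by omega
  have hrm : 2 ^ m * 2 ^ l ≤ rho := by
    refine le_trans ?_ hrho
    have : 2 ^ m ≤ 2 ^ (m + 9) := Nat.pow_le_pow_right (by norm_num) (by omega)
    exact Nat.mul_le_mul_right _ this
  have hbox : ∀ Y ∈ YY, ∀ i, i ≤ Y.length → hn (vx oo up Y i) < rho := by
    intro Y hY i hi
    have h1 := (hSz Y hY).2 i hi
    have h2 : ((2 ^ m * 2 ^ l : ℕ) : ℤ) ≤ rho := by exact_mod_cast hrm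
    push_cast at h2
    linarith
  have hGog : ∀ y, ∀ t, 0 ≤ Gf (1024 * 2 ^ l) (g y) t ∧ Gf (1024 * 2 ^ l) (g y) t ≤ 1 := fun y t =>
    ⟨Gf_nonneg (hg y) t, Gf_le_one (hP.bd y) t⟩
  have bu : ∀ t, |(fun A => TIP.ind (A ∈ Un)) t| ≤ 1 := fun t => by
    show |TIP.ind (t ∈ Un)| ≤ 1
    rw [abs_of_nonneg (TIP.ind_nonneg _)]
    exact TIP.ind_le_one _
  have hUn0 : ∀ t, 0 ≤ (fun A => TIP.ind (A ∈ Un)) t := fun t => TIP.ind_nonneg _
  -- the pieces
  have d0 := L1 (κ := κ) (r := 2 ^ l) hE hYF hbox hg hP n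
  have d1 := b1 n hn1 _ (hGog 0) (Gf_tog hF hR11 (hP.tog 0))
  have d2 := b2 n hn2 _ (hGog 1) (Gf_tog hF hR11 (hP.tog 1))
  have d3 := b3 n hn3 _ (fun t => ⟨Gf_nonneg (s := 1024 * 2 ^ l) hUn0 t, Gf_le_one bu t⟩) (Gf_tog hF hR11 hP.togU)
  have d4 := b4 n hn4 Un hP.togU
  have d5 := b5 n hn5 rho g Un hr1 hg hP
  have d6 := b6 n hn6 rho g Un hr512 hg hP
  rw [← hml] at d5
  rw [← hv] at d6
  have f1 : me (YF.filter fun Y => Y.length % 2 = 0) (fun _ => 1) = me YF (fun _ => 1) := by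
    unfold me
    rw [sum_filter]
    refine sum_congr rfl fun E _ => ?_
    split_ifs with h
    · rfl
    · rw [TIP.ind_neg h, zero_mul]
  have f2 : mo (YF.filter fun Y => Y.length % 2 = 0) (fun _ => 1) = 0 := by
    unfold mo
    refine sum_eq_zero fun E hE' => ?_
    rw [mem_filter] at hE'
    rw [TIP.ind_neg (not_not.2 hE'.2), zero_mul]
  have f3 : mo (YF.filter fun Y => ¬ Y.length % 2 = 0) (fun _ => 1) = mo YF (fun _ => 1) := by
    unfold mo
    rw [sum_filter]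
    refine sum_congr rfl fun E _ => ?_
    by_cases h : E.length % 2 = 0
    · rw [if_neg (not_not.2 h), TIP.ind_neg (not_not.2 h), zero_mul]
    · rw [if_pos h]
  have f4 : me (YF.filter fun Y => ¬ Y.length % 2 = 0) (fun _ => 1) = 0 := by
    unfold me
    refine sum_eq_zero fun E hE' => ?_
    rw [mem_filter] at hE'
    rw [TIP.ind_neg hE'.2, zero_mul]
  rw [f1, f2, zero_mul, add_zero] at d1
  rw [f3, f4, zero_mul, zero_add] at d2
  have hS0 : 0 ≤ ∑ t ∈ sawF n, p n t * (Nw (2 ^ l) 0 t * g 0 t) := by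
    refine sum_nonneg fun t _ => mul_nonneg (hE.p0 n t) (mul_nonneg ?_ (hg 0 t))
    rw [Nw_we]
    exact sum_nonneg fun k _ => we_nonneg _ _
  have hM0 : 0 ≤ unM p n (2 ^ l) Un :=
    sum_nonneg fun t _ => mul_nonneg (hE.p0 n t) (sum_nonneg fun k _ => TIP.ind_nonneg _)
  have hmono : 2 * 2 ^ l ≤ 1024 * 2 ^ l := by omega
  have key := low_num (κ := κ) (K0 := K0) (B := ∑ t ∈ sawF n, p n t * (TIP.ind (t ∈ Nc (2 ^ l) κ YY) * g 0 t))
    (U := Ub l) (S := ∑ t ∈ sawF n, p n t * (Nw (2 ^ l) 0 t * g 0 t)) (P0' := Pg p n (Gf (2 * 2 ^ l) (g 0)))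
    (P0 := Pg p n (Gf (1024 * 2 ^ l) (g 0))) (Q1 := Qg q n (Gf (1024 * 2 ^ l) (g 1)))
    (Pu := Pg p n (Gf (1024 * 2 ^ l) fun A => TIP.ind (A ∈ Un)))
    (Qu := Qg q n (Gf (1024 * 2 ^ l) fun A => TIP.ind (A ∈ Un)))
    (Pu2 := Pg p n (Gf (2 * 2 ^ l) fun A => TIP.ind (A ∈ Un)))
    (Qu2 := Qg q n (Gf (2 * 2 ^ l) fun A => TIP.ind (A ∈ Un)))
    (ml := ml) (He := me (HpF (2 ^ l)) fun _ => 1) (Ho := mo (HpF (2 ^ l)) fun _ => 1) (v := v) (cv := cv)
    (M := unM p n (2 ^ l) Un) (e1 := e1) (A := me YF fun _ => 1) (L := mo YF fun _ => 1)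
    hκ hK0n hU hml0 hv0 hcv hvU he10.le
    (Pg_mono hE (Gf_anti hmono (hg 0))) (Pg_nonneg hE (Gf_nonneg (hg 0))) (Qg_nonneg hE (Gf_nonneg (hg 1)))
    (Pg_nonneg hE (Gf_nonneg hUn0)) (Qg_nonneg hE (Gf_nonneg hUn0)) (Pg_mono hE (Gf_anti hmono hUn0))
    (Qg_mono hE (Gf_anti hmono hUn0)) (by rw [hml]; exact me_le _) (by rw [hml]; exact mo_ge _) hS0 hM0 hYe0 hYo0
    (by linarith) (by linarith) (by
      have e0 : κ * UU (2 ^ l) = κ * Ub l := rfl
      rw [e0, mul_assoc] at d0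
      linarith) d4 d5 d6
  rw [← hD] at key
  have g1 : e1 * D = κ * e := by
    rw [he1]
    field_simp
  rw [g1] at key
  have hcv' : 0 < 512 / cv := by positivity
  have g2 : K0 * (1 + 512 / cv) ≤ κ * C := by
    rw [hC]
    have : κ * ((K0 * (2 * (1 + 512 / cv) + 18) + 1) / κ) = K0 * (2 * (1 + 512 / cv) + 18) + 1 := by field_simp
    rw [this]
    nlinarith
  have g3 : K0 * (2 * (1 + 512 / cv) + 18) ≤ κ * C := by
    rw [hC]
    have : κ * ((K0 * (2 * (1 + 512 / cv) + 18) + 1) / κ) = K0 * (2 * (1 + 512 / cv) + 18) + 1 := by field_simp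
    rw [this]
    linarith
  have g4 := mul_le_mul_of_nonneg_right g2 hS0
  have g5 := mul_le_mul_of_nonneg_right g3 hM0
  have g6 : κ * (Ub l * ∑ t ∈ sawF n, p n t * (TIP.ind (t ∈ Nc (2 ^ l) κ YY) * g 0 t)) ≤
      κ * (C * (∑ t ∈ sawF n, p n t * (Nw (2 ^ l) 0 t * g 0 t)) + C * unM p n (2 ^ l) Un + e) := by
    linarith
  exact le_of_mul_le_mul_left g6 hκ

end TIW

end HexObs
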