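import Pool.Agent.TIW.InnF
import Pool.Agent.TIW.Mom2

/-!
# TIW: sums over the cuts and over the ends (helper10)

* `fin_box`: finitely many words in a box; `cut_sum`: the sum over the cuts as a sum over the ends;
* `pf_sum`, `pu_sum`: the product formula, summed over a finite set of ends.
-/

set_option autoImplicit false

namespace HexObs

namespace TIW

namespace LowA

open Finset TS SDN

/-! ### 1. Geometry -/

lemma ip_rt (A : List Bool) (p : Pt) : ip (mulE (rt A) p) (de A) = ip p up := by
  rw [← rt_up A, ip_mulE, nrm_rt, one_mul]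

lemma Fe_mono {r s : ℕ} (h : r ≤ s) : Fe s ⊆ Fe r := by
  intro A hA i hi h0
  have := hA i hi h0
  have h' : (r : ℤ) ≤ s := by exact_mod_cast h
  omega

lemma Hp_mono {r s : ℕ} (h : r ≤ s) : Hp r ⊆ Hp s := by
  intro E hE
  refine ⟨hE.1, fun i hi => ?_⟩
  have := hE.2 i hi
  have h' : (r : ℤ) ≤ s := by exact_mod_cast h
  omega

/-- finitely many self-avoiding words in a box -/
lemma fin_box (r : ℕ) : {t : List Bool | t ∈ SA ∧ ∀ i, i ≤ t.length → hn (vx oo up t i) < r}.Finite := by
  classical
  obtain ⟨P, hP⟩ : ∃ P : Finset Pt, P = (hn_fin r).toFinset := ⟨_, rfl⟩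
  refine (Set.Finite.subset (List.finite_length_le Bool P.card) fun t ht => ?_)
  obtain ⟨h1, h2⟩ := ht
  show t.length ≤ P.card
  have h3 : ((range (t.length + 1)).image fun i => vx oo up t i) ⊆ P := by
    intro p hp
    obtain ⟨i, hi, rfl⟩ := mem_image.1 hp
    rw [hP, Set.Finite.mem_toFinset]
    exact h2 i (by have := mem_range.1 hi; omega)
  have h4 := card_le_card h3
  rw [card_image_of_injOn, card_range] at h4
  · omega
  · intro i hi k hk heq
    have hi' := mem_range.1 (mem_coe.1 hi)
    have hk' := mem_range.1 (mem_coe.1 hk)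
    rcases lt_trichotomy i k with h | h | h
    · exact absurd heq (h1.inj i k h (by omega))
    · exact h
    · exact absurd heq.symm (h1.inj k i h (by omega))

/-! ### 2. Sums over the cuts -/

lemma suf_take {t E : List Bool} (h : E <:+ t) : t.take (t.length - E.length) ++ E = t := by
  obtain ⟨A, rfl⟩ := h
  rw [List.length_append, Nat.add_sub_cancel, List.take_left']
  rfl

lemma suf_drop {t E : List Bool} (h : E <:+ t) : t.drop (t.length - E.length) = E := by
  obtain ⟨A, rfl⟩ := h
  rw [List.length_append, Nat.add_sub_cancel, List.drop_left']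
  rfl

/-- the sum over the cuts as a sum over the ends -/
lemma cut_sum (t : List Bool) (EE : Finset (List Bool)) (f : List Bool → List Bool → ℝ) :
    ∑ k ∈ range (t.length + 1), TIP.ind (t.drop k ∈ EE) * f (t.take k) (t.drop k) =
      ∑ E ∈ EE, TIP.ind (E <:+ t) * f (t.take (t.length - E.length)) E := by
  classical
  have h1 : ∑ k ∈ range (t.length + 1), TIP.ind (t.drop k ∈ EE) * f (t.take k) (t.drop k) =
      ∑ k ∈ (range (t.length + 1)).filter (fun k => t.drop k ∈ EE), f (t.take k) (t.drop k) := by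
    rw [sum_filter]
    refine sum_congr rfl fun k _ => ?_
    split_ifs with h
    · rw [TIP.ind_pos h, one_mul]
    · rw [TIP.ind_neg h, zero_mul]
  have h2 : ∑ E ∈ EE, TIP.ind (E <:+ t) * f (t.take (t.length - E.length)) E =
      ∑ E ∈ EE.filter (fun E => E <:+ t), f (t.take (t.length - E.length)) E := by
    rw [sum_filter]
    refine sum_congr rfl fun E _ => ?_
    split_ifs with h
    · rw [TIP.ind_pos h, one_mul]
    · rw [TIP.ind_neg h, zero_mul]
  rw [h1, h2]
  refine sum_bij' (fun k _ => t.drop k) (fun E _ => t.length - E.length) ?_ ?_ ?_ ?_ ?_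
  · intro k hk
    rw [mem_filter] at hk ⊢
    exact ⟨hk.2, List.drop_suffix _ _⟩
  · intro E hE
    rw [mem_filter] at hE ⊢
    refine ⟨mem_range.2 (by omega), ?_⟩
    rw [suf_drop hE.2]
    exact hE.1
  · intro k hk
    rw [mem_filter, mem_range] at hk
    rw [List.length_drop]
    omega
  · intro E hE
    rw [mem_filter] at hE
    exact suf_drop hE.2
  · intro k hk
    rw [mem_filter, mem_range] at hk
    rw [List.length_drop]
    congr 2
    omega

/-! ### 3. The product formula, summed -/

/-- sum over the words with n letters -/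
noncomputable def Pg (p : ℕ → List Bool → ℝ) (n : ℕ) (g : List Bool → ℝ) : ℝ := ∑ t ∈ sawF n, p n t * g t

/-- sum over the far parts in front of an odd end -/
noncomputable def Qg (q : ℕ → List Bool → ℝ) (n : ℕ) (g : List Bool → ℝ) : ℝ := ∑ t ∈ sawF (n - 1), q n t * g t

/-- mass of the even ends -/
noncomputable def me (EE : Finset (List Bool)) (w : List Bool → ℝ) : ℝ :=
  ∑ E ∈ EE, TIP.ind (E.length % 2 = 0) * (w E * xc ^ E.length)

/-- mass of the odd ends -/
noncomputable def mo (EE : Finset (List Bool)) (w : List Bool → ℝ) : ℝ :=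
  ∑ E ∈ EE, TIP.ind (¬ E.length % 2 = 0) * (w E * xc ^ E.length)

/-- sum over the words and their ends in EE -/
noncomputable def Sg (p : ℕ → List Bool → ℝ) (n : ℕ) (EE : Finset (List Bool)) (w g : List Bool → ℝ) : ℝ :=
  ∑ t ∈ sawF n, p n t * ∑ E ∈ EE, TIP.ind (E <:+ t) * (w E * g (t.take (t.length - E.length)))

variable {p q : ℕ → List Bool → ℝ}

lemma Sg_insert [DecidableEq (List Bool)] {n : ℕ} {EE : Finset (List Bool)} {E : List Bool} (hE : E ∉ EE)
    (w g : List Bool → ℝ) : Sg p n (insert E EE) w g =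
      w E * (∑ t ∈ sawF n, p n t * (TIP.ind (E <:+ t) * g (t.take (t.length - E.length)))) + Sg p n EE w g := by
  unfold Sg
  rw [mul_sum, ← sum_add_distrib]
  refine sum_congr rfl fun t _ => ?_
  rw [sum_insert hE]
  ring

lemma me_insert [DecidableEq (List Bool)] {EE : Finset (List Bool)} {E : List Bool} (hE : E ∉ EE)
    (w : List Bool → ℝ) : me (insert E EE) w = TIP.ind (E.length % 2 = 0) * (w E * xc ^ E.length) + me EE w := by
  unfold me
  rw [sum_insert hE]

lemma mo_insert [DecidableEq (List Bool)] {EE : Finset (List Bool)} {E : List Bool} (hE : E ∉ EE)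
    (w : List Bool → ℝ) : mo (insert E EE) w = TIP.ind (¬ E.length % 2 = 0) * (w E * xc ^ E.length) + mo EE w := by
  unfold mo
  rw [sum_insert hE]

lemma par_split (E : List Bool) (x y : ℝ) : (if E.length % 2 = 0 then x else y) =
    TIP.ind (E.length % 2 = 0) * x + TIP.ind (¬ E.length % 2 = 0) * y := by
  by_cases h : E.length % 2 = 0
  · rw [if_pos h, TIP.ind_pos h, TIP.ind_neg (not_not.2 h)]
    ring
  · rw [if_neg h, TIP.ind_neg h, TIP.ind_pos h]
    ring

/-- **the product formula, summed over a finite set of ends** -/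
theorem pf_sum (hE : Ens p q) (R0 : ℕ) (w : List Bool → ℝ) (EE : Finset (List Bool)) : ∀ e : ℝ, 0 < e →
    ∃ n0 : ℕ, ∀ n, n0 ≤ n → ∀ g : List Bool → ℝ, (∀ t, |g t| ≤ 1) → TgF R0 g →
    (∀ E ∈ EE, ∀ A, g A ≠ 0 → A ∈ SA → A ++ E ∈ SA) →
    |Sg p n EE w g - (me EE w * Pg p n g + mo EE w * Qg q n g)| ≤ e := by
  classical
  induction EE using Finset.induction with
  | empty =>
    intro e he
    refine ⟨0, fun n _ g _ _ _ => ?_⟩
    unfold Sg me mo
    simp only [sum_empty, mul_zero, sum_const_zero, zero_mul, add_zero, sub_zero, abs_zero]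
    exact he.le
  | insert E EE hEE ih =>
    intro e he
    obtain ⟨c, hc⟩ : ∃ c : ℝ, c = |w E| + 1 := ⟨_, rfl⟩
    have hc0 : 0 < c := by
      rw [hc]
      have := abs_nonneg (w E)
      linarith
    obtain ⟨n1, h1⟩ := ih (e / 2) (by linarith)
    obtain ⟨n2, h2⟩ := hE.pf R0 E (e / 2 / c) (by positivity)
    refine ⟨max n1 n2, fun n hn g hg hT hS => ?_⟩
    have a1 := h1 n ((le_max_left _ _).trans hn) g hg hT fun E' hE' => hS E' (mem_insert_of_mem hE')
    have a2 := h2 n ((le_max_right _ _).trans hn) g hg hT (hS E (mem_insert_self _ _))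
    rw [Sg_insert hEE, me_insert hEE, mo_insert hEE]
    rw [par_split] at a2
    obtain ⟨x, hx⟩ : ∃ x, x = ∑ t ∈ sawF n, p n t * (TIP.ind (E <:+ t) * g (t.take (t.length - E.length))) := ⟨_, rfl⟩
    rw [← hx] at a2 ⊢
    have e1 : ∑ t ∈ sawF n, p n t * g t = Pg p n g := rfl
    have e2 : ∑ t ∈ sawF (n - 1), q n t * g t = Qg q n g := rfl
    rw [e1, e2] at a2
    obtain ⟨y, hy⟩ : ∃ y, y = x - xc ^ E.length *
      (TIP.ind (E.length % 2 = 0) * Pg p n g + TIP.ind (¬ E.length % 2 = 0) * Qg q n g) := ⟨_, rfl⟩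
    rw [← hy] at a2
    have e3 : w E * x + Sg p n EE w g - ((TIP.ind (E.length % 2 = 0) * (w E * xc ^ E.length) + me EE w) * Pg p n g +
        (TIP.ind (¬ E.length % 2 = 0) * (w E * xc ^ E.length) + mo EE w) * Qg q n g) =
        w E * y + (Sg p n EE w g - (me EE w * Pg p n g + mo EE w * Qg q n g)) := by
      rw [hy]
      ring
    rw [e3]
    have a3 : |w E * y| ≤ e / 2 := by
      rw [abs_mul]
      calc |w E| * |y| ≤ c * (e / 2 / c) := by
            refine mul_le_mul ?_ a2 (abs_nonneg _) hc0.le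
            rw [hc]
            linarith
        _ = e / 2 := by field_simp
    have a4 := abs_add_le (w E * y) (Sg p n EE w g - (me EE w * Pg p n g + mo EE w * Qg q n g))
    linarith

/-- the upper half of the product formula, summed over a finite set of ends -/
theorem pu_sum (hE : Ens p q) (R0 : ℕ) (EE : Finset (List Bool)) : ∀ e : ℝ, 0 < e →
    ∃ n0 : ℕ, ∀ n, n0 ≤ n → ∀ g : List Bool → ℝ, (∀ t, 0 ≤ g t ∧ g t ≤ 1) → TgF R0 g →
    Sg p n EE (fun _ => 1) g ≤ me EE (fun _ => 1) * Pg p n g + mo EE (fun _ => 1) * Qg q n g + e := by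
  classical
  induction EE using Finset.induction with
  | empty =>
    intro e he
    refine ⟨0, fun n _ g _ _ => ?_⟩
    unfold Sg me mo
    simp only [sum_empty, mul_zero, sum_const_zero, zero_mul, zero_add]
    exact he.le
  | insert E EE hEE ih =>
    intro e he
    obtain ⟨n1, h1⟩ := ih (e / 2) (by linarith)
    obtain ⟨n2, h2⟩ := hE.pu R0 E (e / 2) (by linarith)
    refine ⟨max n1 n2, fun n hn g hg hT => ?_⟩
    have a1 := h1 n ((le_max_left _ _).trans hn) g hg hT
    have a2 := h2 n ((le_max_right _ _).trans hn) g hg hT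
    rw [Sg_insert hEE, me_insert hEE, mo_insert hEE]
    rw [par_split] at a2
    have e1 : ∑ t ∈ sawF n, p n t * g t = Pg p n g := rfl
    have e2 : ∑ t ∈ sawF (n - 1), q n t * g t = Qg q n g := rfl
    rw [e1, e2] at a2
    simp only [one_mul]
    nlinarith [a1, a2]

end LowA

end TIW

end HexObs
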